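import Pool.Agent.Lib.MP_9701dc_gt.FD.K1c

set_option autoImplicit false
set_option linter.unusedSectionVars false

/-!
# The maximal torsion is exponentially above the average in every fixed dimension

`E(n,d) = n^(binom (n-2) d) / binom (binom n (d+1)) (binom (n-1) d)` is the average of the square
of the torsion (Kalai). For every `d ≥ 2` there is `c > 0` such that
`log E(n,d) + c n^d ≤ 2 log T(n,d)` for all large `n`.
-/

namespace Pool.Agent.Lib.MP_9701dc_gt.FDA

open Finset Filter Topology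
open Pool.Agent.Lib.MP_9701dc_gt Pool.Agent.Lib.MP_9701dc_gt.GR

theorem log_factorial_le {N : ℕ} (hN : 1 ≤ N) :
    Real.log (N.factorial : ℝ) ≤ (N : ℝ) * Real.log N - N + Real.log N + 1 := by
  induction N, hN using Nat.le_induction with
  | base => simp
  | succ N hN ih =>
    have hN0 : (0 : ℝ) < N := by exact_mod_cast hN
    have h1 : Real.log ((N + 1).factorial : ℝ) =
        Real.log ((N : ℝ) + 1) + Real.log (N.factorial : ℝ) := by
      rw [Nat.factorial_succ]
      push_cast
      rw [Real.log_mul (by positivity) (by positivity)]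
    rw [h1]
    push_cast
    have h2 : 1 / ((N : ℝ) + 1) ≤ Real.log (((N : ℝ) + 1) / N) := by
      have h3 := Real.log_le_sub_one_of_pos (show (0 : ℝ) < N / ((N : ℝ) + 1) by positivity)
      have h4 : Real.log ((N : ℝ) / ((N : ℝ) + 1)) = - Real.log (((N : ℝ) + 1) / N) := by
        rw [← Real.log_inv, inv_div]
      have h5 : (N : ℝ) / ((N : ℝ) + 1) - 1 = -(1 / ((N : ℝ) + 1)) := by
        field_simp
        ring
      rw [h4, h5] at h3
      linarith
    have h6 : Real.log (((N : ℝ) + 1) / N) = Real.log ((N : ℝ) + 1) - Real.log N :=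
      Real.log_div (by positivity) hN0.ne'
    rw [h6, div_le_iff₀ (by positivity)] at h2
    nlinarith [h2, ih]

/-- the logarithm of the average -/
noncomputable def logE (n d : ℕ) : ℝ :=
  ((n - 2).choose d : ℝ) * Real.log n -
    Real.log (((n.choose (d + 1)).choose ((n - 1).choose d) : ℕ) : ℝ)

theorem logE_le {n d : ℕ} (hn : d + 2 ≤ n) :
    logE n d ≤ ((n - 1).choose d : ℝ) *
      (Real.log n - Real.log ((n : ℝ) - d - 1) + Real.log ((d : ℝ) + 1) - 1) +
      Real.log ((n - 1).choose d : ℝ) + 1 := by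
  obtain ⟨m, rfl⟩ : ∃ m, n = m + 1 := ⟨n - 1, by omega⟩
  have hm : d + 1 ≤ m := by omega
  rw [Nat.add_sub_cancel]
  set R : ℕ := m.choose d with hR
  set F : ℕ := (m + 1).choose (d + 1) with hF
  have hRpos : 0 < R := Nat.choose_pos (by omega)
  have hFR : (m + 1) * R = F * (d + 1) := Nat.add_one_mul_choose_eq m d
  have hFR' : ((m : ℝ) + 1) * R = F * ((d : ℝ) + 1) := by exact_mod_cast hFR
  have hR0 : (0 : ℝ) < R := by exact_mod_cast hRpos
  have hd1 : (0 : ℝ) < (d : ℝ) + 1 := by positivity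
  have hlt : R < F := by
    have h1 : F = R + m.choose (d + 1) := Nat.choose_succ_succ m d
    have h2 : 0 < m.choose (d + 1) := Nat.choose_pos hm
    omega
  have hmd : (0 : ℝ) < (m : ℝ) - d := by
    have : (d : ℝ) + 1 ≤ m := by exact_mod_cast hm
    linarith
  have hdiff : (F : ℝ) - R = R * (((m : ℝ) - d) / ((d : ℝ) + 1)) := by
    field_simp
    nlinarith [hFR']
  have hch : Real.log ((F.choose R : ℕ) : ℝ) ≥
      (R : ℝ) * (Real.log ((m : ℝ) - d) - Real.log ((d : ℝ) + 1)) + R - Real.log R - 1 := by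
    have h1 : (F + 1 - R) ^ R ≤ F.descFactorial R := Nat.pow_sub_le_descFactorial F R
    rw [Nat.descFactorial_eq_factorial_mul_choose] at h1
    have h2 : (((F + 1 - R : ℕ) : ℝ)) ^ R ≤ (R.factorial : ℝ) * ((F.choose R : ℕ) : ℝ) := by
      exact_mod_cast h1
    have h3 : ((F + 1 - R : ℕ) : ℝ) = (F : ℝ) + 1 - R := by
      rw [Nat.cast_sub (by omega)]; push_cast; ring
    have h4 : (0 : ℝ) < (F : ℝ) - R := by
      have : (R : ℝ) < F := by exact_mod_cast hlt
      linarith
    have h5 : ((F : ℝ) - R) ^ R ≤ (R.factorial : ℝ) * ((F.choose R : ℕ) : ℝ) := by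
      refine le_trans (pow_le_pow_left₀ h4.le ?_ R) h2
      rw [h3]; linarith
    have h6 : (0 : ℝ) < ((F.choose R : ℕ) : ℝ) := by exact_mod_cast Nat.choose_pos hlt.le
    have h7 := Real.log_le_log (by positivity) h5
    rw [Real.log_pow, Real.log_mul (by positivity) h6.ne'] at h7
    have h8 := log_factorial_le (N := R) hRpos
    have h9 : Real.log ((F : ℝ) - R) = Real.log R + (Real.log ((m : ℝ) - d) -
        Real.log ((d : ℝ) + 1)) := by
      rw [hdiff, Real.log_mul hR0.ne' (by positivity), Real.log_div hmd.ne' hd1.ne']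
    rw [h9] at h7
    nlinarith [h7, h8]
  unfold logE
  have h10 : ((m + 1 - 2).choose d : ℝ) ≤ R := by
    rw [hR]
    exact_mod_cast Nat.choose_le_choose d (by omega : m + 1 - 2 ≤ m)
  have h11 : 0 ≤ Real.log ((m + 1 : ℕ) : ℝ) := Real.log_natCast_nonneg _
  have h12 := mul_le_mul_of_nonneg_right h10 h11
  have h13 : ((m + 1 : ℕ) : ℝ) - d - 1 = (m : ℝ) - d := by push_cast; ring
  have h14 : (m + 1 - 1).choose d = R := by rw [Nat.add_sub_cancel]
  rw [h13, h14, ← hF]
  nlinarith [hch, h12]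

theorem tendsto_choose_pred (d : ℕ) :
    Tendsto (fun n : ℕ => ((n - 1).choose d : ℝ) / (n : ℝ) ^ d) atTop (𝓝 (1 / d.factorial)) := by
  have h1 := (isEquivalent_choose d)
  have h2 : Tendsto (fun n : ℕ => (n.choose d : ℝ) / ((n : ℝ) ^ d / d.factorial)) atTop (𝓝 1) := by
    rw [Asymptotics.isEquivalent_iff_tendsto_one] at h1
    · exact h1
    · filter_upwards [eventually_ge_atTop 1] with n hn
      have : (0 : ℝ) < n := by exact_mod_cast hn
      positivity
  have hr : Tendsto (fun n : ℕ => (n : ℝ) / ((n : ℝ) + 1)) atTop (𝓝 1) :=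
    tendsto_natCast_div_add_atTop 1
  have h3 := h2.mul ((hr.pow d).mul_const (1 / (d.factorial : ℝ)))
  rw [one_pow, one_mul, one_mul] at h3
  have h4 : Tendsto (fun n : ℕ => (n.choose d : ℝ) / ((n : ℝ) + 1) ^ d) atTop
      (𝓝 (1 / d.factorial)) := by
    refine h3.congr' ?_
    filter_upwards [eventually_ge_atTop 1] with n hn
    have : (0 : ℝ) < n := by exact_mod_cast hn
    rw [div_pow]
    field_simp
  rw [← tendsto_add_atTop_iff_nat 1]
  refine h4.congr fun n => ?_
  rw [Nat.add_sub_cancel]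
  push_cast
  rfl

theorem gap_pos {d : ℕ} (hd : 2 ≤ d) : (Real.log ((d : ℝ) + 1) - 1) / d.factorial <
    (d * (Real.log d - 1) + Real.log (d + 1)) / ((d + 1).factorial : ℝ) := by
  have hd0 : (0 : ℝ) < d := by
    have : 0 < d := by omega
    exact_mod_cast this
  have hf : (0 : ℝ) < (d.factorial : ℝ) := by positivity
  have h1 : Real.log (((d : ℝ) + 1) / d) < ((d : ℝ) + 1) / d - 1 :=
    Real.log_lt_sub_one_of_pos (by positivity) (by
      rw [Ne, div_eq_one_iff_eq hd0.ne']
      linarith)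
  rw [Real.log_div (by positivity) hd0.ne'] at h1
  have h2 : ((d : ℝ) + 1) / d - 1 = 1 / d := by field_simp; ring
  rw [h2, lt_div_iff₀ hd0] at h1
  have h3 : ((d + 1).factorial : ℝ) = ((d : ℝ) + 1) * d.factorial := by
    rw [Nat.factorial_succ]; push_cast; rfl
  rw [h3, div_lt_div_iff₀ hf (by positivity)]
  have h4 : (Real.log ((d : ℝ) + 1) - 1) * (((d : ℝ) + 1) * d.factorial) =
      ((Real.log ((d : ℝ) + 1) - 1) * ((d : ℝ) + 1)) * d.factorial := by ring
  rw [h4]
  refine mul_lt_mul_of_pos_right ?_ hf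
  nlinarith

/-- **The maximum is exponentially larger than the average.** -/
theorem above_average {d : ℕ} (hd : 2 ≤ d) : ∃ c : ℝ, 0 < c ∧ ∀ᶠ n : ℕ in atTop,
    logE n d + c * (n : ℝ) ^ d ≤ 2 * Real.log (Tmax n d) := by
  obtain ⟨lam, hlim, hlam, -⟩ := growth hd
  have hK := K1_bound hd hlam
  have hgap := gap_pos hd
  set a : ℝ := (Real.log ((d : ℝ) + 1) - 1) / d.factorial with ha
  set b : ℝ := (d * (Real.log d - 1) + Real.log (d + 1)) / ((d + 1).factorial : ℝ) with hb
  have hb2 : b ≤ 2 * lam := by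
    have h1 : (d * (Real.log d - 1) + Real.log (d + 1)) / (2 * (d + 1).factorial : ℝ) = b / 2 := by
      rw [hb]; field_simp
    rw [h1] at hK
    linarith
  have hd0 : (0 : ℝ) < d := by
    have : 0 < d := by omega
    exact_mod_cast this
  -- limits
  have hL : Tendsto (fun n : ℕ => Real.log n - Real.log ((n : ℝ) - d - 1)) atTop (𝓝 0) := by
    have h1 : Tendsto (fun n : ℕ => ((n : ℝ) - d - 1) / n) atTop (𝓝 1) := by
      have h2 : Tendsto (fun n : ℕ => (1 : ℝ) - (d + 1) * (1 / (n : ℝ))) atTop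
          (𝓝 (1 - (d + 1) * 0)) :=
        tendsto_const_nhds.sub ((tendsto_one_div_atTop_nhds_zero_nat).const_mul _)
      rw [mul_zero, sub_zero] at h2
      refine h2.congr' ?_
      filter_upwards [eventually_ge_atTop 1] with n hn
      have : (0 : ℝ) < n := by exact_mod_cast hn
      field_simp
      ring
    have h3 := ((Real.continuousAt_log (one_ne_zero)).tendsto.comp h1).neg
    rw [Real.log_one, neg_zero] at h3
    refine h3.congr' ?_
    filter_upwards [eventually_ge_atTop (d + 2)] with n hn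
    have h4 : (d : ℝ) + 2 ≤ n := by exact_mod_cast hn
    have h5 : (0 : ℝ) < n := by linarith
    simp only [Function.comp]
    rw [Real.log_div (by linarith) h5.ne']
    ring
  have hR := tendsto_choose_pred d
  have hlogR : Tendsto (fun n : ℕ => Real.log ((n - 1).choose d : ℝ) / (n : ℝ) ^ d) atTop
      (𝓝 0) := by
    have h1 : Tendsto (fun x : ℝ => Real.log x / x) atTop (𝓝 0) := by
      have := Real.isLittleO_log_id_atTop.tendsto_div_nhds_zero
      simpa using this
    have h2 : Tendsto (fun n : ℕ => (n : ℝ) ^ d) atTop atTop :=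
      (tendsto_pow_atTop (by omega)).comp tendsto_natCast_atTop_atTop
    have h3 := h1.comp h2
    refine squeeze_zero' ?_ ?_ h3
    · exact Eventually.of_forall fun n => div_nonneg (Real.log_natCast_nonneg _) (by positivity)
    · filter_upwards [eventually_ge_atTop (d + 1)] with n hn
      have hn0 : (0 : ℝ) < n := by
        have : 0 < n := by omega
        exact_mod_cast this
      simp only [Function.comp]
      refine div_le_div_of_nonneg_right ?_ (by positivity)
      refine Real.log_le_log ?_ ?_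
      · exact_mod_cast Nat.choose_pos (by omega : d ≤ n - 1)
      · have h4 : (n - 1).choose d ≤ (n - 1) ^ d := Nat.choose_le_pow (n - 1) d
        have h5 : (n - 1) ^ d ≤ n ^ d := Nat.pow_le_pow_left (by omega) d
        exact_mod_cast h4.trans h5
  have hone : Tendsto (fun n : ℕ => 1 / (n : ℝ) ^ d) atTop (𝓝 0) := by
    have h2 : Tendsto (fun n : ℕ => (n : ℝ) ^ d) atTop atTop :=
      (tendsto_pow_atTop (by omega)).comp tendsto_natCast_atTop_atTop
    refine (tendsto_inv_atTop_zero.comp h2).congr fun n => ?_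
    simp only [Function.comp, one_div]
  have hE : Tendsto (fun n : ℕ => ((n - 1).choose d : ℝ) / (n : ℝ) ^ d *
      (Real.log n - Real.log ((n : ℝ) - d - 1) + (Real.log ((d : ℝ) + 1) - 1)) +
      Real.log ((n - 1).choose d : ℝ) / (n : ℝ) ^ d + 1 / (n : ℝ) ^ d) atTop
      (𝓝 (1 / d.factorial * (0 + (Real.log ((d : ℝ) + 1) - 1)) + 0 + 0)) :=
    ((hR.mul (hL.add_const _)).add hlogR).add hone
  have hEv : 1 / (d.factorial : ℝ) * (0 + (Real.log ((d : ℝ) + 1) - 1)) + 0 + 0 = a := by
    rw [ha]; ring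
  rw [hEv] at hE
  have hT : Tendsto (fun n : ℕ => 2 * (Real.log (Tmax n d) / (n : ℝ) ^ d)) atTop (𝓝 (2 * lam)) :=
    hlim.const_mul 2
  refine ⟨(b - a) / 2, by linarith, ?_⟩
  have e1 := (tendsto_order.mp hE).2 (a + (b - a) / 4) (by linarith)
  have e2 := (tendsto_order.mp hT).1 (b - (b - a) / 4) (by linarith)
  filter_upwards [e1, e2, eventually_ge_atTop (d + 2)] with n h1 h2 hn
  have hn0 : (0 : ℝ) < n := by
    have : 0 < n := by omega
    exact_mod_cast this
  have hnd : (0 : ℝ) < (n : ℝ) ^ d := by positivity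
  have h3 := logE_le (n := n) (d := d) hn
  have h4 : ((n - 1).choose d : ℝ) / (n : ℝ) ^ d *
      (Real.log n - Real.log ((n : ℝ) - d - 1) + (Real.log ((d : ℝ) + 1) - 1)) +
      Real.log ((n - 1).choose d : ℝ) / (n : ℝ) ^ d + 1 / (n : ℝ) ^ d =
      (((n - 1).choose d : ℝ) *
        (Real.log n - Real.log ((n : ℝ) - d - 1) + Real.log ((d : ℝ) + 1) - 1) +
        Real.log ((n - 1).choose d : ℝ) + 1) / (n : ℝ) ^ d := by
    field_simp
    ring
  rw [h4, div_lt_iff₀ hnd] at h1
  have h5 : b - (b - a) / 4 < 2 * Real.log (Tmax n d) / (n : ℝ) ^ d := by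
    rw [mul_div_assoc]; exact h2
  rw [lt_div_iff₀ hnd] at h5
  nlinarith [h1, h5, h3]

end Pool.Agent.Lib.MP_9701dc_gt.FDA
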