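import Pool.Agent.Lib.MP_9701dc_gt.FD.Defs

set_option autoImplicit false

/-! # `m3` of an inscribed triangle -/

namespace Pool.Agent.Lib.MP_9701dc_gt.FD

open Finset MeasureTheory

theorem ang_int (a b : ℝ) :
    IntervalIntegrable (fun t => Real.log (2 * Real.sin t)) volume a b := by
  have h : MeromorphicOn (fun t : ℝ => 2 * Real.sin t) (Set.uIcc a b) := fun x _ =>
    (analyticAt_const.mul Real.analyticAt_sin).meromorphicAt
  exact MeromorphicOn.intervalIntegrable_log h

theorem Lob_zero : Lob 0 = 0 := by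
  unfold Lob
  rw [intervalIntegral.integral_same, neg_zero]

theorem Lob_continuous : Continuous Lob := by
  have h := intervalIntegral.continuous_primitive (f := fun t => Real.log (2 * Real.sin t))
    (fun a b => ang_int a b) 0
  exact h.neg

theorem Lob_hasDerivAt {x : ℝ} (h0 : 0 < x) (h1 : x < Real.pi) :
    HasDerivAt Lob (-Real.log (2 * Real.sin x)) x := by
  have hs : 0 < Real.sin x := Real.sin_pos_of_pos_of_lt_pi h0 h1
  have hcont : ContinuousAt (fun t => Real.log (2 * Real.sin t)) x := by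
    refine ContinuousAt.log ?_ (by positivity)
    exact (continuous_const.mul Real.continuous_sin).continuousAt
  have hmeas : StronglyMeasurableAtFilter (fun t => Real.log (2 * Real.sin t)) (nhds x) := by
    have : Measurable (fun t => Real.log (2 * Real.sin t)) :=
      Real.measurable_log.comp (measurable_const.mul Real.measurable_sin)
    exact this.stronglyMeasurable.stronglyMeasurableAtFilter
  have h := intervalIntegral.integral_hasDerivAt_right (ang_int 0 x) hmeas hcont
  exact h.neg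

theorem Lob_pi : Lob Real.pi = 0 := by
  unfold Lob
  have h1 : ∫ t in (0 : ℝ)..Real.pi, Real.log (2 * Real.sin t) =
      ∫ t in (0 : ℝ)..Real.pi, (Real.log 2 + Real.log (Real.sin t)) := by
    apply intervalIntegral.integral_congr_ae
    have h2 : ∀ᵐ x : ℝ, x ≠ Real.pi := by simp [ae_iff]
    filter_upwards [h2] with x hx hx'
    rw [Set.uIoc_of_le Real.pi_pos.le] at hx'
    have hs : 0 < Real.sin x := Real.sin_pos_of_pos_of_lt_pi hx'.1 (lt_of_le_of_ne hx'.2 hx)
    rw [Real.log_mul (by norm_num) hs.ne']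
  have hls : IntervalIntegrable (fun t => Real.log (Real.sin t)) volume 0 Real.pi :=
    intervalIntegrable_log_sin
  rw [h1, intervalIntegral.integral_add (by simp) hls,
    integral_log_sin_zero_pi]
  simp only [intervalIntegral.integral_const, smul_eq_mul]
  ring

theorem Lob_sub (x : ℝ) : Lob (Real.pi - x) = -Lob x := by
  have h1 : ∫ t in (0 : ℝ)..x, Real.log (2 * Real.sin t) =
      ∫ t in (Real.pi - x)..Real.pi, Real.log (2 * Real.sin t) := by
    have h2 := intervalIntegral.integral_comp_sub_left (a := 0) (b := x)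
      (fun t => Real.log (2 * Real.sin t)) Real.pi
    rw [sub_zero] at h2
    rw [← h2]
    refine intervalIntegral.integral_congr fun t _ => ?_
    simp only [Real.sin_pi_sub]
  have h3 := intervalIntegral.integral_add_adjacent_intervals (ang_int 0 (Real.pi - x))
    (ang_int (Real.pi - x) Real.pi)
  have h4 := Lob_pi
  unfold Lob at h4 ⊢
  linarith

section
variable {p q : ℝ}

theorem rr_arg_pos (hp : 0 < p) (hq : 0 < q) {φ : ℝ} (h0 : 0 ≤ φ) (h1 : φ < Real.pi) :
    0 < p ^ 2 + q ^ 2 + 2 * p * q * Real.cos φ := by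
  have hc : -1 < Real.cos φ := by
    have := Real.cos_lt_cos_of_nonneg_of_le_pi h0 (le_refl Real.pi) h1
    rwa [Real.cos_pi] at this
  nlinarith [sq_nonneg (p - q), mul_pos hp hq]

theorem rr_pos (hp : 0 < p) (hq : 0 < q) {φ : ℝ} (h0 : 0 ≤ φ) (h1 : φ < Real.pi) :
    0 < rr p q φ := Real.sqrt_pos.2 (rr_arg_pos hp hq h0 h1)

theorem rr_sq (hp : 0 < p) (hq : 0 < q) {φ : ℝ} (h0 : 0 ≤ φ) (h1 : φ < Real.pi) :
    rr p q φ ^ 2 = p ^ 2 + q ^ 2 + 2 * p * q * Real.cos φ :=
  Real.sq_sqrt (rr_arg_pos hp hq h0 h1).le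

theorem rr_continuous (p q : ℝ) : Continuous (rr p q) := by
  unfold rr
  exact Real.continuous_sqrt.comp (continuous_const.add (continuous_const.mul Real.continuous_cos))

/-- the angle opposite to `q` -/
noncomputable def be (p q φ : ℝ) : ℝ := Real.arccos ((p + q * Real.cos φ) / rr p q φ)

theorem be_sq (hp : 0 < p) (hq : 0 < q) {φ : ℝ} (h0 : 0 ≤ φ) (h1 : φ < Real.pi) :
    ((p + q * Real.cos φ) / rr p q φ) ^ 2 + (q * Real.sin φ / rr p q φ) ^ 2 = 1 := by
  have h := rr_pos hp hq h0 h1
  have h2 := rr_sq hp hq h0 h1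
  rw [div_pow, div_pow, ← add_div, div_eq_one_iff_eq (by positivity), h2]
  nlinarith [Real.sin_sq_add_cos_sq φ]

theorem be_bounds (hp : 0 < p) (hq : 0 < q) {φ : ℝ} (h0 : 0 ≤ φ) (h1 : φ < Real.pi) :
    -1 ≤ (p + q * Real.cos φ) / rr p q φ ∧ (p + q * Real.cos φ) / rr p q φ ≤ 1 := by
  have h := be_sq hp hq h0 h1
  have h2 : ((p + q * Real.cos φ) / rr p q φ) ^ 2 ≤ 1 := by
    nlinarith [sq_nonneg (q * Real.sin φ / rr p q φ)]
  exact abs_le.1 (by rwa [sq_le_one_iff_abs_le_one] at h2)

theorem cos_be (hp : 0 < p) (hq : 0 < q) {φ : ℝ} (h0 : 0 ≤ φ) (h1 : φ < Real.pi) :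
    Real.cos (be p q φ) = (p + q * Real.cos φ) / rr p q φ := by
  have h := be_bounds hp hq h0 h1
  exact Real.cos_arccos h.1 h.2

theorem sin_be (hp : 0 < p) (hq : 0 < q) {φ : ℝ} (h0 : 0 ≤ φ) (h1 : φ < Real.pi) :
    Real.sin (be p q φ) = q * Real.sin φ / rr p q φ := by
  unfold be
  rw [Real.sin_arccos]
  have h := be_sq hp hq h0 h1
  have h2 : 1 - ((p + q * Real.cos φ) / rr p q φ) ^ 2 = (q * Real.sin φ / rr p q φ) ^ 2 := by
    linarith
  rw [h2, Real.sqrt_sq]
  have hs := Real.sin_nonneg_of_nonneg_of_le_pi h0 h1.le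
  have := (rr_pos hp hq h0 h1).le
  positivity

theorem be_pos (hp : 0 < p) (hq : 0 < q) {φ : ℝ} (h0 : 0 < φ) (h1 : φ < Real.pi) :
    0 < be p q φ ∧ be p q φ < Real.pi := by
  have hs := Real.sin_pos_of_pos_of_lt_pi h0 h1
  have hr := rr_pos hp hq h0.le h1
  have h := sin_be hp hq h0.le h1
  have h2 : 0 < Real.sin (be p q φ) := by rw [h]; positivity
  constructor
  · rcases (Real.arccos_nonneg ((p + q * Real.cos φ) / rr p q φ)).lt_or_eq with h3 | h3
    · exact h3
    · exfalso
      have h4 : be p q φ = 0 := h3.symm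
      rw [h4, Real.sin_zero] at h2
      exact lt_irrefl _ h2
  · rcases (Real.arccos_le_pi ((p + q * Real.cos φ) / rr p q φ)).lt_or_eq with h3 | h3
    · exact h3
    · exfalso
      have h4 : be p q φ = Real.pi := h3
      rw [h4, Real.sin_pi] at h2
      exact lt_irrefl _ h2

theorem sin_al (hp : 0 < p) (hq : 0 < q) {φ : ℝ} (h0 : 0 ≤ φ) (h1 : φ < Real.pi) :
    Real.sin (φ - be p q φ) = p * Real.sin φ / rr p q φ := by
  rw [Real.sin_sub, cos_be hp hq h0 h1, sin_be hp hq h0 h1]
  have hr := rr_pos hp hq h0 h1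
  field_simp
  ring

theorem al_pos (hp : 0 < p) (hq : 0 < q) {φ : ℝ} (h0 : 0 < φ) (h1 : φ < Real.pi) :
    0 < φ - be p q φ ∧ φ - be p q φ < Real.pi := by
  have hs := Real.sin_pos_of_pos_of_lt_pi h0 h1
  have hr := rr_pos hp hq h0.le h1
  have hb := be_pos hp hq h0 h1
  have h2 : 0 < Real.sin (φ - be p q φ) := by rw [sin_al hp hq h0.le h1]; positivity
  refine ⟨?_, by linarith⟩
  by_contra hcon
  push Not at hcon
  have h3 := Real.sin_nonpos_of_nonpos_of_neg_pi_le hcon (by linarith)
  linarith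

theorem be_differentiableAt (hp : 0 < p) (hq : 0 < q) {φ : ℝ} (h0 : 0 < φ) (h1 : φ < Real.pi) :
    DifferentiableAt ℝ (be p q) φ := by
  have hr := rr_pos hp hq h0.le h1
  have hs := Real.sin_pos_of_pos_of_lt_pi h0 h1
  have harg := rr_arg_pos hp hq h0.le h1
  have h := be_sq hp hq h0.le h1
  have h2 : 0 < (q * Real.sin φ / rr p q φ) ^ 2 := by positivity
  have hne1 : (p + q * Real.cos φ) / rr p q φ ≠ -1 := by
    intro h3
    rw [h3] at h
    nlinarith
  have hne2 : (p + q * Real.cos φ) / rr p q φ ≠ 1 := by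
    intro h3
    rw [h3] at h
    nlinarith
  have hd1 : DifferentiableAt ℝ (rr p q) φ := by
    unfold rr
    refine DifferentiableAt.sqrt ?_ harg.ne'
    exact (differentiableAt_const _).add ((differentiableAt_const _).mul
      Real.differentiable_cos.differentiableAt)
  have hd2 : DifferentiableAt ℝ (fun φ => (p + q * Real.cos φ) / rr p q φ) φ := by
    refine DifferentiableAt.div ?_ hd1 hr.ne'
    exact (differentiableAt_const _).add ((differentiableAt_const _).mul
      Real.differentiable_cos.differentiableAt)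
  exact ((Real.hasDerivAt_arccos hne1 hne2).differentiableAt).comp φ hd2

/-- the primitive of `log rr` -/
noncomputable def prim (p q φ : ℝ) : ℝ :=
  -Lob φ + (φ - be p q φ) * Real.log p + be p q φ * Real.log q + Lob (φ - be p q φ) +
    Lob (be p q φ)

theorem prim_hasDerivAt (hp : 0 < p) (hq : 0 < q) {φ : ℝ} (h0 : 0 < φ) (h1 : φ < Real.pi) :
    HasDerivAt (prim p q) (Real.log (rr p q φ)) φ := by
  have hr := rr_pos hp hq h0.le h1
  have hs := Real.sin_pos_of_pos_of_lt_pi h0 h1
  have hb := be_pos hp hq h0 h1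
  have ha := al_pos hp hq h0 h1
  obtain ⟨D, hD⟩ : ∃ D, HasDerivAt (be p q) D φ :=
    ⟨_, (be_differentiableAt hp hq h0 h1).hasDerivAt⟩
  have hA : HasDerivAt (fun φ => φ - be p q φ) (1 - D) φ := (hasDerivAt_id φ).sub hD
  have e1 := (Lob_hasDerivAt h0 h1).neg
  have e2 := hA.mul_const (Real.log p)
  have e3 := hD.mul_const (Real.log q)
  have e4 := (Lob_hasDerivAt ha.1 ha.2).comp φ hA
  have e5 := (Lob_hasDerivAt hb.1 hb.2).comp φ hD
  have e := (((e1.add e2).add e3).add e4).add e5
  have hfun : prim p q = ((((-Lob + fun y => (y - be p q y) * Real.log p) +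
      fun y => be p q y * Real.log q) + (Lob ∘ fun φ => φ - be p q φ)) + (Lob ∘ be p q)) := by
    funext y
    rfl
  have hval : - -Real.log (2 * Real.sin φ) + (1 - D) * Real.log p + D * Real.log q +
      -Real.log (2 * Real.sin (φ - be p q φ)) * (1 - D) +
      -Real.log (2 * Real.sin (be p q φ)) * D = Real.log (rr p q φ) := by
    have l1 : Real.log (2 * Real.sin (φ - be p q φ)) =
        Real.log (2 * Real.sin φ) + Real.log p - Real.log (rr p q φ) := by
      rw [sin_al hp hq h0.le h1, ← Real.log_mul (by positivity) hp.ne',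
        ← Real.log_div (by positivity) hr.ne']
      congr 1
      ring
    have l2 : Real.log (2 * Real.sin (be p q φ)) =
        Real.log (2 * Real.sin φ) + Real.log q - Real.log (rr p q φ) := by
      rw [sin_be hp hq h0.le h1, ← Real.log_mul (by positivity) hq.ne',
        ← Real.log_div (by positivity) hr.ne']
      congr 1
      ring
    rw [l1, l2]
    ring
  rw [hfun, ← hval]
  exact e

theorem be_continuousOn (hp : 0 < p) (hq : 0 < q) {ψ : ℝ} (h1 : ψ < Real.pi) :
    ContinuousOn (be p q) (Set.Icc 0 ψ) := by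
  refine Real.continuous_arccos.comp_continuousOn ?_
  refine ContinuousOn.div ?_ (rr_continuous p q).continuousOn ?_
  · exact (continuous_const.add (continuous_const.mul Real.continuous_cos)).continuousOn
  · intro φ hφ
    exact (rr_pos hp hq hφ.1 (hφ.2.trans_lt h1)).ne'

theorem integral_log_rr (hp : 0 < p) (hq : 0 < q) {ψ : ℝ} (h0 : 0 ≤ ψ) (h1 : ψ < Real.pi) :
    ∫ φ in (0 : ℝ)..ψ, Real.log (rr p q φ) = prim p q ψ := by
  have hbe := be_continuousOn hp hq h1
  have hcont : ContinuousOn (prim p q) (Set.Icc 0 ψ) := by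
    unfold prim
    refine ContinuousOn.add (ContinuousOn.add (ContinuousOn.add (ContinuousOn.add ?_ ?_) ?_) ?_) ?_
    · exact Lob_continuous.neg.continuousOn
    · exact (continuousOn_id.sub hbe).mul continuousOn_const
    · exact hbe.mul continuousOn_const
    · exact Lob_continuous.comp_continuousOn (continuousOn_id.sub hbe)
    · exact Lob_continuous.comp_continuousOn hbe
  have hint : IntervalIntegrable (fun φ => Real.log (rr p q φ)) volume 0 ψ := by
    apply ContinuousOn.intervalIntegrable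
    rw [Set.uIcc_of_le h0]
    refine ContinuousOn.log (rr_continuous p q).continuousOn ?_
    intro φ hφ
    exact (rr_pos hp hq hφ.1 (hφ.2.trans_lt h1)).ne'
  have h := intervalIntegral.integral_eq_sub_of_hasDerivAt_of_le h0 hcont
    (fun x hx => prim_hasDerivAt hp hq hx.1 (hx.2.trans h1)) hint
  rw [h]
  have hr0 : rr p q 0 = p + q := by
    unfold rr
    rw [Real.cos_zero]
    have : p ^ 2 + q ^ 2 + 2 * p * q * 1 = (p + q) ^ 2 := by ring
    rw [this, Real.sqrt_sq (by positivity)]
  have hb0 : be p q 0 = 0 := by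
    unfold be
    rw [hr0, Real.cos_zero, mul_one, div_self (by positivity), Real.arccos_one]
  have hp0 : prim p q 0 = 0 := by
    unfold prim
    rw [hb0, sub_zero, Lob_zero]
    ring
  rw [hp0, sub_zero]

end

/-- FD18 Angle.lean -/
theorem m3_eq {a b : ℝ} (ha : 0 < a) (hb : 0 < b) (hab : a + b < Real.pi) :
    m3 (2 * Real.sin a) (2 * Real.sin b) (2 * Real.sin (a + b)) =
      (gg a + gg b + gg (Real.pi - a - b)) / Real.pi := by
  have hsa : 0 < Real.sin a := Real.sin_pos_of_pos_of_lt_pi ha (by linarith)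
  have hsb : 0 < Real.sin b := Real.sin_pos_of_pos_of_lt_pi hb (by linarith)
  have hsab : 0 < Real.sin (a + b) := Real.sin_pos_of_pos_of_lt_pi (by linarith) hab
  obtain ⟨p, hp⟩ : ∃ p, p = 2 * Real.sin a := ⟨_, rfl⟩
  obtain ⟨q, hq⟩ : ∃ q, q = 2 * Real.sin b := ⟨_, rfl⟩
  obtain ⟨r, hr⟩ : ∃ r, r = 2 * Real.sin (a + b) := ⟨_, rfl⟩
  have hp0 : 0 < p := by rw [hp]; positivity
  have hq0 : 0 < q := by rw [hq]; positivity
  have hr0 : 0 < r := by rw [hr]; positivity
  have hrr : rr p q (a + b) = r := by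
    unfold rr
    rw [hp, hq, hr]
    have h1 : (2 * Real.sin a) ^ 2 + (2 * Real.sin b) ^ 2 +
        2 * (2 * Real.sin a) * (2 * Real.sin b) * Real.cos (a + b) =
        (2 * Real.sin (a + b)) ^ 2 := by
      rw [Real.cos_add, Real.sin_add]
      have e1 := Real.sin_sq_add_cos_sq a
      have e2 := Real.sin_sq_add_cos_sq b
      have f1 : Real.cos a ^ 2 = 1 - Real.sin a ^ 2 := by linarith
      have f2 : Real.cos b ^ 2 = 1 - Real.sin b ^ 2 := by linarith
      have g1 : (2 * (Real.sin a * Real.cos b + Real.cos a * Real.sin b)) ^ 2 =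
          4 * (Real.sin a ^ 2 * Real.cos b ^ 2 + Real.cos a ^ 2 * Real.sin b ^ 2 +
            2 * Real.sin a * Real.sin b * (Real.cos a * Real.cos b)) := by ring
      rw [g1, f1, f2]
      ring
    rw [h1, Real.sqrt_sq (by positivity)]
  have hbe : be p q (a + b) = b := by
    unfold be
    rw [hrr, hp, hq, hr]
    have h1 : (2 * Real.sin a + 2 * Real.sin b * Real.cos (a + b)) / (2 * Real.sin (a + b)) =
        Real.cos b := by
      rw [div_eq_iff (by positivity)]
      have h2 : Real.sin a = Real.sin (a + b) * Real.cos b - Real.cos (a + b) * Real.sin b := by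
        rw [← Real.sin_sub]
        congr 1
        ring
      rw [h2]
      ring
    rw [h1, Real.arccos_cos hb.le (by linarith)]
  have hmain := integral_log_rr hp0 hq0 (ψ := a + b) (by linarith) hab
  have hmax1 : ∀ φ, 0 ≤ φ → φ ≤ a + b → max r (rr p q φ) = rr p q φ := by
    intro φ h0 h1
    apply max_eq_right
    rw [← hrr]
    unfold rr
    apply Real.sqrt_le_sqrt
    have hc : Real.cos (a + b) ≤ Real.cos φ :=
      Real.cos_le_cos_of_nonneg_of_le_pi h0 hab.le h1
    nlinarith [mul_pos hp0 hq0]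
  have hmax2 : ∀ φ, a + b ≤ φ → φ ≤ Real.pi → max r (rr p q φ) = r := by
    intro φ h0 h1
    apply max_eq_left
    rw [← hrr]
    unfold rr
    apply Real.sqrt_le_sqrt
    have hc : Real.cos φ ≤ Real.cos (a + b) :=
      Real.cos_le_cos_of_nonneg_of_le_pi (by linarith) h1 h0
    nlinarith [mul_pos hp0 hq0]
  have hcont : Continuous (fun φ => Real.log (max r (rr p q φ))) := by
    refine Continuous.log (continuous_const.max (rr_continuous p q)) ?_
    intro φ
    exact (lt_of_lt_of_le hr0 (le_max_left _ _)).ne'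
  have hsplit := intervalIntegral.integral_add_adjacent_intervals (μ := volume)
    (hcont.intervalIntegrable 0 (a + b)) (hcont.intervalIntegrable (a + b) Real.pi)
  have hI1 : ∫ φ in (0 : ℝ)..(a + b), Real.log (max r (rr p q φ)) =
      ∫ φ in (0 : ℝ)..(a + b), Real.log (rr p q φ) := by
    refine intervalIntegral.integral_congr fun φ hφ => ?_
    rw [Set.uIcc_of_le (by linarith)] at hφ
    simp only [hmax1 φ hφ.1 hφ.2]
  have hI2 : ∫ φ in (a + b)..Real.pi, Real.log (max r (rr p q φ)) =
      (Real.pi - (a + b)) * Real.log r := by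
    have : ∫ φ in (a + b)..Real.pi, Real.log (max r (rr p q φ)) =
        ∫ _φ in (a + b)..Real.pi, Real.log r := by
      refine intervalIntegral.integral_congr fun φ hφ => ?_
      rw [Set.uIcc_of_le hab.le] at hφ
      simp only [hmax2 φ hφ.1 hφ.2]
    rw [this, intervalIntegral.integral_const, smul_eq_mul]
  unfold m3
  rw [← hp, ← hq, ← hr, ← hsplit, hI1, hI2, hmain]
  congr 1
  unfold prim gg
  rw [hbe]
  have e1 : a + b - b = a := by ring
  have e2 : Real.pi - a - b = Real.pi - (a + b) := by ring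
  rw [e1, e2, Lob_sub, Real.sin_pi_sub, ← hp, ← hq, ← hr]
  ring

end Pool.Agent.Lib.MP_9701dc_gt.FD
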