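import Pool.Agent.Lib.MP_9701dc_gt.FD.Angle

set_option autoImplicit false

/-! # The average of `gg` over the triangle -/

namespace Pool.Agent.Lib.MP_9701dc_gt.FD

open Finset MeasureTheory

theorem gg_int (a b : ℝ) : IntervalIntegrable gg volume a b := by
  have h1 : IntervalIntegrable (fun x => x * Real.log (2 * Real.sin x)) volume a b :=
    (ang_int a b).continuousOn_mul continuousOn_id
  have h2 : IntervalIntegrable Lob volume a b := Lob_continuous.intervalIntegrable a b
  exact h1.add h2

theorem gg_continuousAt {x : ℝ} (h0 : 0 < x) (h1 : x < Real.pi) : ContinuousAt gg x := by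
  have hs : 0 < Real.sin x := Real.sin_pos_of_pos_of_lt_pi h0 h1
  unfold gg
  refine ContinuousAt.add ?_ Lob_continuous.continuousAt
  refine continuousAt_id.mul (ContinuousAt.log ?_ (by positivity))
  exact (continuous_const.mul Real.continuous_sin).continuousAt

theorem gg_measurable : Measurable gg := by
  unfold gg
  exact (measurable_id.mul (Real.measurable_log.comp
    (measurable_const.mul Real.measurable_sin))).add Lob_continuous.measurable

/-- the primitive of `gg` -/
noncomputable def G1 (x : ℝ) : ℝ := ∫ t in (0 : ℝ)..x, gg t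

theorem G1_continuous : Continuous G1 :=
  intervalIntegral.continuous_primitive (fun a b => gg_int a b) 0

theorem G1_hasDerivAt {x : ℝ} (h0 : 0 < x) (h1 : x < Real.pi) : HasDerivAt G1 (gg x) x :=
  intervalIntegral.integral_hasDerivAt_right (gg_int 0 x)
    gg_measurable.stronglyMeasurable.stronglyMeasurableAtFilter (gg_continuousAt h0 h1)

theorem ggw_int (a b : ℝ) : IntervalIntegrable (fun x => (Real.pi - x) * gg x) volume a b :=
  (gg_int a b).continuousOn_mul (continuous_const.sub continuous_id).continuousOn

theorem integral_G1 : ∫ x in (0 : ℝ)..Real.pi, G1 x =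
    ∫ x in (0 : ℝ)..Real.pi, (Real.pi - x) * gg x := by
  have hcont : ContinuousOn (fun x => (Real.pi - x) * G1 x) (Set.Icc 0 Real.pi) :=
    ((continuous_const.sub continuous_id).mul G1_continuous).continuousOn
  have hderiv : ∀ x ∈ Set.Ioo (0 : ℝ) Real.pi, HasDerivAt (fun x => (Real.pi - x) * G1 x)
      ((Real.pi - x) * gg x - G1 x) x := by
    intro x hx
    have h1 : HasDerivAt (fun x => Real.pi - x) (0 - 1) x :=
      (hasDerivAt_const x Real.pi).sub (hasDerivAt_id x)
    have h2 := h1.mul (G1_hasDerivAt hx.1 hx.2)
    have h3 : (0 - 1) * G1 x + (Real.pi - x) * gg x = (Real.pi - x) * gg x - G1 x := by ring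
    rw [h3] at h2
    exact h2
  have hGi : IntervalIntegrable G1 volume 0 Real.pi := G1_continuous.intervalIntegrable _ _
  have h := intervalIntegral.integral_eq_sub_of_hasDerivAt_of_le Real.pi_pos.le hcont hderiv
    ((ggw_int 0 Real.pi).sub hGi)
  rw [intervalIntegral.integral_sub (ggw_int 0 Real.pi) hGi] at h
  have h4 : G1 0 = 0 := by
    unfold G1
    rw [intervalIntegral.integral_same]
  rw [h4] at h
  simp only [sub_self, zero_mul, mul_zero] at h
  linarith

/-- FD19 Average.lean -/
theorem average_gg : ∫ a in (0 : ℝ)..Real.pi, ∫ b in (0 : ℝ)..(Real.pi - a),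
    (gg a + gg b + gg (Real.pi - a - b)) = 3 * ∫ a in (0 : ℝ)..Real.pi, (Real.pi - a) * gg a := by
  have hinner : ∀ a : ℝ, ∫ b in (0 : ℝ)..(Real.pi - a), (gg a + gg b + gg (Real.pi - a - b)) =
      (Real.pi - a) * gg a + 2 * G1 (Real.pi - a) := by
    intro a
    have hc : IntervalIntegrable (fun b => gg (Real.pi - a - b)) volume 0 (Real.pi - a) := by
      have := (gg_int (Real.pi - a - 0) (Real.pi - a - (Real.pi - a))).comp_sub_left
        (Real.pi - a)
      simpa using this
    have hk : IntervalIntegrable (fun _ : ℝ => gg a) volume 0 (Real.pi - a) := by simp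
    rw [intervalIntegral.integral_add (hk.add (gg_int _ _)) hc,
      intervalIntegral.integral_add hk (gg_int _ _),
      intervalIntegral.integral_const,
      intervalIntegral.integral_comp_sub_left gg (Real.pi - a)]
    unfold G1
    simp only [sub_self, sub_zero, smul_eq_mul]
    ring
  simp only [hinner]
  have hG : IntervalIntegrable (fun a => 2 * G1 (Real.pi - a)) volume 0 Real.pi := by
    apply Continuous.intervalIntegrable
    exact continuous_const.mul (G1_continuous.comp (continuous_const.sub continuous_id))
  rw [intervalIntegral.integral_add (ggw_int 0 Real.pi) hG, intervalIntegral.integral_const_mul,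
    intervalIntegral.integral_comp_sub_left G1 Real.pi]
  simp only [sub_self, sub_zero]
  rw [integral_G1]
  ring

end Pool.Agent.Lib.MP_9701dc_gt.FD
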