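import Mathlib

set_option autoImplicit false

/-! # `log` of a binomial coefficient between consecutive powers -/

namespace Pool.Agent.Lib.MP_9701dc_gt.FD

open Finset MeasureTheory Filter Topology

theorem binom_small (K k : ℕ) :
    Tendsto (fun L : ℕ => Real.log (((k * (L + 1) ^ K).choose (k * L ^ K) : ℕ) : ℝ) /
      ((L : ℝ) + 1) ^ K) atTop (𝓝 0) := by
  rcases Nat.eq_zero_or_pos k with hk | hk
  · subst hk
    simp
  have hL : Tendsto (fun L : ℕ => (L : ℝ) + 1) atTop atTop :=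
    tendsto_atTop_add_const_right _ _ tendsto_natCast_atTop_atTop
  have h1 : Tendsto (fun L : ℕ => Real.log ((L : ℝ) + 1) / ((L : ℝ) + 1)) atTop (𝓝 0) :=
    (Real.isLittleO_log_id_atTop.tendsto_div_nhds_zero).comp hL
  have h2 : Tendsto (fun L : ℕ => ((L : ℝ) + 1)⁻¹) atTop (𝓝 0) := tendsto_inv_atTop_zero.comp hL
  have h3 : Tendsto (fun L : ℕ => (k * K : ℝ) * (Real.log k * ((L : ℝ) + 1)⁻¹ +
      K * (Real.log ((L : ℝ) + 1) / ((L : ℝ) + 1)))) atTop (𝓝 0) := by
    have := ((h2.const_mul (Real.log k)).add (h1.const_mul (K : ℝ))).const_mul (k * K : ℝ)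
    simpa using this
  refine squeeze_zero (fun L => ?_) (fun L => ?_) h3
  · exact div_nonneg (Real.log_natCast_nonneg _) (by positivity)
  · have hk' : (1 : ℝ) ≤ k := by exact_mod_cast hk
    have hL0 : (0 : ℝ) < (L : ℝ) + 1 := by positivity
    have hmn : k * L ^ K ≤ k * (L + 1) ^ K :=
      Nat.mul_le_mul_left k (Nat.pow_le_pow_left (Nat.le_succ L) K)
    have hpos : 0 < (k * (L + 1) ^ K).choose (k * L ^ K) := Nat.choose_pos hmn
    have hle : (k * (L + 1) ^ K).choose (k * L ^ K) ≤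
        (k * (L + 1) ^ K) ^ (k * (L + 1) ^ K - k * L ^ K) := by
      rw [← Nat.choose_symm hmn]
      exact Nat.choose_le_pow _ _
    have hlog : Real.log (((k * (L + 1) ^ K).choose (k * L ^ K) : ℕ) : ℝ) ≤
        ((k * (L + 1) ^ K - k * L ^ K : ℕ) : ℝ) * Real.log (((k * (L + 1) ^ K : ℕ) : ℝ)) := by
      rw [← Real.log_pow]
      apply Real.log_le_log (by exact_mod_cast hpos)
      exact_mod_cast hle
    have ht : ((k * (L + 1) ^ K - k * L ^ K : ℕ) : ℝ) ≤
        (k * K : ℝ) * (((L : ℝ) + 1) ^ K * ((L : ℝ) + 1)⁻¹) := by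
      rw [Nat.cast_sub hmn]
      push_cast
      have hb : 1 + (K : ℝ) * (-((L : ℝ) + 1)⁻¹) ≤ (1 + -((L : ℝ) + 1)⁻¹) ^ K := by
        apply one_add_mul_le_pow
        have : ((L : ℝ) + 1)⁻¹ ≤ 1 := inv_le_one_of_one_le₀ (by linarith [L.cast_nonneg (α := ℝ)])
        linarith
      have hc : ((L : ℝ) + 1) * (1 + -((L : ℝ) + 1)⁻¹) = L := by
        field_simp
        ring
      have hd : (L : ℝ) ^ K = ((L : ℝ) + 1) ^ K * (1 + -((L : ℝ) + 1)⁻¹) ^ K := by
        rw [← mul_pow, hc]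
      have he : ((L : ℝ) + 1) ^ K * (1 + (K : ℝ) * (-((L : ℝ) + 1)⁻¹)) ≤ (L : ℝ) ^ K := by
        rw [hd]
        exact mul_le_mul_of_nonneg_left hb (by positivity)
      nlinarith
    have hln : Real.log (((k * (L + 1) ^ K : ℕ) : ℝ)) =
        Real.log k + K * Real.log ((L : ℝ) + 1) := by
      push_cast
      rw [Real.log_mul (by positivity) (by positivity), Real.log_pow]
    have hln0 : 0 ≤ Real.log k + K * Real.log ((L : ℝ) + 1) := by
      rw [← hln]; exact Real.log_natCast_nonneg _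
    rw [div_le_iff₀ (by positivity)]
    calc Real.log (((k * (L + 1) ^ K).choose (k * L ^ K) : ℕ) : ℝ)
        ≤ ((k * (L + 1) ^ K - k * L ^ K : ℕ) : ℝ) * Real.log (((k * (L + 1) ^ K : ℕ) : ℝ)) := hlog
      _ ≤ ((k * K : ℝ) * (((L : ℝ) + 1) ^ K * ((L : ℝ) + 1)⁻¹)) *
          (Real.log k + K * Real.log ((L : ℝ) + 1)) := by
        rw [hln]
        exact mul_le_mul_of_nonneg_right ht hln0
      _ = _ := by
        rw [div_eq_mul_inv]
        ring

end Pool.Agent.Lib.MP_9701dc_gt.FD
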