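import Pool.Agent.Lib.MP_9701dc_gt.FD.Faces

set_option autoImplicit false
set_option linter.unusedSectionVars false

/-!
# Counting the blocks

There are at least `(P^d - (d+1)^2 P^(d-1)) / (d+1)!` subsets of `ℤ/P` with `d+1` elements and
sum zero.
-/

namespace Pool.Agent.Lib.MP_9701dc_gt.FDA

open Finset Pool.Agent.Lib.MP_9701dc_gt

variable {P d : ℕ}

/-- the type of blocks -/
abbrev Blk (P d : ℕ) := {a : Fin (d + 1) ↪o Fin P // IsBlk a}

noncomputable instance : Fintype (Blk P d) := Fintype.ofFinite _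

noncomputable instance : DecidableEq (Blk P d) := Classical.decEq _

/-- functions with sum zero -/
def S0 (P d : ℕ) : Finset (Fin (d + 1) → Fin P) :=
  univ.filter fun f => ∑ i, ((f i : ℕ) : ZMod P) = 0

theorem mem_S0 {f : Fin (d + 1) → Fin P} : f ∈ S0 P d ↔ ∑ i, ((f i : ℕ) : ZMod P) = 0 := by
  simp [S0]

theorem fin_cast_inj {u v : Fin P} (h : ((u : ℕ) : ZMod P) = ((v : ℕ) : ZMod P)) : u = v := by
  rw [ZMod.natCast_eq_natCast_iff', Nat.mod_eq_of_lt u.2, Nat.mod_eq_of_lt v.2] at h
  exact Fin.ext h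

theorem card_S0 (hP : 0 < P) : P ^ d ≤ (S0 P d).card := by
  have : NeZero P := ⟨hP.ne'⟩
  let inv : ZMod P → Fin P := fun w => ⟨w.val, ZMod.val_lt w⟩
  have hinv : ∀ w, (((inv w : Fin P) : ℕ) : ZMod P) = w := fun w => ZMod.natCast_zmod_val w
  let F : (Fin d → Fin P) → (Fin (d + 1) → Fin P) := fun g =>
    Fin.snoc (α := fun _ => Fin P) g (inv (-∑ i, ((g i : ℕ) : ZMod P)))
  have h1 : (univ.image F).card = P ^ d := by
    rw [card_image_of_injective]
    · simp
    · intro g g' h
      funext i
      have := congrFun h i.castSucc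
      simpa [F] using this
  rw [← h1]
  apply card_le_card
  intro f hf
  obtain ⟨g, _, rfl⟩ := mem_image.mp hf
  rw [mem_S0, Fin.sum_univ_castSucc]
  simp only [F, Fin.snoc_castSucc, Fin.snoc_last]
  rw [hinv]
  ring

/-- sum zero and a coincidence -/
theorem card_coinc (hd : 2 ≤ d) (i j : Fin (d + 1)) (hij : i ≠ j) :
    ((S0 P d).filter fun f => f i = f j).card ≤ P ^ (d - 1) := by
  obtain ⟨l, hl⟩ : ∃ l : Fin (d + 1), l ∉ ({i, j} : Finset (Fin (d + 1))) := by
    by_contra hc
    push Not at hc
    have h1 : (univ : Finset (Fin (d + 1))) ⊆ {i, j} := fun x _ => hc x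
    have h2 := card_le_card h1
    rw [card_univ, Fintype.card_fin] at h2
    have h3 : ({i, j} : Finset (Fin (d + 1))).card ≤ 2 := card_le_two
    omega
  rw [mem_insert, mem_singleton, not_or] at hl
  let res : (Fin (d + 1) → Fin P) → ({x : Fin (d + 1) // x ∉ ({j, l} : Finset (Fin (d + 1)))} → Fin P) :=
    fun f x => f x.1
  have hinj : Set.InjOn res ((S0 P d).filter fun f => f i = f j) := by
    intro f hf g hg h
    rw [mem_coe, mem_filter, mem_S0] at hf hg
    have h1 : ∀ x, x ≠ j → x ≠ l → f x = g x := by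
      intro x hx1 hx2
      exact congrFun h ⟨x, by rw [mem_insert, mem_singleton, not_or]; exact ⟨hx1, hx2⟩⟩
    have h2 : f j = g j := by
      rw [← hf.2, ← hg.2]
      exact h1 i hij (Ne.symm hl.1)
    have h3 : ∀ x, x ≠ l → f x = g x := by
      intro x hx
      by_cases hxj : x = j
      · rw [hxj]; exact h2
      · exact h1 x hxj hx
    have h4 : f l = g l := by
      apply fin_cast_inj
      have e1 := hf.1
      have e2 := hg.1
      rw [← sum_erase_add univ _ (mem_univ l)] at e1 e2
      have e3 : ∑ x ∈ univ.erase l, ((f x : ℕ) : ZMod P) = ∑ x ∈ univ.erase l, ((g x : ℕ) : ZMod P) :=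
        sum_congr rfl fun x hx => by rw [h3 x (mem_erase.mp hx).1]
      rw [e3] at e1
      exact add_left_cancel (e1.trans e2.symm)
    funext x
    by_cases hx : x = l
    · rw [hx]; exact h4
    · exact h3 x hx
  calc ((S0 P d).filter fun f => f i = f j).card =
        (((S0 P d).filter fun f => f i = f j).image res).card := (card_image_of_injOn hinj).symm
    _ ≤ Fintype.card ({x : Fin (d + 1) // x ∉ ({j, l} : Finset (Fin (d + 1)))} → Fin P) :=
        card_le_univ _
    _ = P ^ (d - 1) := by
        rw [Fintype.card_fun, Fintype.card_fin]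
        congr 1
        have h1 : Fintype.card {x : Fin (d + 1) // x ∉ ({j, l} : Finset (Fin (d + 1)))} =
            Fintype.card (Fin (d + 1)) - ({j, l} : Finset (Fin (d + 1))).card := by
          rw [Fintype.card_subtype_compl, Fintype.card_coe]
        rw [h1, Fintype.card_fin, card_pair (Ne.symm hl.2)]
        omega

/-- injective functions with sum zero -/
def I0 (P d : ℕ) : Finset (Fin (d + 1) → Fin P) := (S0 P d).filter fun f => Function.Injective f

theorem card_I0 (hP : 0 < P) (hd : 2 ≤ d) :
    P ^ d ≤ (I0 P d).card + (d + 1) ^ 2 * P ^ (d - 1) := by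
  have h1 : S0 P d ⊆ I0 P d ∪ (univ ×ˢ univ : Finset (Fin (d + 1) × Fin (d + 1))).biUnion
      fun ij => if ij.1 = ij.2 then ∅ else (S0 P d).filter fun f => f ij.1 = f ij.2 := by
    intro f hf
    rw [mem_union]
    by_cases hinj : Function.Injective f
    · exact Or.inl (mem_filter.mpr ⟨hf, hinj⟩)
    · right
      have : ∃ i j, f i = f j ∧ i ≠ j := by
        by_contra hcon
        push Not at hcon
        exact hinj fun i j hij => hcon i j hij
      obtain ⟨i, j, hij, hne⟩ := this
      rw [mem_biUnion]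
      refine ⟨(i, j), mem_product.mpr ⟨mem_univ _, mem_univ _⟩, ?_⟩
      rw [if_neg hne]
      exact mem_filter.mpr ⟨hf, hij⟩
  calc P ^ d ≤ (S0 P d).card := card_S0 hP
    _ ≤ _ := card_le_card h1
    _ ≤ (I0 P d).card + _ := card_union_le _ _
    _ ≤ (I0 P d).card + (d + 1) ^ 2 * P ^ (d - 1) := by
        refine Nat.add_le_add_left ?_ _
        refine card_biUnion_le.trans ?_
        calc ∑ ij ∈ (univ ×ˢ univ : Finset (Fin (d + 1) × Fin (d + 1))),
              (if ij.1 = ij.2 then ∅ else (S0 P d).filter fun f => f ij.1 = f ij.2).card ≤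
              ∑ _ij ∈ (univ ×ˢ univ : Finset (Fin (d + 1) × Fin (d + 1))), P ^ (d - 1) := by
              refine sum_le_sum fun ij _ => ?_
              by_cases h : ij.1 = ij.2
              · rw [if_pos h, card_empty]; exact Nat.zero_le _
              · rw [if_neg h]
                exact card_coinc hd ij.1 ij.2 h
          _ = (d + 1) ^ 2 * P ^ (d - 1) := by
              rw [sum_const, card_product, card_univ, Fintype.card_fin, smul_eq_mul, sq]

theorem card_I0_le : (I0 P d).card ≤ Fintype.card (Blk P d) * (d + 1).factorial := by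
  classical
  let G : Blk P d × Equiv.Perm (Fin (d + 1)) → (Fin (d + 1) → Fin P) := fun p i => p.1.1 (p.2 i)
  have hcard : Fintype.card (Blk P d × Equiv.Perm (Fin (d + 1))) =
      Fintype.card (Blk P d) * (d + 1).factorial := by
    rw [Fintype.card_prod, Fintype.card_perm, Fintype.card_fin]
  rw [← hcard, ← card_univ]
  refine le_trans (card_le_card ?_) (card_image_le (f := G))
  intro f hf
  rw [I0, mem_filter, mem_S0] at hf
  obtain ⟨hf0, hfi⟩ := hf
  set s : Finset (Fin P) := univ.image f with hs
  have hsc : s.card = d + 1 := by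
    rw [hs, card_image_of_injective _ hfi, card_univ, Fintype.card_fin]
  set a : Fin (d + 1) ↪o Fin P := s.orderEmbOfFin hsc with ha
  have hmem : ∀ i, ∃ j, a j = f i := by
    intro i
    have h1 : f i ∈ s := mem_image_of_mem _ (mem_univ i)
    have h2 : Set.range a = (s : Set (Fin P)) := range_orderEmbOfFin s hsc
    have h3 : f i ∈ Set.range a := by rw [h2]; exact h1
    exact h3
  choose σ hσ using hmem
  have hσi : Function.Injective σ := by
    intro i j hij
    apply hfi
    rw [← hσ, ← hσ, hij]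
  have hσb : Function.Bijective σ := Finite.injective_iff_bijective.mp hσi
  set τ : Equiv.Perm (Fin (d + 1)) := Equiv.ofBijective σ hσb with hτ
  have hab : IsBlk a := by
    unfold IsBlk
    rw [← hf0, ← Equiv.sum_comp τ (fun i => ((a i : ℕ) : ZMod P))]
    refine sum_congr rfl fun i _ => ?_
    have : a (τ i) = f i := hσ i
    rw [this]
  rw [mem_image]
  refine ⟨(⟨a, hab⟩, τ), mem_univ _, ?_⟩
  funext i
  exact hσ i

/-- **The number of blocks.** -/
theorem card_blk (hP : 0 < P) (hd : 2 ≤ d) :
    (P : ℝ) ^ d - (d + 1) ^ 2 * (P : ℝ) ^ (d - 1) ≤ Fintype.card (Blk P d) * (d + 1).factorial := by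
  have h1 := card_I0 hP hd
  have h2 := card_I0_le (P := P) (d := d)
  have h3 : (P : ℝ) ^ d ≤ ((I0 P d).card : ℝ) + (d + 1) ^ 2 * (P : ℝ) ^ (d - 1) := by
    exact_mod_cast h1
  have h4 : ((I0 P d).card : ℝ) ≤ Fintype.card (Blk P d) * (d + 1).factorial := by
    exact_mod_cast h2
  linarith

end Pool.Agent.Lib.MP_9701dc_gt.FDA
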