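import Pool.Agent.Lib.MP_9701dc_gt.FD.Completion
import Pool.Agent.Lib.MP_9701dc_gt.FD.Count

set_option autoImplicit false
set_option linter.unusedSectionVars false

/-!
# The lower bound for the growth constant
-/

namespace Pool.Agent.Lib.MP_9701dc_gt.FDA

open Finset Matrix MeasureTheory Pool.Agent.Lib.MP_9701dc_gt Pool.Agent.Lib.MP_9701dc_gt.GR

variable {P M d L : ℕ}

/-- index of the faces -/
abbrev FIdx (P d L : ℕ) := (Option (Fin d) × (Fin d × Fin d → Fin L)) × Blk P d

theorem card_FIdx : Fintype.card (FIdx P d L) = (d + 1) * L ^ (d * d) * Fintype.card (Blk P d) := by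
  simp only [FIdx, Fintype.card_prod, Fintype.card_option, Fintype.card_fin, Fintype.card_pi,
    prod_const, card_univ]

theorem gram_all [NeZero M] (hLM : L < M) :
    (Matrix.of fun i j : FIdx P d L => (gram (fc (face M i.2.1 i.1.1 i.1.2))
      (fc (face M j.2.1 j.1.1 j.1.2)) : ℝ)) = blockDiagonal fun _ : Blk P d => boxG (mon d) L := by
  ext ⟨⟨κ, x⟩, a⟩ ⟨⟨κ', x'⟩, b⟩
  rw [of_apply, gram_face hLM a.2 b.2, blockDiagonal_apply]
  simp only [Subtype.ext_iff]

theorem finite_bound (hd : 2 ≤ d) [NeZero M] (hL : 1 ≤ L) (hLM : L < M)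
    (hint : Integrable fun θ : Fin d × Fin d → UnitAddCircle => Real.log ‖(sym (mon d) θ).det‖)
    (hne : ∀ᵐ θ : Fin d × Fin d → UnitAddCircle, (sym (mon d) θ).det ≠ 0) :
    Fintype.card (FIdx P d L) ≤ (P * M ^ d).choose d ∧
    (Fintype.card (Blk P d) : ℝ) * ((L : ℝ) ^ (d * d) *
      ∫ θ : Fin d × Fin d → UnitAddCircle, Real.log ‖(sym (mon d) θ).det‖) ≤
      Real.log (((P * M ^ d).choose d).choose (Fintype.card (FIdx P d L))) +
        2 * Real.log (Tmax (P * M ^ d + 1) d) := by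
  obtain ⟨m, rfl⟩ : ∃ m, d = m + 1 := ⟨d - 1, by omega⟩
  obtain ⟨hpos, hle⟩ := szego (mon (m + 1)) hL hint hne
  have hcard : Fintype.card (Fin (m + 1) × Fin (m + 1)) = (m + 1) * (m + 1) := by
    simp
  rw [hcard] at hle
  by_cases hB : Nonempty (Blk P (m + 1))
  · have hne' : Nonempty (FIdx P (m + 1) L) := by
      obtain ⟨b⟩ := hB
      exact ⟨((none, fun _ => ⟨0, hL⟩), b)⟩
    have hdet : (Matrix.of fun i j : FIdx P (m + 1) L => (gram (fc (face M i.2.1 i.1.1 i.1.2))
        (fc (face M j.2.1 j.1.1 j.1.2)) : ℝ)).det =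
        (boxG (mon (m + 1)) L).det ^ Fintype.card (Blk P (m + 1)) := by
      rw [gram_all hLM, det_blockDiagonal, prod_const, card_univ]
    have h := completion (m := m) (n := P * M ^ (m + 1)) (by omega)
      (fun i : FIdx P (m + 1) L => fc (face M i.2.1 i.1.1 i.1.2))
      (fun i => card_fc _) (by rw [hdet]; exact pow_pos hpos _)
    rw [hdet, Real.log_pow] at h
    refine ⟨h.1, le_trans ?_ h.2⟩
    exact mul_le_mul_of_nonneg_left hle (by positivity)
  · rw [not_nonempty_iff] at hB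
    have h0 : Fintype.card (Blk P (m + 1)) = 0 := Fintype.card_eq_zero
    rw [card_FIdx, h0]
    simp only [mul_zero, Nat.cast_zero, zero_mul, Nat.choose_zero_right, Nat.cast_one,
      Real.log_one, zero_add]
    exact ⟨Nat.zero_le _, mul_nonneg zero_le_two (Real.log_natCast_nonneg _)⟩

/-- the estimate for `P = M`, `L = M - 1` -/
theorem step_bound (hd : 2 ≤ d) (hM : 2 ≤ M)
    (hint : Integrable fun θ : Fin d × Fin d → UnitAddCircle => Real.log ‖(sym (mon d) θ).det‖)
    (hne : ∀ᵐ θ : Fin d × Fin d → UnitAddCircle, (sym (mon d) θ).det ≠ 0)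
    {c : ℝ} (hc : c = ∫ θ : Fin d × Fin d → UnitAddCircle, Real.log ‖(sym (mon d) θ).det‖)
    (hc0 : 0 ≤ c) {lam : ℝ} (hlam : ∀ n : ℕ, Real.log (Tmax n d) ≤ lam * (n : ℝ) ^ d) :
    c / (d + 1).factorial * (1 - ((d + 1 : ℝ) ^ 2 + d * d) / M) ≤
      ((d + 1 : ℝ) ^ 2 + d * d) / d.factorial * (d * (d + 1)) * (Real.log M / M) +
        2 * lam * (1 + 1 / (M : ℝ) ^ (d + 1)) ^ d := by
  have hne0 : NeZero M := ⟨by omega⟩
  obtain ⟨L, rfl⟩ : ∃ L, M = L + 1 := ⟨M - 1, by omega⟩
  have hL : 1 ≤ L := by omega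
  obtain ⟨h1, h2⟩ := finite_bound (P := L + 1) (M := L + 1) hd hL (Nat.lt_succ_self L) hint hne
  rw [← hc] at h2
  set M : ℕ := L + 1 with hMdef
  set n : ℕ := M * M ^ d with hn
  set F : ℕ := Fintype.card (FIdx M d L) with hF
  set N : ℕ := n.choose d with hN
  set B : ℕ := Fintype.card (Blk M d) with hB
  have hMr : (0 : ℝ) < M := by positivity
  have hM1 : (1 : ℝ) ≤ M := by
    have : 1 ≤ M := by omega
    exact_mod_cast this
  have hnr : (n : ℝ) = (M : ℝ) ^ (d + 1) := by
    rw [hn]; push_cast; rw [pow_succ]; ring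
  have hnpos : (0 : ℝ) < (n : ℝ) := by rw [hnr]; positivity
  have hnd : (n : ℝ) ^ d = (M : ℝ) ^ d * (M : ℝ) ^ (d * d) := by
    rw [hnr, ← pow_mul, ← pow_add]
    congr 1
    ring
  have hndpos : (0 : ℝ) < (n : ℝ) ^ d := by positivity
  have hfac : (0 : ℝ) < (d.factorial : ℝ) := by positivity
  have hfac' : (0 : ℝ) < ((d + 1).factorial : ℝ) := by positivity
  have hfs : ((d + 1).factorial : ℝ) = (d + 1) * (d.factorial : ℝ) := by
    rw [Nat.factorial_succ]; push_cast; ring
  have hFr : (F : ℝ) = (d + 1) * (L : ℝ) ^ (d * d) * B := by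
    rw [hF, card_FIdx]; push_cast; ring
  have hNle : (N : ℝ) ≤ (n : ℝ) ^ d / d.factorial := Nat.choose_le_pow_div d n
  have hFN : (F : ℝ) ≤ N := by exact_mod_cast h1
  -- the proportion `u`
  set u : ℝ := F * d.factorial / (n : ℝ) ^ d with hu
  have hu1 : u ≤ 1 := by
    rw [hu, div_le_one hndpos]
    have := hFN.trans hNle
    rwa [le_div_iff₀ hfac] at this
  set A : ℝ := (d + 1 : ℝ) ^ 2 + d * d with hA
  have hA0 : 0 ≤ A := by positivity
  have hcount := card_blk (P := M) (d := d) (by omega) hd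
  rw [← hB] at hcount
  have hLM : (L : ℝ) = M - 1 := by rw [hMdef]; push_cast; ring
  have hbern : 1 - (d * d : ℝ) / M ≤ (L : ℝ) ^ (d * d) / (M : ℝ) ^ (d * d) := by
    have h3 := one_add_mul_le_pow (a := -(1 / (M : ℝ))) (by
      have : 1 / (M : ℝ) ≤ 1 := by rw [div_le_one hMr]; exact hM1
      linarith) (d * d)
    have h4 : (L : ℝ) ^ (d * d) / (M : ℝ) ^ (d * d) = (1 + -(1 / (M : ℝ))) ^ (d * d) := by
      rw [← div_pow, hLM]
      congr 1
      field_simp
      ring
    rw [h4]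
    refine le_trans (le_of_eq ?_) h3
    push_cast
    ring
  have hu2 : 1 - A / M ≤ u := by
    have h3 : u = (B * (d + 1).factorial / (M : ℝ) ^ d) * ((L : ℝ) ^ (d * d) / (M : ℝ) ^ (d * d)) := by
      rw [hu, hFr, hnd, hfs]
      field_simp
    have h4 : 1 - (d + 1 : ℝ) ^ 2 / M ≤ B * (d + 1).factorial / (M : ℝ) ^ d := by
      rw [le_div_iff₀ (by positivity)]
      refine le_trans (le_of_eq ?_) hcount
      have h5 : (M : ℝ) ^ d = (M : ℝ) ^ (d - 1) * M := by
        rw [← pow_succ]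
        congr 1
        omega
      rw [sub_mul, one_mul, h5]
      field_simp
    rw [h3]
    have hX0 : (0 : ℝ) ≤ B * (d + 1).factorial / (M : ℝ) ^ d := by positivity
    have hY0 : (0 : ℝ) ≤ (L : ℝ) ^ (d * d) / (M : ℝ) ^ (d * d) := by positivity
    have hY1 : (L : ℝ) ^ (d * d) / (M : ℝ) ^ (d * d) ≤ 1 := by
      rw [div_le_one (by positivity)]
      apply pow_le_pow_left₀ (by positivity)
      rw [hLM]; linarith
    set X : ℝ := B * (d + 1).factorial / (M : ℝ) ^ d
    set Y : ℝ := (L : ℝ) ^ (d * d) / (M : ℝ) ^ (d * d)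
    have h6 : A / M = (d + 1 : ℝ) ^ 2 / M + (d * d : ℝ) / M := by rw [hA]; ring
    rw [h6]
    set a : ℝ := (d + 1 : ℝ) ^ 2 / M with ha
    have ha0 : 0 ≤ a := by positivity
    have h7 : (1 - a) * Y ≤ X * Y := mul_le_mul_of_nonneg_right h4 hY0
    have h8 : 1 - a - (d * d : ℝ) / M ≤ (1 - a) * Y := by
      have : a * Y ≤ a := mul_le_of_le_one_right ha0 hY1
      nlinarith
    linarith
  -- the binomial coefficient
  have hlogN : Real.log N ≤ d * (d + 1) * Real.log M := by
    have h3 : (N : ℝ) ≤ (M : ℝ) ^ ((d + 1) * d) := by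
      calc (N : ℝ) ≤ (n : ℝ) ^ d := by exact_mod_cast Nat.choose_le_pow n d
        _ = (M : ℝ) ^ ((d + 1) * d) := by rw [hnr, ← pow_mul]
    rcases Nat.eq_zero_or_pos N with h0 | h0
    · rw [h0, Nat.cast_zero, Real.log_zero]
      have := Real.log_nonneg hM1
      positivity
    · have h4 := Real.log_le_log (by exact_mod_cast h0) h3
      rw [Real.log_pow] at h4
      push_cast at h4
      linarith
  have hlogM : 0 ≤ Real.log M := Real.log_nonneg hM1
  have hchoose : Real.log ((N.choose F : ℕ) : ℝ) ≤ ((n : ℝ) ^ d / d.factorial) * (1 - u) *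
      (d * (d + 1) * Real.log M) := by
    have h3 : Real.log ((N.choose F : ℕ) : ℝ) ≤ ((N : ℝ) - F) * Real.log N := by
      rw [← Nat.choose_symm h1]
      have h4 : ((N.choose (N - F) : ℕ) : ℝ) ≤ (N : ℝ) ^ (N - F) := by
        exact_mod_cast Nat.choose_le_pow N (N - F)
      have h5 : (0 : ℝ) < ((N.choose (N - F) : ℕ) : ℝ) := by
        exact_mod_cast Nat.choose_pos (Nat.sub_le _ _)
      have h6 := Real.log_le_log h5 h4
      rw [Real.log_pow, Nat.cast_sub h1] at h6
      exact h6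
    have h4 : (N : ℝ) - F ≤ ((n : ℝ) ^ d / d.factorial) * (1 - u) := by
      have : ((n : ℝ) ^ d / d.factorial) * u = F := by
        rw [hu]; field_simp
      rw [mul_sub, mul_one, this]
      linarith
    have h5 : 0 ≤ (N : ℝ) - F := by linarith
    calc Real.log ((N.choose F : ℕ) : ℝ) ≤ ((N : ℝ) - F) * Real.log N := h3
      _ ≤ ((N : ℝ) - F) * (d * (d + 1) * Real.log M) := mul_le_mul_of_nonneg_left hlogN h5
      _ ≤ _ := mul_le_mul_of_nonneg_right h4 (by positivity)
  have hT := hlam (n + 1)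
  have hmain : (B : ℝ) * ((L : ℝ) ^ (d * d) * c) = (n : ℝ) ^ d * (c / (d + 1).factorial * u) := by
    rw [hu, hFr, hfs]
    field_simp
  rw [hmain] at h2
  have hn1 : (((n + 1 : ℕ) : ℝ)) ^ d = (n : ℝ) ^ d * (1 + 1 / (M : ℝ) ^ (d + 1)) ^ d := by
    rw [← mul_pow]
    congr 1
    push_cast
    rw [← hnr]
    field_simp
  have h9 : (n : ℝ) ^ d * (c / (d + 1).factorial * u) ≤
      ((n : ℝ) ^ d / d.factorial) * (1 - u) * (d * (d + 1) * Real.log M) +
        2 * (lam * ((n : ℝ) ^ d * (1 + 1 / (M : ℝ) ^ (d + 1)) ^ d)) := by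
    rw [← hn1]
    linarith
  have h10 : (c / (d + 1).factorial * u) ≤
      (1 / d.factorial) * (1 - u) * (d * (d + 1) * Real.log M) +
        2 * (lam * (1 + 1 / (M : ℝ) ^ (d + 1)) ^ d) := by
    apply le_of_mul_le_mul_left _ hndpos
    refine h9.trans (le_of_eq ?_)
    ring
  have h11 : c / (d + 1).factorial * (1 - A / M) ≤ c / (d + 1).factorial * u :=
    mul_le_mul_of_nonneg_left hu2 (by positivity)
  have h12 : (1 / (d.factorial : ℝ)) * (1 - u) * (d * (d + 1) * Real.log M) ≤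
      A / d.factorial * (d * (d + 1)) * (Real.log M / M) := by
    have h13 : 1 - u ≤ A / M := by linarith
    calc (1 / (d.factorial : ℝ)) * (1 - u) * (d * (d + 1) * Real.log M) ≤
        (1 / (d.factorial : ℝ)) * (A / M) * (d * (d + 1) * Real.log M) := by
          apply mul_le_mul_of_nonneg_right _ (by positivity)
          exact mul_le_mul_of_nonneg_left h13 (by positivity)
      _ = _ := by ring
  calc c / (d + 1).factorial * (1 - A / M) ≤ _ := h11
    _ ≤ _ := h10
    _ ≤ _ := by linarith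

/-- **The lower bound.** -/
theorem lower_bound (hd : 2 ≤ d)
    (hint : Integrable fun θ : Fin d × Fin d → UnitAddCircle => Real.log ‖(sym (mon d) θ).det‖)
    (hne : ∀ᵐ θ : Fin d × Fin d → UnitAddCircle, (sym (mon d) θ).det ≠ 0)
    {lam : ℝ} (hlam : ∀ n : ℕ, Real.log (Tmax n d) ≤ lam * (n : ℝ) ^ d) :
    (∫ θ : Fin d × Fin d → UnitAddCircle, Real.log ‖(sym (mon d) θ).det‖) / (d + 1).factorial ≤
      2 * lam := by
  set c := ∫ θ : Fin d × Fin d → UnitAddCircle, Real.log ‖(sym (mon d) θ).det‖ with hc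
  have hlam0 : 0 ≤ lam := by
    have h1 := hlam 1
    have h2 : 0 ≤ Real.log (Tmax 1 d) := Real.log_natCast_nonneg _
    simpa using h2.trans h1
  rcases le_or_gt 0 c with hc0 | hc0
  · have hstep : ∀ᶠ M : ℕ in Filter.atTop, c / (d + 1).factorial *
        (1 - ((d + 1 : ℝ) ^ 2 + d * d) / M) ≤
        ((d + 1 : ℝ) ^ 2 + d * d) / d.factorial * (d * (d + 1)) * (Real.log M / M) +
        2 * lam * (1 + 1 / (M : ℝ) ^ (d + 1)) ^ d := by
      filter_upwards [Filter.eventually_ge_atTop 2] with M hM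
      exact step_bound hd hM hint hne hc hc0 hlam
    have hl1 : Filter.Tendsto (fun M : ℕ => ((d + 1 : ℝ) ^ 2 + d * d) / (M : ℝ)) Filter.atTop
        (nhds 0) := tendsto_const_div_atTop_nhds_zero_nat _
    have hl : Filter.Tendsto (fun M : ℕ => c / (d + 1).factorial *
        (1 - ((d + 1 : ℝ) ^ 2 + d * d) / M)) Filter.atTop (nhds (c / (d + 1).factorial)) := by
      have := (tendsto_const_nhds (x := (1 : ℝ))).sub hl1
      have := this.const_mul (c / ((d + 1).factorial : ℝ))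
      simpa using this
    have hr1 : Filter.Tendsto (fun M : ℕ => Real.log (M : ℝ) / (M : ℝ)) Filter.atTop (nhds 0) := by
      have h1 : Filter.Tendsto (fun x : ℝ => Real.log x / x) Filter.atTop (nhds 0) := by
        simpa using Real.tendsto_pow_log_div_mul_add_atTop 1 0 1 one_ne_zero
      exact h1.comp tendsto_natCast_atTop_atTop
    have hr2 : Filter.Tendsto (fun M : ℕ => 1 / (M : ℝ) ^ (d + 1)) Filter.atTop (nhds 0) := by
      have h1 : Filter.Tendsto (fun M : ℕ => (M : ℝ) ^ (d + 1)) Filter.atTop Filter.atTop :=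
        (Filter.tendsto_pow_atTop (by omega)).comp tendsto_natCast_atTop_atTop
      refine h1.inv_tendsto_atTop.congr fun M => ?_
      rw [Pi.inv_apply, one_div]
    have hr : Filter.Tendsto (fun M : ℕ =>
        ((d + 1 : ℝ) ^ 2 + d * d) / d.factorial * (d * (d + 1)) * (Real.log M / M) +
        2 * lam * (1 + 1 / (M : ℝ) ^ (d + 1)) ^ d) Filter.atTop (nhds (2 * lam)) := by
      have h1 := hr1.const_mul (((d + 1 : ℝ) ^ 2 + d * d) / d.factorial * (d * (d + 1)))
      have h2 := (((tendsto_const_nhds (x := (1 : ℝ))).add hr2).pow d).const_mul (2 * lam)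
      have := h1.add h2
      simpa using this
    exact le_of_tendsto_of_tendsto hl hr hstep
  · have : c / ((d + 1).factorial : ℝ) ≤ 0 := div_nonpos_of_nonpos_of_nonneg hc0.le (by positivity)
    linarith

end Pool.Agent.Lib.MP_9701dc_gt.FDA
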