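import Mathlib

set_option autoImplicit false

/-!
# Jensen's formula on the circle `ℝ/ℤ`
-/

namespace Pool.Agent.Lib.MP_9701dc_gt.FD

open MeasureTheory Real

theorem toCircle_mk (x : ℝ) :
    ((AddCircle.toCircle (x : UnitAddCircle) : Circle) : ℂ) = Complex.exp (2 * π * x * Complex.I) := by
  rw [AddCircle.toCircle_apply_mk, Circle.coe_exp]
  push_cast
  ring_nf

/-- transfer of integrability -/
theorem integrable_of_lift {g : UnitAddCircle → ℝ} (hm : Measurable g)
    (h : IntervalIntegrable (fun x : ℝ => g (x : UnitAddCircle)) volume 0 1) : Integrable g := by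
  have h1 := (UnitAddCircle.measurePreserving_mk 0).integrable_comp (g := g)
    hm.aestronglyMeasurable
  rw [← h1, zero_add]
  rw [intervalIntegrable_iff_integrableOn_Ioc_of_le zero_le_one] at h
  exact h

theorem continuous_toCircle_coe : Continuous fun t : UnitAddCircle => (AddCircle.toCircle t : ℂ) :=
  continuous_subtype_val.comp AddCircle.continuous_toCircle

theorem measurable_log_toCircle (α β : ℂ) :
    Measurable fun t : UnitAddCircle => Real.log ‖α * (AddCircle.toCircle t : ℂ) + β‖ :=
  Real.measurable_log.comp ((continuous_toCircle_coe.measurable.const_mul α).add_const β).norm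

theorem circle_pos {r : ℝ} (hr : 0 < r) (β : ℂ) :
    Integrable (fun t : UnitAddCircle => Real.log ‖(r : ℂ) * (AddCircle.toCircle t : ℂ) + β‖) ∧
      ∫ t : UnitAddCircle, Real.log ‖(r : ℂ) * (AddCircle.toCircle t : ℂ) + β‖ =
        Real.log (max r ‖β‖) := by
  set F : ℝ → ℝ := fun θ => Real.log ‖circleMap 0 r θ - (-β)‖ with hF
  have hlift : ∀ x : ℝ, Real.log ‖(r : ℂ) * (AddCircle.toCircle (x : UnitAddCircle) : ℂ) + β‖ =
      F (2 * π * x) := by
    intro x
    rw [hF]
    simp only [circleMap, zero_add, sub_neg_eq_add]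
    rw [toCircle_mk]
    push_cast
    rfl
  have hFint : IntervalIntegrable F volume 0 (2 * π) :=
    circleIntegrable_log_norm_sub_const (a := -β) (c := 0) r
  have h2π : (2 * π) ≠ 0 := by positivity
  constructor
  · apply integrable_of_lift (measurable_log_toCircle _ _)
    simp_rw [hlift]
    have := hFint.comp_mul_left (c := 2 * π)
    simpa [h2π] using this
  · rw [← UnitAddCircle.intervalIntegral_preimage 0]
    simp_rw [hlift]
    rw [intervalIntegral.integral_comp_mul_left F h2π]
    have h1 := circleAverage_log_norm_sub_const_eq_log_radius_add_posLog (a := -β) (c := 0)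
      (R := r) hr.ne'
    rw [Real.circleAverage_def] at h1
    have h3 : (2 * π)⁻¹ • ∫ x in 2 * π * 0..2 * π * (0 + 1), F x =
        (2 * π)⁻¹ • ∫ θ in 0..2 * π, F θ := by simp
    rw [h3]
    refine h1.trans ?_
    rw [zero_sub, norm_neg, norm_neg]
    rcases le_total r ‖β‖ with h | h
    · rw [max_eq_right h, Real.posLog_eq_log, ← Real.log_mul hr.ne', mul_inv_cancel_left₀ hr.ne']
      · have : 0 < ‖β‖ := lt_of_lt_of_le hr h
        positivity
      · rw [abs_of_nonneg (by positivity), ← div_eq_inv_mul, one_le_div hr]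
        exact h
    · rw [max_eq_left h]
      have : Real.posLog (r⁻¹ * ‖β‖) = 0 := by
        rw [Real.posLog_eq_zero_iff, abs_of_nonneg (by positivity), ← div_eq_inv_mul, div_le_one hr]
        exact h
      rw [this, add_zero]

/-- **Jensen's formula** -/
theorem circle_integral (α β : ℂ) :
    Integrable (fun t : UnitAddCircle => Real.log ‖α * (AddCircle.toCircle t : ℂ) + β‖) ∧
      ∫ t : UnitAddCircle, Real.log ‖α * (AddCircle.toCircle t : ℂ) + β‖ =
        Real.log (max ‖α‖ ‖β‖) := by
  by_cases hα : α = 0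
  · subst hα
    simp [Measure.real]
  have hr : 0 < ‖α‖ := norm_pos_iff.2 hα
  obtain ⟨h1, h2⟩ := circle_pos hr β
  -- the rotation
  obtain ⟨s, hs⟩ : ∃ s : UnitAddCircle, (AddCircle.toCircle s : ℂ) = α / ‖α‖ := by
    refine ⟨((Complex.arg α / (2 * π) : ℝ) : UnitAddCircle), ?_⟩
    rw [toCircle_mk, eq_div_iff (by exact_mod_cast hr.ne'), mul_comm]
    have h3 := Complex.norm_mul_exp_arg_mul_I α
    convert h3 using 3
    push_cast
    field_simp
  have h4 : ∀ t : UnitAddCircle, α * (AddCircle.toCircle t : ℂ) =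
      (‖α‖ : ℂ) * (AddCircle.toCircle (t + s) : ℂ) := by
    intro t
    rw [AddCircle.toCircle_add, Circle.coe_mul, hs]
    have : (‖α‖ : ℂ) ≠ 0 := by exact_mod_cast hr.ne'
    field_simp
  simp_rw [h4]
  exact ⟨h1.comp_add_right s, (integral_add_right_eq_self
    (fun t : UnitAddCircle => Real.log ‖(‖α‖ : ℂ) * (AddCircle.toCircle t : ℂ) + β‖) s).trans h2⟩

end Pool.Agent.Lib.MP_9701dc_gt.FD
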