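import Pool.Agent.Lib.MP_9701dc_gt.GR.Growth
import Pool.Agent.Lib.MP_9701dc_gt.GR.Skel
import Pool.Agent.Lib.MP_9701dc_gt.GR.DetMax

set_option autoImplicit false
set_option linter.unusedSectionVars false

/-!
# Completing a family of faces

Any family `f` of `(m+2)`-subsets of `Fin n` whose Gram matrix of boundaries has positive
determinant `g` can be completed, with one additional cone vertex, to a complex with torsion at
least `sqrt (g / binom (binom n (m+1)) (card ι))`.
-/

namespace Pool.Agent.Lib.MP_9701dc_gt.FDA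

open Finset Pool.Agent.Results.MP_9701dc_gt.TorsionBound Pool.Agent.Lib.MP_9701dc_gt
open Pool.Agent.Lib.MP_9701dc_gt.GR

section minor

variable {ι κ : Type} [Fintype ι] [DecidableEq ι] [Fintype κ] [DecidableEq κ]

/-- some minor is large, binomial form -/
theorem exists_minor_choose (A : Matrix ι κ ℝ) (hA : 0 < (A * A.transpose).det) :
    ∃ c : ι → κ, Function.Injective c ∧
      (A * A.transpose).det ≤ ((Fintype.card κ).choose (Fintype.card ι) : ℝ) *
        (A.submatrix id c).det ^ 2 := by
  classical
  have h := factorial_mul_det A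
  have hnon : ∀ c : ι → κ, ¬ Function.Injective c → (A.submatrix id c).det ^ 2 = 0 := by
    intro c hc
    have : ∃ i j, c i = c j ∧ i ≠ j := by
      by_contra hcon
      push Not at hcon
      exact hc fun i j hij => hcon i j hij
    obtain ⟨i, j, hij, hne⟩ := this
    have h0 : (A.submatrix id c).det = 0 := by
      apply Matrix.det_zero_of_column_eq hne
      intro k
      simp [Matrix.submatrix_apply, hij]
    rw [h0]; ring
  have h1 : ∑ c : ι → κ, (A.submatrix id c).det ^ 2 =
      ∑ c : ι ↪ κ, (A.submatrix id c).det ^ 2 := by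
    have e1 : ∑ c : ι → κ, (A.submatrix id c).det ^ 2 =
        ∑ c ∈ univ.filter (fun c : ι → κ => Function.Injective c), (A.submatrix id c).det ^ 2 := by
      symm
      refine sum_subset (filter_subset _ _) fun c _ hc => hnon c ?_
      simpa using hc
    rw [e1]
    refine sum_bij' (i := fun c hc => (⟨c, (mem_filter.mp hc).2⟩ : ι ↪ κ)) (j := fun c _ => (c : ι → κ))
      ?_ ?_ ?_ ?_ ?_
    · intro c hc; exact mem_univ _
    · intro c hc; simp [c.injective]
    · intro c hc; rfl
    · intro c hc; rfl
    · intro c hc; rfl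
  rw [h1] at h
  by_contra hc
  push Not at hc
  have hfac : (0 : ℝ) < ((Fintype.card ι).factorial : ℝ) := by positivity
  have hpos : (0 : ℝ) < ((Fintype.card ι).factorial : ℝ) * (A * A.transpose).det := mul_pos hfac hA
  have hne : (univ : Finset (ι ↪ κ)).Nonempty := by
    by_contra hem
    rw [not_nonempty_iff_eq_empty] at hem
    rw [hem, sum_empty] at h
    linarith
  have hcard : ((univ : Finset (ι ↪ κ)).card : ℝ) =
      ((Fintype.card ι).factorial : ℝ) * ((Fintype.card κ).choose (Fintype.card ι) : ℝ) := by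
    rw [card_univ, Fintype.card_embedding_eq, Nat.descFactorial_eq_factorial_mul_choose]
    push_cast
    ring
  have h2 : ∑ c : ι ↪ κ, ((Fintype.card κ).choose (Fintype.card ι) : ℝ) *
      (A.submatrix id c).det ^ 2 < ∑ _c : ι ↪ κ, (A * A.transpose).det :=
    sum_lt_sum_of_nonempty hne fun c _ => hc c c.injective
  rw [← mul_sum, ← h, sum_const, nsmul_eq_mul, hcard] at h2
  have h3 : ((Fintype.card κ).choose (Fintype.card ι) : ℝ) *
      (((Fintype.card ι).factorial : ℝ) * (A * A.transpose).det) =
      ((Fintype.card ι).factorial : ℝ) * ((Fintype.card κ).choose (Fintype.card ι) : ℝ) *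
        (A * A.transpose).det := by ring
  rw [h3] at h2
  exact lt_irrefl _ h2

end minor

variable {n : ℕ}

/-- the embedding of the vertices -/
abbrev emb (n : ℕ) : Fin n ↪o Fin (n + 1) := Fin.castSuccOrderEmb

theorem last_notMem (σ : Finset (Fin n)) : Fin.last n ∉ σ.map (emb n).toEmbedding := by
  intro h
  rw [mem_map] at h
  obtain ⟨x, _, hx⟩ := h
  exact (Fin.castSucc_lt_last x).ne hx

/-- rows of the extended complex -/
noncomputable def rowEquiv (n k : ℕ) : {σ : Finset (Fin n) // σ.card = k} ≃ Row (n + 1) k (Fin.last n) :=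
  Equiv.ofBijective (fun σ => ⟨σ.1.map (emb n).toEmbedding, mem_rows.mpr
    ⟨by rw [card_map]; exact σ.2, last_notMem _⟩⟩) (by
    constructor
    · intro σ τ h
      have h1 := congrArg Subtype.val h
      exact Subtype.ext (map_injective _ h1)
    · rintro ⟨τ, hτ⟩
      rw [mem_rows] at hτ
      have hsub : τ ⊆ (univ : Finset (Fin n)).map (emb n).toEmbedding := by
        intro x hx
        rw [mem_map]
        have hx' : x ≠ Fin.last n := fun h => hτ.2 (h ▸ hx)
        refine ⟨x.castPred hx', mem_univ _, ?_⟩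
        exact Fin.castSucc_castPred x hx'
      obtain ⟨σ, _, hσ⟩ := subset_map_iff.mp hsub
      refine ⟨⟨σ, ?_⟩, ?_⟩
      · rw [← hτ.1, hσ, card_map]
      · exact Subtype.ext hσ.symm)

theorem rowEquiv_val {k : ℕ} (σ : {σ : Finset (Fin n) // σ.card = k}) :
    (rowEquiv n k σ).1 = σ.1.map (emb n).toEmbedding := rfl

/-- **Completion.** -/
theorem completion {m n : ℕ} (hm : 1 ≤ m) {ι : Type} [Fintype ι] [DecidableEq ι] [Nonempty ι]
    (f : ι → Finset (Fin n)) (hf : ∀ i, (f i).card = m + 2)
    (hdet : 0 < (Matrix.of fun i j => (gram (f i) (f j) : ℝ)).det) :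
    Fintype.card ι ≤ n.choose (m + 1) ∧
    Real.log (Matrix.of fun i j => (gram (f i) (f j) : ℝ)).det ≤
      Real.log ((n.choose (m + 1)).choose (Fintype.card ι)) +
        2 * Real.log (Tmax (n + 1) (m + 1)) := by
  classical
  set κ := {σ : Finset (Fin n) // σ.card = m + 1} with hκ
  set A : Matrix ι κ ℝ := Matrix.of fun i σ => (inc σ.1 (f i) : ℝ) with hA
  have hAA : A * A.transpose = Matrix.of fun i j => (gram (f i) (f j) : ℝ) := by
    ext i j
    rw [Matrix.mul_apply, Matrix.of_apply]
    unfold gram
    push_cast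
    have e1 : ∑ σ : Finset (Fin n), (inc σ (f i) : ℝ) * (inc σ (f j) : ℝ) =
        ∑ σ ∈ univ.filter (fun σ : Finset (Fin n) => σ.card = m + 1),
          (inc σ (f i) : ℝ) * (inc σ (f j) : ℝ) := by
      symm
      refine sum_subset (filter_subset _ _) fun σ _ hσ => ?_
      have : inc σ (f i) = 0 := by
        apply inc_eq_zero_of_card
        rw [hf]
        intro h
        apply hσ
        rw [mem_filter]
        exact ⟨mem_univ _, by omega⟩
      rw [this]; simp
    rw [e1]
    have e2 : ∑ σ ∈ univ.filter (fun σ : Finset (Fin n) => σ.card = m + 1),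
        (inc σ (f i) : ℝ) * (inc σ (f j) : ℝ) =
        ∑ σ : {σ : Finset (Fin n) // σ.card = m + 1}, (inc σ.1 (f i) : ℝ) * (inc σ.1 (f j) : ℝ) :=
      sum_subtype _ (by simp) _
    rw [e2]
    rfl
  rw [← hAA] at hdet ⊢
  obtain ⟨c, hc, hle⟩ := exists_minor_choose A hdet
  -- the completed family of faces
  set v : Fin (n + 1) := Fin.last n with hv
  set g : κ ≃ Row (n + 1) (m + 1) v := rowEquiv n (m + 1) with hg
  have hgv : ∀ σ : κ, (g σ).1 = σ.1.map (emb n).toEmbedding := fun σ => rfl
  set e : ι ⊕ {σ : κ // σ ∉ Set.range c} ≃ κ :=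
    (Equiv.sumCongr (Equiv.ofInjective c hc) (Equiv.refl _)).trans
      (Equiv.sumCompl (fun σ : κ => σ ∈ Set.range c)) with he
  have hel : ∀ i, e (Sum.inl i) = c i := fun i => rfl
  have her : ∀ s, e (Sum.inr s) = s.1 := fun s => rfl
  set E : ι ⊕ {σ : κ // σ ∉ Set.range c} ≃ Row (n + 1) (m + 1) v := e.trans g with hE
  set T₀ : ι ⊕ {σ : κ // σ ∉ Set.range c} → Finset (Fin (n + 1)) := fun s =>
    Sum.elim (fun i => (f i).map (emb n).toEmbedding)
      (fun s => insert v (s.1.1.map (emb n).toEmbedding)) s with hT₀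
  set T : Row (n + 1) (m + 1) v → Finset (Fin (n + 1)) := fun σ => T₀ (E.symm σ) with hT
  have hTc : ∀ i, (T i).card = m + 2 := by
    intro σ
    rw [hT]
    change (T₀ (E.symm σ)).card = m + 2
    generalize E.symm σ = s
    rcases s with i | s
    · change ((f i).map _).card = _
      rw [card_map, hf]
    · change (insert v (s.1.1.map (emb n).toEmbedding)).card = _
      rw [card_insert_of_notMem (last_notMem _), card_map, s.1.2]
  set M : Matrix (Row (n + 1) (m + 1) v) (Row (n + 1) (m + 1) v) ℤ :=
    Matrix.of fun i σ => inc σ.1 (T i) with hM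
  have hMdet : (M.submatrix E E).det = M.det := Matrix.det_submatrix_equiv_self E M
  -- the block structure
  have hblock : M.submatrix E E = Matrix.fromBlocks
      (Matrix.of fun i j : ι => inc (c j).1 (f i))
      (Matrix.of fun (i : ι) (s : {σ : κ // σ ∉ Set.range c}) => inc s.1.1 (f i))
      0 (Matrix.diagonal fun s : {σ : κ // σ ∉ Set.range c} =>
        sg v (s.1.1.map (emb n).toEmbedding)) := by
    ext s t
    rw [Matrix.submatrix_apply, hM, Matrix.of_apply]
    have hTs : T (E s) = T₀ s := by
      rw [hT]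
      change T₀ (E.symm (E s)) = T₀ s
      rw [Equiv.symm_apply_apply]
    have hEt : (E t).1 = (e t).1.map (emb n).toEmbedding := rfl
    rw [hTs, hEt]
    rcases s with i | s
    · have h1 : T₀ (Sum.inl i) = (f i).map (emb n).toEmbedding := rfl
      rw [h1, inc_map]
      rcases t with j | t
      · rw [Matrix.fromBlocks_apply₁₁, Matrix.of_apply, hel]
      · rw [Matrix.fromBlocks_apply₁₂, Matrix.of_apply, her]
    · have h1 : T₀ (Sum.inr s) = insert v (s.1.1.map (emb n).toEmbedding) := rfl
      rw [h1]
      have h2 : ∀ t : κ, t ≠ s.1 → inc (t.1.map (emb n).toEmbedding)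
          (insert v (s.1.1.map (emb n).toEmbedding)) = 0 := by
        intro t ht
        by_contra hne
        obtain ⟨u, hu, hu'⟩ := inc_ne_zero hne
        have hvu : u = v := by
          have : v ∈ insert u (t.1.map (emb n).toEmbedding) := by
            rw [← hu']; exact mem_insert_self _ _
          rcases mem_insert.mp this with h | h
          · exact h.symm
          · exact absurd h (last_notMem _)
        subst hvu
        have h3 : s.1.1.map (emb n).toEmbedding = t.1.map (emb n).toEmbedding := by
          have := congrArg (fun x => x.erase v) hu'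
          beta_reduce at this
          rwa [erase_insert (last_notMem _), erase_insert (last_notMem _)] at this
        exact ht (Subtype.ext (map_injective _ h3).symm)
      rcases t with j | t
      · rw [Matrix.fromBlocks_apply₂₁, hel, Matrix.zero_apply]
        apply h2
        intro h
        exact s.2 ⟨j, h⟩
      · rw [Matrix.fromBlocks_apply₂₂, her]
        by_cases hst : s = t
        · subst hst
          rw [Matrix.diagonal_apply_eq, inc_insert (last_notMem _)]
        · rw [Matrix.diagonal_apply_ne _ hst]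
          apply h2
          intro h
          exact hst (Subtype.ext h.symm)
  have hdetM : M.det = (Matrix.of fun i j : ι => inc (c j).1 (f i)).det *
      ∏ s : {σ : κ // σ ∉ Set.range c}, sg v (s.1.1.map (emb n).toEmbedding) := by
    rw [← hMdet, hblock, Matrix.det_fromBlocks_zero₂₁, Matrix.det_diagonal]
  have hmin : (A.submatrix id c).det = ((Matrix.of fun i j : ι => inc (c j).1 (f i)).det : ℝ) := by
    have h1 : A.submatrix id c = (Matrix.of fun i j : ι => inc (c j).1 (f i)).map
        (Int.cast : ℤ → ℝ) := by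
      ext i j
      simp [A]
    rw [h1]
    exact ((Int.castRingHom ℝ).map_det _).symm
  have hprod : (∏ s : {σ : κ // σ ∉ Set.range c}, sg v (s.1.1.map (emb n).toEmbedding)) ^ 2 = 1 := by
    rw [← prod_pow]
    refine prod_eq_one fun s _ => ?_
    rw [sq]
    exact sg_sq _ _
  have hsq : ((M.det : ℤ) : ℝ) ^ 2 = (A.submatrix id c).det ^ 2 := by
    rw [hdetM, hmin]
    push_cast
    rw [mul_pow]
    have : ((∏ s : {σ : κ // σ ∉ Set.range c}, (sg v (s.1.1.map (emb n).toEmbedding) : ℝ))) ^ 2 = 1 := by
      exact_mod_cast hprod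
    rw [this, mul_one]
  have hCpos : (0 : ℝ) < ((Fintype.card κ).choose (Fintype.card ι) : ℝ) := by
    have : Fintype.card ι ≤ Fintype.card κ := Fintype.card_le_of_injective c hc
    exact_mod_cast Nat.choose_pos this
  have hx2 : (0 : ℝ) < (A.submatrix id c).det ^ 2 :=
    (pos_iff_pos_of_mul_pos (lt_of_lt_of_le hdet hle)).mp hCpos
  have hMne : M.det ≠ 0 := by
    intro h0
    rw [h0] at hsq
    rw [← hsq] at hx2
    simp at hx2
  have h1 : M.det.natAbs ≤ tors (skel (m + 1) (univ.image T)) m :=
    tors_skel hm v T hTc M (fun i σ => rfl) hMne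
  have hXc : IsComplex (skel (m + 1) (univ.image T)) := isComplex_skel (by omega) (by
    intro τ hτ
    obtain ⟨i, _, rfl⟩ := mem_image.mp hτ
    exact hTc i)
  have hXd : IsDim (m + 1) (skel (m + 1) (univ.image T)) := by
    obtain ⟨i⟩ := (inferInstance : Nonempty ι)
    refine ⟨⟨T (E (Sum.inl i)), mem_skel.mpr (Or.inr (mem_image_of_mem _ (mem_univ _))), hTc _⟩,
      fun σ hσ => card_le_of_mem_skel (by
        intro τ hτ
        obtain ⟨i, _, rfl⟩ := mem_image.mp hτ
        exact hTc i) hσ⟩
  have h2' := le_Tmax hXc hXd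
  rw [Nat.add_sub_cancel] at h2'
  have h2 : M.det.natAbs ≤ Tmax (n + 1) (m + 1) := h1.trans h2'
  have h3 : Real.log ((A.submatrix id c).det ^ 2) ≤ 2 * Real.log (Tmax (n + 1) (m + 1)) := by
    rw [← hsq, Real.log_pow]
    have h4 : |((M.det : ℤ) : ℝ)| ≤ (Tmax (n + 1) (m + 1) : ℝ) := by
      rw [← Int.cast_abs, Int.abs_eq_natAbs]
      exact_mod_cast h2
    have h5 : (0 : ℝ) < |((M.det : ℤ) : ℝ)| := by
      rw [abs_pos]
      exact_mod_cast hMne
    have h6 := Real.log_le_log h5 h4
    rw [Real.log_abs] at h6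
    rw [Nat.cast_ofNat]
    linarith
  have hcardκ : Fintype.card κ = n.choose (m + 1) := by
    refine (Fintype.card_finset_len (m + 1)).trans ?_
    rw [Fintype.card_fin]
  refine ⟨hcardκ ▸ Fintype.card_le_of_injective c hc, ?_⟩
  calc Real.log (A * A.transpose).det ≤ Real.log (((Fintype.card κ).choose (Fintype.card ι) : ℝ) *
        (A.submatrix id c).det ^ 2) := Real.log_le_log hdet hle
    _ = Real.log ((Fintype.card κ).choose (Fintype.card ι) : ℝ) +
        Real.log ((A.submatrix id c).det ^ 2) := Real.log_mul hCpos.ne' hx2.ne'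
    _ ≤ _ := by
        rw [hcardκ]
        linarith

end Pool.Agent.Lib.MP_9701dc_gt.FDA
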