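import Pool.Agent.Lib.MP_9701dc_gt.GR.Growth

set_option autoImplicit false

/-!
# Lower bounds for the growth constant: definitions

* `zeroSum N d`: the blocks, sets of `d + 1` colours of `Fin N` whose sum is divisible by `N`;
* `pinc`, `PM`: incidence of rows and facets of the complete `(d+1)`-partite complex with
  vertex classes `G`, and the square matrices formed by them (all signs are `+1`);
* `ee`, `U`, `mu`: the matrix with entries `e(θ i j)` and the mean of `log |det|`;
* `chi`: the characters of the torus.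
-/

namespace Pool.Agent.Lib.MP_9701dc_gt.FD

open Finset MeasureTheory

/-- the blocks -/
def zeroSum (N d : ℕ) : Finset (Finset (Fin N)) :=
  univ.filter fun B => B.card = d + 1 ∧ N ∣ ∑ b ∈ B, (b : ℕ)

/-- Incidence of the row `r = (i, h)` (one vertex `h l` in each class `l ≠ i`; the value `h i` is
irrelevant) and the facet `g` (one vertex `g l` in each class `l`). -/
def pinc {d : ℕ} {G : Type} [DecidableEq G] (r : Fin (d + 1) × (Fin (d + 1) → G))
    (g : Fin (d + 1) → G) : ℤ :=
  if ∀ l, l ≠ r.1 → g l = r.2 l then 1 else 0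

/-- a square matrix of incidences -/
def PM {d : ℕ} {G I : Type} [DecidableEq G] (r : I → Fin (d + 1) × (Fin (d + 1) → G))
    (c : I → Fin (d + 1) → G) : Matrix I I ℤ :=
  Matrix.of fun a b => pinc (r a) (c b)

/-- `e(t)` for `t` in `ℝ/ℤ` -/
noncomputable def ee (t : UnitAddCircle) : ℂ := (AddCircle.toCircle t : ℂ)

/-- the matrix with entries `e(θ i j)` -/
noncomputable def U (k : ℕ) (θ : Fin k × Fin k → UnitAddCircle) : Matrix (Fin k) (Fin k) ℂ :=
  Matrix.of fun i j => ee (θ (i, j))

/-- the mean of `log |det U|` for independent uniformly distributed entries of absolute value 1 -/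
noncomputable def mu (k : ℕ) : ℝ :=
  ∫ θ : Fin k × Fin k → UnitAddCircle, Real.log ‖(U k θ).det‖

/-- the characters of the torus -/
noncomputable def chi {K : Type} [Fintype K] (n : K → ℤ) (θ : K → UnitAddCircle) : ℂ :=
  ee (∑ q, n q • θ q)

/-- unit exponent -/
def E1 {K : Type} [DecidableEq K] (q : K) : K → ℤ := Pi.single q 1

/-- the shift `0, e_1, ..., e_d` -/
def sft {d L : ℕ} (j : Fin (d + 1)) : Fin d → ZMod (L + 1) := fun i => if j = i.succ then 1 else 0

/-- the model rows: positions `x` in a box of side `L`, inside the classes `(ℤ/(L+1))^d` -/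
def mrow {d L : ℕ} (a : Fin (d + 1) × (Fin d → Fin d → Fin L)) :
    Fin (d + 1) × (Fin (d + 1) → Fin d → ZMod (L + 1)) :=
  (a.1, Fin.cases (fun j => -∑ l, ((a.2 l j : ℕ) : ZMod (L + 1)))
    (fun l j => ((a.2 l j : ℕ) : ZMod (L + 1))))

/-- the model facets -/
def mcol {d L : ℕ} (b : Fin (d + 1) × (Fin d → Fin d → ZMod (L + 1))) :
    Fin (d + 1) → Fin d → ZMod (L + 1) :=
  Fin.cases (fun j => sft b.1 j - ∑ l, b.2 l j) (fun l => b.2 l)

/-- the model incidence matrix -/
def mP (d L : ℕ) : Matrix (Fin (d + 1) × (Fin d → Fin d → Fin L))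
    (Fin (d + 1) × (Fin d → Fin d → ZMod (L + 1))) ℝ :=
  Matrix.of fun a b => (pinc (mrow a) (mcol b) : ℝ)

/-- the exponents of the model rows -/
def xi {d L : ℕ} (i : Fin (d + 1)) (x : Fin d → Fin d → Fin L) : Fin (d + 1) × Fin (d + 1) → ℤ :=
  fun q => (Fin.cases (Fin.cases (∑ l, ∑ j, (x l j : ℤ)) (fun j => -∑ l, (x l j : ℤ)) q.2)
    (fun l => Fin.cases (-∑ j, (x l j : ℤ)) (fun j => (x l j : ℤ)) q.2) q.1 : ℤ) - E1 (i, 0) q

/-- the vertex of colour `b` and label `g` -/
def pl {N m : ℕ} {G : Type} (e : G ≃ Fin m) (b : Fin N) (g : G) : Fin (N * m + 1) :=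
  ⟨b.val * m + (e g).val, by
    have h1 : b.val * m + m ≤ N * m := by
      have : (b.val + 1) * m ≤ N * m := Nat.mul_le_mul_right _ b.2
      linarith
    have h2 := (e g).2
    omega⟩

/-- the vertex set of a row -/
def rowSet {N m d : ℕ} {G : Type} (e : G ≃ Fin m) (b : Fin (d + 1) → Fin N)
    (r : Fin (d + 1) × (Fin (d + 1) → G)) : Finset (Fin (N * m + 1)) :=
  (univ.filter fun l => l ≠ r.1).image fun l => pl e (b l) (r.2 l)

/-- the vertex set of a facet -/
def facSet {N m d : ℕ} {G : Type} (e : G ≃ Fin m) (b : Fin (d + 1) → Fin N)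
    (g : Fin (d + 1) → G) : Finset (Fin (N * m + 1)) :=
  univ.image fun l => pl e (b l) (g l)

/-- `|p + q e^{iφ}|` -/
noncomputable def rr (p q φ : ℝ) : ℝ := Real.sqrt (p ^ 2 + q ^ 2 + 2 * p * q * Real.cos φ)

/-- the mean of `log |p + q z + r w|` over the torus -/
noncomputable def m3 (p q r : ℝ) : ℝ :=
  (∫ φ in (0 : ℝ)..Real.pi, Real.log (max r (rr p q φ))) / Real.pi

/-- Lobachevsky's function -/
noncomputable def Lob (x : ℝ) : ℝ := -∫ t in (0 : ℝ)..x, Real.log (2 * Real.sin t)

/-- `x log (2 sin x) + Lob x` -/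
noncomputable def gg (x : ℝ) : ℝ := x * Real.log (2 * Real.sin x) + Lob x

end Pool.Agent.Lib.MP_9701dc_gt.FD
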