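import Pool.Agent.Lib.MP_9701dc_gt.FD.Szego

set_option autoImplicit false
set_option linter.unusedSectionVars false

/-!
# The one-sided Szegő inequality: tiles
-/

namespace Pool.Agent.Lib.MP_9701dc_gt.FDA

open Finset Matrix MeasureTheory
open scoped ComplexOrder

variable {s R S : Type} [Fintype s] [DecidableEq s] [Fintype R] [DecidableEq R] [Fintype S]
  [DecidableEq S]

/-- the position `y` of the tile `t` -/
def tile (q L : ℕ) (t : s → Fin q) (y : s → Fin L) : s → ZMod (q * L) :=
  fun j => (((y j : ℕ) + L * (t j : ℕ) : ℕ) : ZMod (q * L))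

theorem tile_inj {q L : ℕ} {t t' : s → Fin q} {y y' : s → Fin L}
    (h : tile q L t y = tile q L t' y') : t = t' ∧ y = y' := by
  have key : ∀ j, t j = t' j ∧ y j = y' j := by
    intro j
    have hj := congrFun h j
    unfold tile at hj
    rw [ZMod.natCast_eq_natCast_iff'] at hj
    have hb : ∀ (a : Fin L) (b : Fin q), (a : ℕ) + L * (b : ℕ) < q * L := by
      intro a b
      have h1 := a.2
      have h2 := b.2
      have h3 : L * (b : ℕ) + L ≤ q * L := by
        have : (b : ℕ) + 1 ≤ q := h2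
        nlinarith
      omega
    rw [Nat.mod_eq_of_lt (hb _ _), Nat.mod_eq_of_lt (hb _ _)] at hj
    have hL : 0 < L := (y j).pos
    have e1 : (y j : ℕ) = (y' j : ℕ) := by
      have := congrArg (· % L) hj
      simpa [Nat.add_mul_mod_self_left, Nat.mod_eq_of_lt (y j).2, Nat.mod_eq_of_lt (y' j).2] using this
    have e2 : (t j : ℕ) = (t' j : ℕ) := by
      rw [e1] at hj
      have : L * (t j : ℕ) = L * (t' j : ℕ) := by omega
      exact Nat.eq_of_mul_eq_mul_left hL this
    exact ⟨Fin.ext e2, Fin.ext e1⟩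
  exact ⟨funext fun j => (key j).1, funext fun j => (key j).2⟩

/-- the tiling of the torus -/
noncomputable def tileEquiv (S s : Type) [Fintype S] [Fintype s] [DecidableEq s] (q L : ℕ) [NeZero (q * L)] :
    (S × (s → Fin L)) × (s → Fin q) ≃ S × (s → ZMod (q * L)) :=
  Equiv.ofBijective (fun p => (p.1.1, tile q L p.2 p.1.2)) (by
    rw [Fintype.bijective_iff_injective_and_card]
    constructor
    · rintro ⟨⟨a, y⟩, t⟩ ⟨⟨b, y'⟩, t'⟩ h
      have h1 : a = b := congrArg Prod.fst h
      obtain ⟨h2, h3⟩ := tile_inj (congrArg Prod.snd h)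
      simp only at h2 h3
      rw [h1, h2, h3]
    · simp only [Fintype.card_prod, Fintype.card_pi, Fintype.card_fin, ZMod.card, prod_const,
        card_univ]
      rw [mul_pow]
      ring)

theorem tileEquiv_apply {q L : ℕ} [NeZero (q * L)] (a : S) (y : s → Fin L) (t : s → Fin q) :
    tileEquiv S s q L ((a, y), t) = (a, tile q L t y) := rfl

/-- integers of a box -/
def bx {L : ℕ} (y : s → Fin L) : s → ℤ := fun j => ((y j : ℕ) : ℤ)

theorem tile_add_red {q L : ℕ} [NeZero (q * L)] (t : s → Fin q) (y y' : s → Fin L) (z z' : s → ℤ)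
    {K : ℕ} (hz : ∀ j, |z j - z' j| ≤ K) (hq : L + K ≤ q * L) :
    tile q L t y + red (q * L) z = tile q L t y' + red (q * L) z' ↔
      ∀ j, bx y j + z j = bx y' j + z' j := by
  rw [funext_iff]
  refine forall_congr' fun j => ?_
  simp only [Pi.add_apply, tile, red, bx]
  have e1 : ((((y j : ℕ) + L * (t j : ℕ) : ℕ) : ZMod (q * L)) + (z j : ZMod (q * L)) =
      (((y' j : ℕ) + L * (t j : ℕ) : ℕ) : ZMod (q * L)) + (z' j : ZMod (q * L))) ↔
      (((((y j : ℕ) : ℤ) + z j - (((y' j : ℕ) : ℤ) + z' j) : ℤ)) : ZMod (q * L)) = 0 := by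
    push_cast
    constructor
    · intro h
      linear_combination h
    · intro h
      linear_combination h
  rw [e1, ZMod.intCast_zmod_eq_zero_iff_dvd]
  constructor
  · intro h
    have habs : |((y j : ℕ) : ℤ) + z j - (((y' j : ℕ) : ℤ) + z' j)| < (q * L : ℕ) := by
      have h1 := (y j).2
      have h2 := (y' j).2
      have h3 := abs_le.mp (hz j)
      rw [abs_lt]
      zify at h1 h2 hq
      push_cast
      constructor <;> linarith [h3.1, h3.2]
    have := Int.eq_zero_of_abs_lt_dvd h habs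
    linarith
  · intro h
    rw [h, sub_self]
    exact dvd_zero _

/-- a block of the tiling -/
theorem block_eq (m : R → S → s → ℤ) {K : ℕ} (hK : ∀ r a b j, |m r a j - m r b j| ≤ K)
    {q L : ℕ} [NeZero (q * L)] (hq : L + K ≤ q * L) (φ : s → UnitAddCircle) (ε : ℝ)
    (t : s → Fin q) :
    ((perG m φ (q * L) + (ε : ℂ) • (1 : Matrix (S × (s → ZMod (q * L)))
      (S × (s → ZMod (q * L))) ℂ)).submatrix (tileEquiv S s q L) (tileEquiv S s q L)).submatrix
        (fun x => (x, t)) (fun x => (x, t)) =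
      diagonal (fun p : S × (s → Fin L) => ch φ (bx p.2)) *
        ((boxG m L + ε • (1 : Matrix (S × (s → Fin L)) (S × (s → Fin L)) ℝ)).map
          (Complex.ofReal : ℝ → ℂ)) *
        diagonal (fun p : S × (s → Fin L) => star (ch φ (bx p.2))) := by
  ext ⟨a, y⟩ ⟨b, y'⟩
  rw [mul_diagonal, diagonal_mul, submatrix_apply, submatrix_apply, map_apply, Matrix.add_apply,
    Matrix.add_apply, Matrix.smul_apply, Matrix.smul_apply, tileEquiv_apply, tileEquiv_apply,
    perG_apply]
  simp only [boxG, of_apply]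
  have hr : ∀ r : R, (if tile q L t y + red (q * L) (m r a) = tile q L t y' + red (q * L) (m r b)
      then star (ch φ (m r a)) * ch φ (m r b) else 0) =
      ch φ (bx y) * ((if ∀ j, ((y j : ℕ) : ℤ) + m r a j = ((y' j : ℕ) : ℤ) + m r b j then (1 : ℝ)
        else 0 : ℝ) : ℂ) * star (ch φ (bx y')) := by
    intro r
    have hiff := tile_add_red t y y' (m r a) (m r b) (hK r a b) hq
    by_cases h : ∀ j, bx y j + m r a j = bx y' j + m r b j
    · have h' : ∀ j, ((y j : ℕ) : ℤ) + m r a j = ((y' j : ℕ) : ℤ) + m r b j := h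
      rw [if_pos (hiff.mpr h), if_pos h', star_ch_mul_ch]
      have e1 : m r b - m r a = bx y + -bx y' := by
        funext j
        have := h j
        simp only [Pi.sub_apply, Pi.add_apply, Pi.neg_apply]
        linarith
      rw [e1, ch_add_right, ch_neg_right]
      simp
    · have h' : ¬ ∀ j, ((y j : ℕ) : ℤ) + m r a j = ((y' j : ℕ) : ℤ) + m r b j := h
      rw [if_neg (fun h'' => h (hiff.mp h'')), if_neg h']
      simp
  simp only [hr]
  rw [← sum_mul, ← mul_sum]
  have h1 : (1 : Matrix (S × (s → ZMod (q * L))) (S × (s → ZMod (q * L))) ℂ)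
      (a, tile q L t y) (b, tile q L t y') =
      ch φ (bx y) * ((1 : Matrix (S × (s → Fin L)) (S × (s → Fin L)) ℝ) (a, y) (b, y') : ℂ) *
        star (ch φ (bx y')) := by
    rw [one_apply, one_apply]
    by_cases h : (a, y) = (b, y')
    · have h2 : y = y' := congrArg Prod.snd h
      have h3 : a = b := congrArg Prod.fst h
      rw [if_pos h, if_pos (by rw [h2, h3]), h2]
      have h4 : ch φ (bx y') * star (ch φ (bx y')) = 1 := by
        rw [mul_comm, star_ch_mul_ch, sub_self, ch_zero_right]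
      rw [Complex.ofReal_one, mul_one, h4]
    · rw [if_neg h, if_neg]
      · simp
      · intro h'
        apply h
        have h3 : a = b := congrArg Prod.fst h'
        have h2 := (tile_inj (congrArg Prod.snd h')).2
        rw [h2, h3]
  rw [h1]
  simp only [smul_eq_mul]
  push_cast
  ring

theorem key_posSemidef {P Z : Type} [Fintype P] [DecidableEq P] [DecidableEq Z] (key : P → Z) :
    (of fun p q : P => if key p = key q then (1 : ℝ) else 0).PosSemidef := by
  classical
  set M : Matrix {z // z ∈ univ.image key} P ℝ := of fun z p => if key p = z.1 then 1 else 0 with hM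
  have h : (of fun p q : P => if key p = key q then (1 : ℝ) else 0) = Mᴴ * M := by
    ext p q
    rw [mul_apply, sum_eq_single ⟨key p, mem_image_of_mem _ (mem_univ p)⟩]
    · simp [hM, eq_comm]
    · intro z _ hz
      have : key p ≠ z.1 := fun h => hz (Subtype.ext h.symm)
      simp [hM, this]
    · intro h; exact absurd (mem_univ _) h
  rw [h]
  exact posSemidef_conjTranspose_mul_self M

theorem boxG_posSemidef (m : R → S → s → ℤ) (L : ℕ) : (boxG m L).PosSemidef := by
  have h : boxG m L = ∑ r, (of fun p q : S × (s → Fin L) =>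
      if (fun p : S × (s → Fin L) => bx p.2 + m r p.1) p =
        (fun p : S × (s → Fin L) => bx p.2 + m r p.1) q then (1 : ℝ) else 0) := by
    ext p q
    rw [Matrix.sum_apply]
    simp only [boxG, of_apply]
    refine sum_congr rfl fun r _ => ?_
    congr 1
    rw [funext_iff]
    rfl
  rw [h]
  exact posSemidef_sum _ fun r _ => key_posSemidef _

theorem continuous_sym_det (m : R → S → s → ℤ) (ε : ℂ) :
    Continuous fun θ => (sym m θ + ε • (1 : Matrix S S ℂ)).det := by
  apply Continuous.matrix_det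
  have h1 : Continuous fun θ => U m θ := by
    apply continuous_matrix
    intro r a
    exact continuous_ch (m r a)
  exact (h1.matrix_conjTranspose.matrix_mul h1).add continuous_const

theorem sym_det_ne_zero (m : R → S → s → ℤ) {ε : ℝ} (hε : 0 < ε) (θ : s → UnitAddCircle) :
    (sym m θ + (ε : ℂ) • (1 : Matrix S S ℂ)).det ≠ 0 := by
  have := (add_posDef (sym_posSemidef m θ) hε).isUnit
  rw [Matrix.isUnit_iff_isUnit_det] at this
  exact this.ne_zero

theorem szego_point (m : R → S → s → ℤ) {K : ℕ} (hK : ∀ r a b j, |m r a j - m r b j| ≤ K)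
    {q L : ℕ} [NeZero (q * L)] (hq : L + K ≤ q * L) (φ : s → UnitAddCircle) {ε : ℝ} (hε : 0 < ε) :
    ∑ k : s → ZMod (q * L), Real.log ‖(sym m (φ - pt k) + (ε : ℂ) • (1 : Matrix S S ℂ)).det‖ ≤
      (q : ℝ) ^ Fintype.card s * Real.log
        (boxG m L + ε • (1 : Matrix (S × (s → Fin L)) (S × (s → Fin L)) ℝ)).det := by
  set G := perG m φ (q * L) + (ε : ℂ) • (1 : Matrix (S × (s → ZMod (q * L)))
      (S × (s → ZMod (q * L))) ℂ) with hG
  have hGpos : G.PosDef := add_posDef (posSemidef_conjTranspose_mul_self _) hε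
  have hA : (G.submatrix (tileEquiv S s q L) (tileEquiv S s q L)).PosDef :=
    hGpos.submatrix (tileEquiv S s q L).injective
  have h1 := fischer _ hA
  rw [det_submatrix_equiv_self] at h1
  have h2 : ∀ t : s → Fin q, ‖((G.submatrix (tileEquiv S s q L) (tileEquiv S s q L)).submatrix
      (fun x => (x, t)) (fun x => (x, t))).det‖ =
      |(boxG m L + ε • (1 : Matrix (S × (s → Fin L)) (S × (s → Fin L)) ℝ)).det| := by
    intro t
    rw [hG, block_eq m hK hq φ ε t, det_mul, det_mul, det_diagonal, det_diagonal, norm_mul,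
      norm_mul, norm_prod, norm_prod]
    have e1 : ∏ p : S × (s → Fin L), ‖ch φ (bx p.2)‖ = 1 := prod_eq_one fun p _ => norm_ch _ _
    have e2 : ∏ p : S × (s → Fin L), ‖star (ch φ (bx p.2))‖ = 1 :=
      prod_eq_one fun p _ => by rw [norm_star, norm_ch]
    have e3 : ((boxG m L + ε • (1 : Matrix (S × (s → Fin L)) (S × (s → Fin L)) ℝ)).map
        (Complex.ofReal : ℝ → ℂ)).det =
        ((boxG m L + ε • (1 : Matrix (S × (s → Fin L)) (S × (s → Fin L)) ℝ)).det : ℂ) :=
      (Complex.ofRealHom.map_det _).symm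
    rw [e1, e2, e3, one_mul, mul_one, Complex.norm_real, Real.norm_eq_abs]
  have h3 : ∏ t : s → Fin q, ‖((G.submatrix (tileEquiv S s q L) (tileEquiv S s q L)).submatrix
      (fun x => (x, t)) (fun x => (x, t))).det‖ =
      |(boxG m L + ε • (1 : Matrix (S × (s → Fin L)) (S × (s → Fin L)) ℝ)).det| ^
        (q ^ Fintype.card s) := by
    rw [prod_congr rfl fun t _ => h2 t, prod_const, card_univ]
    congr 1
    simp
  rw [h3, hG, det_perG, norm_prod] at h1
  have hpos : 0 < ∏ k : s → ZMod (q * L), ‖(sym m (φ - pt k) + (ε : ℂ) • (1 : Matrix S S ℂ)).det‖ :=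
    prod_pos fun k _ => norm_pos_iff.mpr (sym_det_ne_zero m hε _)
  have h4 := Real.log_le_log hpos h1
  rw [Real.log_prod (fun k _ => (norm_pos_iff.mpr (sym_det_ne_zero m hε _)).ne'), Real.log_pow,
    Real.log_abs] at h4
  exact_mod_cast h4

theorem integrable_log_sym (m : R → S → s → ℤ) {ε : ℝ} (hε : 0 < ε) :
    Integrable fun θ : s → UnitAddCircle =>
      Real.log ‖(sym m θ + (ε : ℂ) • (1 : Matrix S S ℂ)).det‖ := by
  have hc : Continuous fun θ : s → UnitAddCircle =>
      Real.log ‖(sym m θ + (ε : ℂ) • (1 : Matrix S S ℂ)).det‖ :=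
    (continuous_sym_det m _).norm.log fun θ => (norm_pos_iff.mpr (sym_det_ne_zero m hε _)).ne'
  exact integrableOn_univ.mp (hc.continuousOn.integrableOn_compact isCompact_univ)

/-- **One-sided Szegő inequality**, regularised. -/
theorem szego_eps (m : R → S → s → ℤ) {L : ℕ} (hL : 1 ≤ L) {ε : ℝ} (hε : 0 < ε) :
    (L : ℝ) ^ Fintype.card s *
      ∫ θ : s → UnitAddCircle, Real.log ‖(sym m θ + (ε : ℂ) • (1 : Matrix S S ℂ)).det‖ ≤
      Real.log (boxG m L + ε • (1 : Matrix (S × (s → Fin L)) (S × (s → Fin L)) ℝ)).det := by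
  obtain ⟨K, hK⟩ : ∃ K : ℕ, ∀ r a b j, |m r a j - m r b j| ≤ K := by
    refine ⟨∑ r, ∑ a, ∑ b, ∑ j, (m r a j - m r b j).natAbs, fun r a b j => ?_⟩
    rw [Int.abs_eq_natAbs]
    norm_cast
    calc (m r a j - m r b j).natAbs ≤ ∑ j, (m r a j - m r b j).natAbs :=
          single_le_sum (f := fun j => (m r a j - m r b j).natAbs) (fun _ _ => Nat.zero_le _)
            (mem_univ j)
      _ ≤ ∑ b, ∑ j, (m r a j - m r b j).natAbs :=
          single_le_sum (f := fun b => ∑ j, (m r a j - m r b j).natAbs) (fun _ _ => Nat.zero_le _)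
            (mem_univ b)
      _ ≤ ∑ a, ∑ b, ∑ j, (m r a j - m r b j).natAbs :=
          single_le_sum (f := fun a => ∑ b, ∑ j, (m r a j - m r b j).natAbs)
            (fun _ _ => Nat.zero_le _) (mem_univ a)
      _ ≤ ∑ r, ∑ a, ∑ b, ∑ j, (m r a j - m r b j).natAbs :=
          single_le_sum (f := fun r => ∑ a, ∑ b, ∑ j, (m r a j - m r b j).natAbs)
            (fun _ _ => Nat.zero_le _) (mem_univ r)
  set q : ℕ := K + 2 with hqdef
  have hq : L + K ≤ q * L := by
    rw [hqdef]
    nlinarith
  have hne : NeZero (q * L) := ⟨by positivity⟩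
  set f : (s → UnitAddCircle) → ℝ := fun θ =>
    Real.log ‖(sym m θ + (ε : ℂ) • (1 : Matrix S S ℂ)).det‖ with hf
  have hint : Integrable f := integrable_log_sym m hε
  set X := Real.log (boxG m L + ε • (1 : Matrix (S × (s → Fin L)) (S × (s → Fin L)) ℝ)).det with hX
  have hpt : ∀ φ : s → UnitAddCircle, ∑ k : s → ZMod (q * L), f (φ - pt k) ≤
      (q : ℝ) ^ Fintype.card s * X := fun φ => szego_point m hK hq φ hε
  have hinv : ∀ k : s → ZMod (q * L), ∫ φ, f (φ - pt k) = ∫ φ, f φ := fun k =>
    integral_sub_right_eq_self f (pt k)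
  have hint' : ∀ k : s → ZMod (q * L), Integrable fun φ => f (φ - pt k) := fun k =>
    hint.comp_sub_right (pt k)
  have h1 : ∫ φ, ∑ k : s → ZMod (q * L), f (φ - pt k) ≤ ∫ _φ : s → UnitAddCircle,
      (q : ℝ) ^ Fintype.card s * X := by
    apply integral_mono (integrable_finsetSum _ fun k _ => hint' k) (integrable_const _)
    exact fun φ => hpt φ
  rw [integral_finsetSum _ fun k _ => hint' k, integral_const] at h1
  simp only [hinv] at h1
  rw [sum_const, card_univ, nsmul_eq_mul] at h1
  have hcard : ((Fintype.card (s → ZMod (q * L)) : ℕ) : ℝ) =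
      (q : ℝ) ^ Fintype.card s * (L : ℝ) ^ Fintype.card s := by
    rw [Fintype.card_fun, ZMod.card]
    push_cast
    rw [mul_pow]
  have hprob : (volume : Measure (s → UnitAddCircle)).real Set.univ = 1 := by
    have : IsProbabilityMeasure (volume : Measure UnitAddCircle) :=
      ⟨by rw [UnitAddCircle.measure_univ]⟩
    have : IsProbabilityMeasure (volume : Measure (s → UnitAddCircle)) :=
      Measure.pi.instIsProbabilityMeasure _
    exact probReal_univ
  rw [hcard, hprob, one_smul, mul_assoc] at h1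
  have hqpos : (0 : ℝ) < (q : ℝ) ^ Fintype.card s := by positivity
  exact le_of_mul_le_mul_left h1 hqpos

/-- adding a multiple of the identity increases the determinant -/
theorem norm_det_le_add {ι : Type} [Fintype ι] [DecidableEq ι] {H : Matrix ι ι ℂ}
    (hH : H.PosSemidef) {ε : ℝ} (hε : 0 ≤ ε) :
    ‖H.det‖ ≤ ‖(H + (ε : ℂ) • (1 : Matrix ι ι ℂ)).det‖ := by
  have h1 : H.det = ∏ i, (hH.1.eigenvalues i : ℂ) := by
    have := hH.1.det_eq_prod_eigenvalues
    simpa using this
  have h2 : (H + (ε : ℂ) • (1 : Matrix ι ι ℂ)).det * (-1) ^ Fintype.card ι =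
      ∏ i, (-(ε : ℂ) - (hH.1.eigenvalues i : ℂ)) := by
    have h3 := congrArg (Polynomial.eval (-(ε : ℂ))) hH.1.charpoly_eq
    rw [Matrix.eval_charpoly, Polynomial.eval_prod] at h3
    have h4 : (Matrix.scalar ι (-(ε : ℂ)) - H) = -(H + (ε : ℂ) • (1 : Matrix ι ι ℂ)) := by
      ext i j
      simp [Matrix.scalar_apply, diagonal_apply, one_apply]
      by_cases hij : i = j
      · simp [hij]; ring
      · simp [hij]
    rw [h4, det_neg] at h3
    rw [mul_comm, h3]
    refine prod_congr rfl fun i _ => ?_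
    simp
  have h5 : ‖(H + (ε : ℂ) • (1 : Matrix ι ι ℂ)).det‖ = ∏ i, (ε + hH.1.eigenvalues i) := by
    have h6 := congrArg norm h2
    rw [norm_mul, norm_pow, norm_neg, norm_one, one_pow, mul_one, norm_prod] at h6
    rw [h6]
    refine prod_congr rfl fun i _ => ?_
    have : (-(ε : ℂ) - (hH.1.eigenvalues i : ℂ)) = ((-(ε + hH.1.eigenvalues i) : ℝ) : ℂ) := by
      push_cast; ring
    rw [this, Complex.norm_real, norm_neg, Real.norm_of_nonneg]
    exact add_nonneg hε (hH.eigenvalues_nonneg i)
  rw [h5, h1, norm_prod]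
  refine prod_le_prod (fun i _ => norm_nonneg _) fun i _ => ?_
  rw [Complex.norm_real, Real.norm_of_nonneg (hH.eigenvalues_nonneg i)]
  linarith

/-- **One-sided Szegő inequality.** -/
theorem szego (m : R → S → s → ℤ) {L : ℕ} (hL : 1 ≤ L)
    (hint : Integrable fun θ : s → UnitAddCircle => Real.log ‖(sym m θ).det‖)
    (hne : ∀ᵐ θ : s → UnitAddCircle, (sym m θ).det ≠ 0) :
    0 < (boxG m L).det ∧ (L : ℝ) ^ Fintype.card s *
      ∫ θ : s → UnitAddCircle, Real.log ‖(sym m θ).det‖ ≤ Real.log (boxG m L).det := by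
  set c := (L : ℝ) ^ Fintype.card s * ∫ θ : s → UnitAddCircle, Real.log ‖(sym m θ).det‖ with hc
  have h1 : ∀ ε : ℝ, 0 < ε → c ≤ Real.log
      (boxG m L + ε • (1 : Matrix (S × (s → Fin L)) (S × (s → Fin L)) ℝ)).det := by
    intro ε hε
    refine le_trans ?_ (szego_eps m hL hε)
    rw [hc]
    refine mul_le_mul_of_nonneg_left ?_ (by positivity)
    refine integral_mono_ae hint (integrable_log_sym m hε) ?_
    filter_upwards [hne] with θ hθ
    exact Real.log_le_log (norm_pos_iff.mpr hθ) (norm_det_le_add (sym_posSemidef m θ) hε.le)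
  have hcont : Continuous fun ε : ℝ =>
      (boxG m L + ε • (1 : Matrix (S × (s → Fin L)) (S × (s → Fin L)) ℝ)).det := by
    apply Continuous.matrix_det
    exact continuous_const.add (continuous_id.smul continuous_const)
  -- positivity of the regularised determinants
  have hB : (boxG m L).PosSemidef := boxG_posSemidef m L
  have hpos : ∀ ε : ℝ, 0 < ε →
      0 < (boxG m L + ε • (1 : Matrix (S × (s → Fin L)) (S × (s → Fin L)) ℝ)).det := by
    intro ε hε
    apply PosDef.det_pos
    exact PosDef.posSemidef_add hB (PosDef.one.smul hε)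
  have h2 : ∀ ε : ℝ, 0 < ε → Real.exp c ≤
      (boxG m L + ε • (1 : Matrix (S × (s → Fin L)) (S × (s → Fin L)) ℝ)).det := by
    intro ε hε
    rw [← Real.le_log_iff_exp_le (hpos ε hε)]
    exact h1 ε hε
  have h3 : Real.exp c ≤ (boxG m L).det := by
    have hlim : Filter.Tendsto (fun ε : ℝ =>
        (boxG m L + ε • (1 : Matrix (S × (s → Fin L)) (S × (s → Fin L)) ℝ)).det)
        (nhdsWithin 0 (Set.Ioi 0)) (nhds (boxG m L).det) := by
      have := (hcont.tendsto 0).mono_left (nhdsWithin_le_nhds (s := Set.Ioi (0 : ℝ)))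
      simpa using this
    refine ge_of_tendsto hlim ?_
    filter_upwards [self_mem_nhdsWithin] with ε hε
    exact h2 ε hε
  have h4 : 0 < (boxG m L).det := (Real.exp_pos c).trans_le h3
  exact ⟨h4, (Real.le_log_iff_exp_le h4).mpr h3⟩

end Pool.Agent.Lib.MP_9701dc_gt.FDA
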