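import Pool.Agent.Lib.MP_9701dc_gt.FD.Ordered
import Pool.Agent.Lib.MP_9701dc_gt.FD.SzegoBox

set_option autoImplicit false
set_option linter.unusedSectionVars false

/-!
# The faces

Vertices are pairs `(p, g)`, `p < P`, `g ∈ (ℤ/M)^d`. The blocks are the `(d+1)`-subsets of `ℤ/P`
with sum zero; in every block the faces are the `(d+1)`-tuples `(g_0, …, g_d)` with
`g_0 + ⋯ + g_d ∈ {0, e_1, …, e_d}` and all coordinates of `g_0, …, g_{d-1}` less than `L < M`.
-/

namespace Pool.Agent.Lib.MP_9701dc_gt.FDA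

open Finset Matrix Pool.Agent.Lib.MP_9701dc_gt

section vertices

variable {P M d : ℕ} [NeZero M]

/-- the vertex `(p, g)` -/
def vtx (p : Fin P) (g : Fin d → ZMod M) : Fin (P * M ^ d) :=
  finProdFinEquiv (p, finFunctionFinEquiv fun j => ⟨(g j).val, ZMod.val_lt (g j)⟩)

theorem vtx_lt {p p' : Fin P} (h : p < p') (g g' : Fin d → ZMod M) : vtx p g < vtx p' g' := by
  unfold vtx
  rw [Fin.lt_def, finProdFinEquiv_apply_val, finProdFinEquiv_apply_val]
  set a := finFunctionFinEquiv fun j => (⟨(g j).val, ZMod.val_lt (g j)⟩ : Fin M)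
  set b := finFunctionFinEquiv fun j => (⟨(g' j).val, ZMod.val_lt (g' j)⟩ : Fin M)
  have h1 : (p : ℕ) + 1 ≤ p' := h
  have h2 := a.2
  simp only
  have h3 : M ^ d * ((p : ℕ) + 1) ≤ M ^ d * (p' : ℕ) := Nat.mul_le_mul_left _ h1
  rw [Nat.mul_add] at h3
  omega

theorem vtx_inj {p p' : Fin P} {g g' : Fin d → ZMod M} (h : vtx p g = vtx p' g') :
    p = p' ∧ g = g' := by
  unfold vtx at h
  have h1 := finProdFinEquiv.injective h
  have h2 := congrArg Prod.fst h1
  have h3 := finFunctionFinEquiv.injective (congrArg Prod.snd h1)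
  refine ⟨h2, funext fun j => ?_⟩
  have h4 := congrFun h3 j
  exact ZMod.val_injective M (congrArg Fin.val h4)

end vertices

/-- blocks -/
def IsBlk {P d : ℕ} (a : Fin (d + 1) ↪o Fin P) : Prop := ∑ i, ((a i : ℕ) : ZMod P) = 0

theorem blk_unique {P d : ℕ} {a b : Fin (d + 1) ↪o Fin P} (ha : IsBlk a) (hb : IsBlk b)
    {i j : Fin (d + 1)} (h : (fc a).erase (a i) = (fc b).erase (b j)) : a = b ∧ i = j := by
  have hsum : ∀ (c : Fin (d + 1) ↪o Fin P), IsBlk c → ∀ l, ∑ v ∈ (fc c).erase (c l),
      ((v : ℕ) : ZMod P) = - ((c l : ℕ) : ZMod P) := by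
    intro c hc l
    have h1 : ∑ v ∈ fc c, ((v : ℕ) : ZMod P) = 0 := by
      rw [fc, sum_map]
      exact hc
    have h2 := sum_erase_add (fc c) (fun v => ((v : ℕ) : ZMod P)) (mem_fc.mpr ⟨l, rfl⟩)
    rw [h1] at h2
    exact eq_neg_of_add_eq_zero_left h2
  have h1 : a i = b j := by
    have h2 := hsum a ha i
    rw [h, hsum b hb j] at h2
    have h3 := neg_injective h2
    rw [ZMod.natCast_eq_natCast_iff', Nat.mod_eq_of_lt (b j).2, Nat.mod_eq_of_lt (a i).2] at h3
    exact Fin.ext h3.symm
  have h2 : fc a = fc b := by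
    rw [← insert_erase (mem_fc.mpr ⟨i, rfl⟩ : a i ∈ fc a),
      ← insert_erase (mem_fc.mpr ⟨j, rfl⟩ : b j ∈ fc b), h, h1]
  have h3 : a = b := by
    rw [← OrderEmbedding.range_inj]
    ext v
    have := congrArg (fun s => v ∈ s) h2
    simpa [mem_fc] using this
  refine ⟨h3, ?_⟩
  rw [h3] at h1
  exact b.injective h1

section faces

variable {P M d L : ℕ} [NeZero M]

/-- the position of the vertices -/
def pos (M : ℕ) (κ : Option (Fin d)) (x : Fin d × Fin d → Fin L) : Fin (d + 1) → Fin d → ZMod M :=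
  Fin.snoc (α := fun _ => Fin d → ZMod M) (fun i j => ((x (i, j) : ℕ) : ZMod M))
    (fun j => (if κ = some j then 1 else 0) - ∑ i, ((x (i, j) : ℕ) : ZMod M))

theorem pos_castSucc (κ : Option (Fin d)) (x : Fin d × Fin d → Fin L) (i : Fin d) :
    pos M κ x i.castSucc = fun j => ((x (i, j) : ℕ) : ZMod M) := by
  unfold pos
  exact Fin.snoc_castSucc (α := fun _ => Fin d → ZMod M) _ _ i

theorem pos_last (κ : Option (Fin d)) (x : Fin d × Fin d → Fin L) :
    pos M κ x (Fin.last d) =
      fun j => (if κ = some j then 1 else 0) - ∑ i, ((x (i, j) : ℕ) : ZMod M) := by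
  unfold pos
  exact Fin.snoc_last (α := fun _ => Fin d → ZMod M) _ _

/-- the faces -/
def face (M : ℕ) [NeZero M] (a : Fin (d + 1) ↪o Fin P) (κ : Option (Fin d)) (x : Fin d × Fin d → Fin L) :
    Fin (d + 1) ↪o Fin (P * M ^ d) :=
  OrderEmbedding.ofStrictMono (fun i => vtx (a i) (pos M κ x i)) fun _ _ h =>
    vtx_lt (a.strictMono h) _ _

theorem face_apply (a : Fin (d + 1) ↪o Fin P) (κ : Option (Fin d)) (x : Fin d × Fin d → Fin L)
    (i : Fin (d + 1)) : face M a κ x i = vtx (a i) (pos M κ x i) := rfl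

theorem face_aligned {a b : Fin (d + 1) ↪o Fin P} (ha : IsBlk a) (hb : IsBlk b)
    {κ κ' : Option (Fin d)} {x x' : Fin d × Fin d → Fin L} {i j : Fin (d + 1)}
    (h : (fc (face M a κ x)).erase (face M a κ x i) =
      (fc (face M b κ' x')).erase (face M b κ' x' j)) : a = b ∧ i = j := by
  apply blk_unique ha hb
  ext p
  rw [mem_erase_fc, mem_erase_fc]
  constructor
  · rintro ⟨l, hl, rfl⟩
    have h1 : face M a κ x l ∈ (fc (face M a κ x)).erase (face M a κ x i) :=
      mem_erase_fc.mpr ⟨l, hl, rfl⟩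
    rw [h] at h1
    obtain ⟨l', hl', h2⟩ := mem_erase_fc.mp h1
    rw [face_apply, face_apply] at h2
    exact ⟨l', hl', (vtx_inj h2).1⟩
  · rintro ⟨l, hl, rfl⟩
    have h1 : face M b κ' x' l ∈ (fc (face M b κ' x')).erase (face M b κ' x' j) :=
      mem_erase_fc.mpr ⟨l, hl, rfl⟩
    rw [← h] at h1
    obtain ⟨l', hl', h2⟩ := mem_erase_fc.mp h1
    rw [face_apply, face_apply] at h2
    exact ⟨l', hl', (vtx_inj h2).1⟩

theorem face_erase_iff (a : Fin (d + 1) ↪o Fin P)
    (κ κ' : Option (Fin d)) (x x' : Fin d × Fin d → Fin L) (i : Fin (d + 1)) :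
    (fc (face M a κ x)).erase (face M a κ x i) = (fc (face M a κ' x')).erase (face M a κ' x' i) ↔
      ∀ l, l ≠ i → pos M κ x l = pos M κ' x' l := by
  constructor
  · intro h l hl
    have h1 : face M a κ x l ∈ (fc (face M a κ x)).erase (face M a κ x i) :=
      mem_erase_fc.mpr ⟨l, hl, rfl⟩
    rw [h] at h1
    obtain ⟨l', hl', h2⟩ := mem_erase_fc.mp h1
    rw [face_apply, face_apply] at h2
    obtain ⟨h3, h4⟩ := vtx_inj h2
    have h5 : l' = l := a.injective h3
    rw [h5] at h4
    exact h4.symm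
  · intro h
    ext v
    rw [mem_erase_fc, mem_erase_fc]
    constructor
    · rintro ⟨l, hl, rfl⟩
      exact ⟨l, hl, by rw [face_apply, face_apply, h l hl]⟩
    · rintro ⟨l, hl, rfl⟩
      exact ⟨l, hl, by rw [face_apply, face_apply, h l hl]⟩

/-- the monomials -/
def mon (d : ℕ) (r κ : Option (Fin d)) (ij : Fin d × Fin d) : ℤ :=
  if r = some ij.1 ∧ κ = some ij.2 then -1 else 0

theorem intCast_eq_iff {a b : ℤ} (h : |a - b| < M) : ((a : ZMod M) = (b : ZMod M)) ↔ a = b := by
  rw [← sub_eq_zero, ← Int.cast_sub, ZMod.intCast_zmod_eq_zero_iff_dvd]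
  constructor
  · intro h1
    have := Int.eq_zero_of_abs_lt_dvd h1 h
    linarith
  · intro h1
    rw [h1, sub_self]
    exact dvd_zero _

theorem natCast_fin_eq_iff (hLM : L < M) (y y' : Fin L) :
    (((y : ℕ) : ZMod M) = ((y' : ℕ) : ZMod M)) ↔ ((y : ℕ) : ℤ) = ((y' : ℕ) : ℤ) := by
  have h := intCast_eq_iff (M := M) (a := ((y : ℕ) : ℤ)) (b := ((y' : ℕ) : ℤ)) (by
    have h1 := y.2
    have h2 := y'.2
    rw [abs_lt]
    constructor <;> omega)
  push_cast at h ⊢
  exact h

theorem cond_none (hLM : L < M) (κ κ' : Option (Fin d)) (x x' : Fin d × Fin d → Fin L) :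
    (∀ l, l ≠ Fin.last d → pos M κ x l = pos M κ' x' l) ↔
      ∀ ij, ((x ij : ℕ) : ℤ) + mon d none κ ij = ((x' ij : ℕ) : ℤ) + mon d none κ' ij := by
  have h0 : ∀ (κ : Option (Fin d)) ij, mon d none κ ij = 0 := fun κ ij => by simp [mon]
  simp only [h0, add_zero]
  constructor
  · rintro h ⟨i, j⟩
    have h1 := h i.castSucc (Fin.castSucc_lt_last i).ne
    rw [pos_castSucc, pos_castSucc] at h1
    exact (natCast_fin_eq_iff hLM _ _).mp (congrFun h1 j)
  · intro h l hl
    obtain ⟨i, rfl⟩ := Fin.exists_castSucc_eq.mpr hl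
    rw [pos_castSucc, pos_castSucc]
    funext j
    exact (natCast_fin_eq_iff hLM _ _).mpr (h (i, j))

theorem cond_some (hLM : L < M) (i : Fin d) (κ κ' : Option (Fin d)) (x x' : Fin d × Fin d → Fin L) :
    (∀ l, l ≠ i.castSucc → pos M κ x l = pos M κ' x' l) ↔
      ∀ ij, ((x ij : ℕ) : ℤ) + mon d (some i) κ ij = ((x' ij : ℕ) : ℤ) + mon d (some i) κ' ij := by
  have key : ∀ j, ((if κ = some j then (1 : ZMod M) else 0) - ((x (i, j) : ℕ) : ZMod M) =
      (if κ' = some j then 1 else 0) - ((x' (i, j) : ℕ) : ZMod M)) ↔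
      ((x (i, j) : ℕ) : ℤ) + mon d (some i) κ (i, j) =
        ((x' (i, j) : ℕ) : ℤ) + mon d (some i) κ' (i, j) := by
    intro j
    have hm : ∀ κ : Option (Fin d), mon d (some i) κ (i, j) = - (if κ = some j then 1 else 0) := by
      intro κ
      by_cases h : κ = some j
      · simp [mon, h]
      · simp [mon, h]
    rw [hm, hm, ← intCast_eq_iff (M := M)]
    · push_cast
      constructor
      · intro h
        linear_combination -h
      · intro h
        linear_combination -h
    · have h1 := (x (i, j)).2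
      have h2 := (x' (i, j)).2
      rw [abs_lt]
      constructor <;> split_ifs <;> omega
  constructor
  · rintro h ⟨i', j⟩
    by_cases hi : i' = i
    · subst hi
      rw [← key j]
      have h1 := congrFun (h (Fin.last d) (Fin.castSucc_lt_last i').ne') j
      rw [pos_last, pos_last] at h1
      beta_reduce at h1
      have h2 : ∑ l ∈ univ.erase i', ((x (l, j) : ℕ) : ZMod M) =
          ∑ l ∈ univ.erase i', ((x' (l, j) : ℕ) : ZMod M) := by
        refine sum_congr rfl fun l hl => ?_
        have h3 := h l.castSucc (fun hc => (mem_erase.mp hl).1 (Fin.castSucc_injective d hc))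
        rw [pos_castSucc, pos_castSucc] at h3
        exact congrFun h3 j
      rw [← sum_erase_add univ (fun l => ((x (l, j) : ℕ) : ZMod M)) (mem_univ i'),
        ← sum_erase_add univ (fun l => ((x' (l, j) : ℕ) : ZMod M)) (mem_univ i'), h2] at h1
      linear_combination h1
    · have hm : ∀ κ : Option (Fin d), mon d (some i) κ (i', j) = 0 := by
        intro κ
        unfold mon
        rw [if_neg]
        rintro ⟨h1, -⟩
        exact hi (Option.some.inj h1).symm
      rw [hm, hm, add_zero, add_zero]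
      have h3 := h i'.castSucc (fun hc => hi (Fin.castSucc_injective d hc))
      rw [pos_castSucc, pos_castSucc] at h3
      exact (natCast_fin_eq_iff hLM _ _).mp (congrFun h3 j)
  · intro h
    have h1 : ∀ l, l ≠ i → ∀ j, ((x (l, j) : ℕ) : ZMod M) = ((x' (l, j) : ℕ) : ZMod M) := by
      intro l hl j
      have h2 := h (l, j)
      have hm : ∀ κ : Option (Fin d), mon d (some i) κ (l, j) = 0 := by
        intro κ
        unfold mon
        rw [if_neg]
        rintro ⟨h1, -⟩
        exact hl (Option.some.inj h1).symm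
      rw [hm, hm, add_zero, add_zero] at h2
      exact (natCast_fin_eq_iff hLM _ _).mpr h2
    intro l hl
    induction l using Fin.lastCases with
    | last =>
      rw [pos_last, pos_last]
      funext j
      have h2 := (key j).mpr (h (i, j))
      have h3 : ∑ l ∈ univ.erase i, ((x (l, j) : ℕ) : ZMod M) =
          ∑ l ∈ univ.erase i, ((x' (l, j) : ℕ) : ZMod M) :=
        sum_congr rfl fun l hl => h1 l (mem_erase.mp hl).1 j
      rw [← sum_erase_add univ (fun l => ((x (l, j) : ℕ) : ZMod M)) (mem_univ i),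
        ← sum_erase_add univ (fun l => ((x' (l, j) : ℕ) : ZMod M)) (mem_univ i), h3]
      linear_combination h2
    | cast l =>
      rw [pos_castSucc, pos_castSucc]
      funext j
      exact h1 l (fun hc => hl (by rw [hc])) j

/-- **The Gram matrix of the faces.** -/
theorem gram_face (hLM : L < M) {a b : Fin (d + 1) ↪o Fin P} (ha : IsBlk a) (hb : IsBlk b)
    (κ κ' : Option (Fin d)) (x x' : Fin d × Fin d → Fin L) :
    (gram (fc (face M a κ x)) (fc (face M b κ' x')) : ℝ) =
      if a = b then boxG (mon d) L (κ, x) (κ', x') else 0 := by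
  by_cases hab : a = b
  · subst hab
    rw [if_pos rfl, gram_fc_aligned _ _ fun i j h => (face_aligned ha hb h).2]
    rw [Fin.sum_univ_castSucc]
    simp only [boxG, of_apply]
    rw [Fintype.sum_option, add_comm]
    push_cast
    congr 1
    · exact if_congr ((face_erase_iff a κ κ' x x' _).trans (cond_none hLM κ κ' x x')) rfl rfl
    · refine sum_congr rfl fun i _ => ?_
      exact if_congr ((face_erase_iff a κ κ' x x' _).trans (cond_some hLM i κ κ' x x')) rfl rfl
  · rw [if_neg hab, gram_fc]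
    have : ∀ i j, ¬ (fc (face M a κ x)).erase (face M a κ x i) =
        (fc (face M b κ' x')).erase (face M b κ' x' j) := fun i j h => hab (face_aligned ha hb h).1
    simp [this]

end faces

end Pool.Agent.Lib.MP_9701dc_gt.FDA
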