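import Mathlib

set_option autoImplicit false
set_option linter.unusedSectionVars false

/-!
# Fischer's inequality

The determinant of a positive definite matrix is at most the product of the determinants of its
diagonal blocks.
-/

namespace Pool.Agent.Lib.MP_9701dc_gt.FDA

open Finset Matrix
open scoped ComplexOrder MatrixOrder

variable {ι κ τ : Type} [Fintype ι] [DecidableEq ι] [Fintype κ] [DecidableEq κ] [Fintype τ]
  [DecidableEq τ]

/-- the determinant of a positive definite matrix is at most `exp (trace - card)` -/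
theorem norm_det_le_exp (H : Matrix ι ι ℂ) (hH : H.PosDef) :
    ‖H.det‖ ≤ Real.exp (H.trace.re - Fintype.card ι) := by
  have h1 : H.det = ∏ i, (hH.1.eigenvalues i : ℂ) := by
    have := hH.1.det_eq_prod_eigenvalues
    simpa using this
  have h2 : H.trace = ∑ i, (hH.1.eigenvalues i : ℂ) := by
    have := hH.1.trace_eq_sum_eigenvalues
    simpa using this
  have h3 : H.trace.re = ∑ i, hH.1.eigenvalues i := by
    rw [h2, Complex.re_sum]
    simp
  rw [h1, norm_prod, h3]
  have h4 : ∏ i, ‖(hH.1.eigenvalues i : ℂ)‖ ≤ ∏ i, Real.exp (hH.1.eigenvalues i - 1) := by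
    refine prod_le_prod (fun i _ => norm_nonneg _) fun i _ => ?_
    rw [Complex.norm_real, Real.norm_of_nonneg (hH.eigenvalues_pos i).le]
    have := Real.add_one_le_exp (hH.1.eigenvalues i - 1)
    linarith
  refine h4.trans (le_of_eq ?_)
  rw [← Real.exp_sum, sum_sub_distrib]
  simp

/-- comparison of two positive definite matrices -/
theorem norm_det_le_mul (A D : Matrix ι ι ℂ) (hA : A.PosDef) (hD : D.PosDef) :
    ‖A.det‖ ≤ ‖D.det‖ * Real.exp ((D⁻¹ * A).trace.re - Fintype.card ι) := by
  set R : Matrix ι ι ℂ := CFC.sqrt D with hR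
  have hD0 : (0 : Matrix ι ι ℂ) ≤ D := Matrix.nonneg_iff_posSemidef.mpr hD.posSemidef
  have hRR : R * R = D := CFC.sqrt_mul_sqrt_self D hD0
  have hR0 : R.PosSemidef := Matrix.nonneg_iff_posSemidef.mp (CFC.sqrt_nonneg D)
  have hdetD : D.det ≠ 0 := by
    have := hD.isUnit
    rw [Matrix.isUnit_iff_isUnit_det] at this
    exact this.ne_zero
  have hdetR : R.det ≠ 0 := by
    intro h0
    apply hdetD
    rw [← hRR, det_mul, h0, zero_mul]
  have hRunit : IsUnit R.det := isUnit_iff_ne_zero.mpr hdetR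
  have hCH : (R⁻¹)ᴴ = R⁻¹ := by
    rw [conjTranspose_nonsing_inv, hR0.1]
  have hH : (R⁻¹ * A * R⁻¹).PosDef := by
    have h1 := hA.conjTranspose_mul_mul_same (B := R⁻¹) (by
      intro x y hxy
      have h2 := congrArg (R.mulVec) hxy
      simp only [mulVec_mulVec, Matrix.mul_nonsing_inv R hRunit, one_mulVec] at h2
      exact h2)
    rwa [hCH] at h1
  have h1 := norm_det_le_exp _ hH
  have h2 : (R⁻¹ * A * R⁻¹).trace = (D⁻¹ * A).trace := by
    rw [Matrix.trace_mul_comm, ← Matrix.mul_assoc, ← Matrix.mul_inv_rev, hRR]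
  have h3 : D.det * (R⁻¹ * A * R⁻¹).det = A.det := by
    rw [← hRR, det_mul, det_mul, det_mul]
    have h4 : R.det * (R⁻¹).det = 1 := by
      rw [← det_mul, Matrix.mul_nonsing_inv R hRunit, det_one]
    calc R.det * R.det * ((R⁻¹).det * A.det * (R⁻¹).det) =
        (R.det * (R⁻¹).det) * (R.det * (R⁻¹).det) * A.det := by ring
      _ = A.det := by rw [h4]; ring
  rw [h2] at h1
  calc ‖A.det‖ = ‖D.det‖ * ‖(R⁻¹ * A * R⁻¹).det‖ := by rw [← h3, norm_mul]
    _ ≤ _ := mul_le_mul_of_nonneg_left h1 (norm_nonneg _)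

/-- **Fischer's inequality.** -/
theorem fischer (A : Matrix (κ × τ) (κ × τ) ℂ) (hA : A.PosDef) :
    ‖A.det‖ ≤ ∏ t : τ, ‖(A.submatrix (fun x : κ => (x, t)) (fun x : κ => (x, t))).det‖ := by
  set B : τ → Matrix κ κ ℂ := fun t => A.submatrix (fun x : κ => (x, t)) (fun x : κ => (x, t)) with hB
  have hBpos : ∀ t, (B t).PosDef := fun t => hA.submatrix (fun x y h => by
    simpa using h)
  set D : Matrix (κ × τ) (κ × τ) ℂ := blockDiagonal B with hDdef
  set D' : Matrix (κ × τ) (κ × τ) ℂ := blockDiagonal (fun t => (B t)⁻¹) with hD'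
  have hunit : ∀ t, IsUnit (B t).det := by
    intro t
    have := (hBpos t).isUnit
    rwa [Matrix.isUnit_iff_isUnit_det] at this
  have hDD' : D * D' = 1 := by
    rw [hDdef, hD', ← blockDiagonal_mul]
    have : (fun t => B t * (B t)⁻¹) = fun _ => (1 : Matrix κ κ ℂ) := by
      funext t
      exact Matrix.mul_nonsing_inv _ (hunit t)
    rw [this]
    exact blockDiagonal_one
  have hDinv : D⁻¹ = D' := Matrix.inv_eq_right_inv hDD'
  have hDpos : D.PosDef := by
    refine Matrix.PosDef.of_dotProduct_mulVec_pos ?_ ?_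
    · rw [Matrix.IsHermitian, hDdef, blockDiagonal_conjTranspose]
      congr 1
      funext t
      exact (hBpos t).1
    · intro x hx
      have hsum : star x ⬝ᵥ (D *ᵥ x) =
          ∑ t, star (fun k => x (k, t)) ⬝ᵥ (B t *ᵥ fun k => x (k, t)) := by
        simp only [dotProduct, mulVec, Fintype.sum_prod_type, hDdef, blockDiagonal_apply]
        rw [sum_comm]
        refine sum_congr rfl fun t _ => sum_congr rfl fun k _ => ?_
        congr 1
        refine sum_congr rfl fun k' _ => ?_
        rw [sum_eq_single t]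
        · rw [if_pos rfl]
        · intro t' _ ht'
          rw [if_neg ht'.symm, zero_mul]
        · intro h; exact absurd (mem_univ _) h
      rw [hsum]
      obtain ⟨⟨k, t⟩, hkt⟩ := Function.ne_iff.mp hx
      refine sum_pos' (fun t' _ => (hBpos t').posSemidef.dotProduct_mulVec_nonneg _) ⟨t, mem_univ _, ?_⟩
      refine (hBpos t).dotProduct_mulVec_pos ?_
      intro h0
      exact hkt (congrFun h0 k)
  have h := norm_det_le_mul A D hA hDpos
  have htr : (D⁻¹ * A).trace = (Fintype.card (κ × τ) : ℂ) := by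
    rw [hDinv]
    simp only [Matrix.trace, Matrix.diag_apply, Matrix.mul_apply, Fintype.sum_prod_type, hD',
      blockDiagonal_apply]
    have h1 : ∀ (k : κ) (t : τ), ∑ k', ∑ t', (if t = t' then (B t)⁻¹ k k' else 0) * A (k', t') (k, t) =
        ((B t)⁻¹ * B t) k k := by
      intro k t
      rw [Matrix.mul_apply]
      refine sum_congr rfl fun k' _ => ?_
      rw [sum_eq_single t]
      · rw [if_pos rfl]; rfl
      · intro t' _ ht'
        rw [if_neg ht'.symm, zero_mul]
      · intro h; exact absurd (mem_univ _) h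
    simp only [h1]
    have h2 : ∀ (k : κ) (t : τ), ((B t)⁻¹ * B t) k k = 1 := by
      intro k t
      rw [Matrix.nonsing_inv_mul _ (hunit t), Matrix.one_apply_eq]
    simp only [h2]
    simp [Fintype.card_prod]
  rw [htr] at h
  have h5 : ((Fintype.card (κ × τ) : ℂ)).re - (Fintype.card (κ × τ) : ℝ) = 0 := by simp
  rw [h5, Real.exp_zero, mul_one] at h
  refine h.trans (le_of_eq ?_)
  rw [hDdef, det_blockDiagonal, norm_prod]

end Pool.Agent.Lib.MP_9701dc_gt.FDA
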