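import Mathlib

set_option autoImplicit false

/-!
# Surjective homomorphisms between tori preserve Haar measure; normalising a row and a column
-/

namespace Pool.Agent.Lib.MP_9701dc_gt.FD

open MeasureTheory Real

theorem prob_circle : IsProbabilityMeasure (volume : Measure UnitAddCircle) :=
  ⟨UnitAddCircle.measure_univ⟩

theorem prob_torus (K : Type) [Fintype K] :
    IsProbabilityMeasure (volume : Measure (K → UnitAddCircle)) :=
  have := prob_circle
  inferInstanceAs (IsProbabilityMeasure (Measure.pi fun _ : K => (volume : Measure UnitAddCircle)))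

theorem haar_torus (K : Type) [Fintype K] :
    (volume : Measure (K → UnitAddCircle)).IsAddHaarMeasure :=
  inferInstanceAs (Measure.pi fun _ : K => (volume : Measure UnitAddCircle)).IsAddHaarMeasure

theorem prob_four :
    IsProbabilityMeasure (volume :
      Measure ((UnitAddCircle × UnitAddCircle) × (UnitAddCircle × UnitAddCircle))) :=
  have := prob_circle
  inferInstance

theorem haar_two : (volume : Measure (UnitAddCircle × UnitAddCircle)).IsAddHaarMeasure :=
  inferInstanceAs ((volume : Measure UnitAddCircle).prod
    (volume : Measure UnitAddCircle)).IsAddHaarMeasure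

theorem haar_four :
    (volume : Measure ((UnitAddCircle × UnitAddCircle) ×
      (UnitAddCircle × UnitAddCircle))).IsAddHaarMeasure :=
  have := haar_two
  have := prob_circle
  have : SFinite (volume : Measure (UnitAddCircle × UnitAddCircle)) := inferInstance
  have : MeasurableAdd (UnitAddCircle × UnitAddCircle) := inferInstance
  Measure.prod.instIsAddHaarMeasure (volume : Measure (UnitAddCircle × UnitAddCircle))
    (volume : Measure (UnitAddCircle × UnitAddCircle))

/-- the homomorphism which normalises the first row and the first column -/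
def nrm (k : ℕ) : (Fin (k + 1) × Fin (k + 1) → UnitAddCircle) →+ (Fin k × Fin k → UnitAddCircle) where
  toFun θ := fun q => θ (q.1.succ, q.2.succ) - θ (q.1.succ, 0) - θ (0, q.2.succ) + θ (0, 0)
  map_zero' := by
    funext q
    simp
  map_add' θ φ := by
    funext q
    simp only [Pi.add_apply]
    abel

theorem nrm_apply (k : ℕ) (θ : Fin (k + 1) × Fin (k + 1) → UnitAddCircle) (q : Fin k × Fin k) :
    nrm k θ q = θ (q.1.succ, q.2.succ) - θ (q.1.succ, 0) - θ (0, q.2.succ) + θ (0, 0) := rfl

theorem continuous_nrm (k : ℕ) : Continuous (nrm k) := by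
  apply continuous_pi
  intro q
  simp only [nrm_apply]
  fun_prop

theorem surjective_nrm (k : ℕ) : Function.Surjective (nrm k) := by
  intro φ
  refine ⟨fun q => Fin.cases 0 (fun i => Fin.cases 0 (fun j => φ (i, j)) q.2) q.1, ?_⟩
  funext q
  simp [nrm_apply]

theorem measurePreserving_nrm (k : ℕ) : MeasurePreserving (nrm k) volume volume := by
  have h1 := haar_torus (Fin (k + 1) × Fin (k + 1))
  have h2 := haar_torus (Fin k × Fin k)
  have h3 := prob_torus (Fin (k + 1) × Fin (k + 1))
  have h4 := prob_torus (Fin k × Fin k)
  exact AddMonoidHom.measurePreserving (continuous_nrm k) (surjective_nrm k)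
    (by rw [measure_univ, measure_univ])

/-- the determinant after normalisation -/
theorem norm_det_nrm (k : ℕ) (θ : Fin (k + 1) × Fin (k + 1) → UnitAddCircle) :
    ‖(Matrix.of fun i j : Fin (k + 1) => (AddCircle.toCircle (θ (i, j)) : ℂ)).det‖ =
      ‖(Matrix.of fun i j : Fin k => (AddCircle.toCircle (nrm k θ (i, j)) : ℂ) - 1).det‖ := by
  set u : Fin (k + 1) → ℂ := fun i => (AddCircle.toCircle (θ (i, 0)) : ℂ) with hu
  set v : Fin (k + 1) → ℂ := fun j => (AddCircle.toCircle (θ (0, j) - θ (0, 0)) : ℂ) with hv
  set N : Matrix (Fin (k + 1)) (Fin (k + 1)) ℂ := Matrix.of fun i j =>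
    (AddCircle.toCircle (θ (i, j) - θ (i, 0) - θ (0, j) + θ (0, 0)) : ℂ) with hN
  have h1 : (Matrix.of fun i j : Fin (k + 1) => (AddCircle.toCircle (θ (i, j)) : ℂ)) =
      Matrix.diagonal u * N * Matrix.diagonal v := by
    ext i j
    rw [Matrix.mul_diagonal, Matrix.diagonal_mul]
    simp only [hN, hu, hv, Matrix.of_apply]
    rw [← Circle.coe_mul, ← Circle.coe_mul, ← AddCircle.toCircle_add, ← AddCircle.toCircle_add]
    congr 2
    abel
  have h2 : N.det = (Matrix.of fun i j : Fin k =>
      (AddCircle.toCircle (nrm k θ (i, j)) : ℂ) - 1).det := by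
    set B : Matrix (Fin (k + 1)) (Fin (k + 1)) ℂ := Matrix.of fun i j =>
      N i j - (if i = 0 then 0 else 1) * N 0 j with hB
    have h3 : N.det = B.det := by
      apply Matrix.det_eq_of_forall_row_eq_smul_add_const
        (fun i : Fin (k + 1) => if i = 0 then (0 : ℂ) else 1) 0 (by simp)
      intro i j
      simp only [hB, Matrix.of_apply]
      simp
    have hN0 : ∀ i, N i 0 = 1 := by
      intro i
      simp [hN]
    have hN1 : ∀ i, N 0 i = 1 := by
      intro i
      simp [hN]
    rw [h3, Matrix.det_succ_column_zero, Fin.sum_univ_succ, Finset.sum_eq_zero, add_zero]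
    · have : B 0 0 = 1 := by
        simp [hB, hN0]
      rw [this, Fin.val_zero, pow_zero, one_mul, one_mul]
      congr 1
      ext i j
      simp only [Matrix.submatrix_apply, Fin.succAbove_zero, Matrix.of_apply, hB,
        Fin.succ_ne_zero, if_false, one_mul, hN1]
      rfl
    · intro i _
      have : B i.succ 0 = 0 := by
        simp [hB, hN0]
      rw [this, mul_zero, zero_mul]
  rw [h1, Matrix.det_mul, Matrix.det_mul, Matrix.det_diagonal, Matrix.det_diagonal, norm_mul,
    norm_mul, norm_prod, norm_prod, h2]
  simp [hu, hv]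

/-- **normalisation**: the mean over all entries equals the mean over the normalised entries -/
theorem integral_nrm (k : ℕ) :
    ∫ θ : Fin (k + 1) × Fin (k + 1) → UnitAddCircle,
      Real.log ‖(Matrix.of fun i j : Fin (k + 1) => (AddCircle.toCircle (θ (i, j)) : ℂ)).det‖ =
    ∫ θ : Fin k × Fin k → UnitAddCircle,
      Real.log ‖(Matrix.of fun i j : Fin k => (AddCircle.toCircle (θ (i, j)) : ℂ) - 1).det‖ := by
  have hc : Continuous fun θ : Fin k × Fin k → UnitAddCircle =>
      (Matrix.of fun i j : Fin k => (AddCircle.toCircle (θ (i, j)) : ℂ) - 1).det := by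
    apply Continuous.matrix_det
    apply continuous_matrix
    intro i j
    simp only [Matrix.of_apply]
    exact (continuous_subtype_val.comp
      (AddCircle.continuous_toCircle.comp (continuous_apply (i, j)))).sub continuous_const
  simp_rw [norm_det_nrm]
  rw [← (measurePreserving_nrm k).map_eq]
  rw [integral_map (measurePreserving_nrm k).measurable.aemeasurable]
  exact (Real.measurable_log.comp hc.norm.measurable).aestronglyMeasurable

end Pool.Agent.Lib.MP_9701dc_gt.FD
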