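import Mathlib

set_option autoImplicit false
set_option linter.unusedSectionVars false

/-!
# The logarithm of a polynomial is integrable on the torus
-/

namespace Pool.Agent.Lib.MP_9701dc_gt.FDA

open MeasureTheory Real

/-- the points of the unit circle -/
noncomputable def ee (t : UnitAddCircle) : ℂ := (AddCircle.toCircle t : ℂ)

theorem ee_eq_fourier (t : UnitAddCircle) : ee t = fourier 1 t := fourier_one.symm

theorem continuous_ee : Continuous ee := by
  unfold ee
  exact continuous_subtype_val.comp AddCircle.continuous_toCircle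

theorem norm_ee (t : UnitAddCircle) : ‖ee t‖ = 1 := Circle.norm_coe _

theorem ee_coe (x : ℝ) : ee (x : UnitAddCircle) = circleMap 0 1 (2 * π * x) := by
  rw [ee_eq_fourier, fourier_coe_apply]
  simp only [circleMap, Int.cast_one, Complex.ofReal_one, mul_one, one_mul, zero_add, div_one]
  congr 1
  push_cast
  ring

theorem integral_ee (f : ℂ → ℝ) : ∫ t : UnitAddCircle, f (ee t) = circleAverage f 0 1 := by
  rw [← UnitAddCircle.intervalIntegral_preimage 0 (fun t => f (ee t)), circleAverage_def]
  simp only [ee_coe, zero_add]
  rw [intervalIntegral.integral_comp_mul_left (fun θ => f (circleMap 0 1 θ)) (by positivity)]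
  simp

theorem integrable_ee {f : ℂ → ℝ} (hf : CircleIntegrable f 0 1)
    (hm : AEStronglyMeasurable (fun t : UnitAddCircle => f (ee t)) volume) :
    Integrable fun t : UnitAddCircle => f (ee t) := by
  have h1 := AddCircle.measurePreserving_mk (T := 1) 0
  rw [← h1.integrable_comp hm]
  have h2 : IntervalIntegrable (fun x : ℝ => f (circleMap 0 1 (2 * π * x))) volume 0 1 := by
    have h3 : IntervalIntegrable (fun θ : ℝ => f (circleMap 0 1 θ)) volume 0 (2 * π) := hf
    have h4 := h3.comp_mul_left (c := 2 * π)
    simpa [Real.pi_ne_zero] using h4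
  rw [intervalIntegrable_iff_integrableOn_Ioc_of_le zero_le_one] at h2
  have h5 : (fun t : UnitAddCircle => f (ee t)) ∘ ((↑) : ℝ → UnitAddCircle) =
      fun x : ℝ => f (circleMap 0 1 (2 * π * x)) := by
    funext x
    simp only [Function.comp, ee_coe]
  rw [h5, zero_add]
  exact h2

/-- one variable -/
theorem integrable_poly (p : Polynomial ℂ) :
    Integrable fun t : UnitAddCircle => Real.log ‖p.eval (ee t)‖ := by
  apply integrable_ee (f := fun z => Real.log ‖p.eval z‖)
  · rw [circleIntegrable_def]
    exact p.intervalIntegrable_mahlerMeasure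
  · apply Measurable.aestronglyMeasurable
    exact (Real.measurable_log.comp ((p.continuous.comp continuous_ee).norm.measurable))

theorem ae_poly {p : Polynomial ℂ} (hp : p ≠ 0) :
    ∀ᵐ t : UnitAddCircle, p.eval (ee t) ≠ 0 := by
  have hinj : Function.Injective ee := by
    intro s t h
    unfold ee at h
    exact AddCircle.injective_toCircle one_ne_zero (Subtype.ext h)
  have hfin : {t : UnitAddCircle | p.eval (ee t) = 0}.Finite := by
    have h1 : {t : UnitAddCircle | p.eval (ee t) = 0} = ee ⁻¹' {z | p.IsRoot z} := rfl
    rw [h1]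
    exact (p.rootSet_finite ℂ |>.subset (by
      intro z hz
      rw [Polynomial.mem_rootSet]
      exact ⟨hp, by simpa using hz⟩)).preimage hinj.injOn
  rw [ae_iff]
  simp only [ne_eq, not_not]
  have hmp := AddCircle.measurePreserving_mk (T := 1) 0
  have hms : MeasurableSet {t : UnitAddCircle | p.eval (ee t) = 0} := hfin.measurableSet
  rw [← hmp.measure_preimage hms.nullMeasurableSet, Measure.restrict_apply (hmp.measurable hms)]
  have hfin2 : (((↑) : ℝ → UnitAddCircle) ⁻¹' {t : UnitAddCircle | p.eval (ee t) = 0} ∩
      Set.Ioc 0 (0 + 1)).Finite := by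
    refine Set.Finite.of_injOn (f := ((↑) : ℝ → UnitAddCircle)) (fun x hx => hx.1) ?_ hfin
    intro x hx y hy hxy
    have : Fact ((0 : ℝ) < 1) := ⟨one_pos⟩
    exact (AddCircle.coe_eq_coe_iff_of_mem_Ioc hx.2 hy.2).mp hxy
  exact hfin2.measure_zero _

theorem integral_poly_ge {p : Polynomial ℂ} (hp : p ≠ 0) :
    Real.log ‖p.leadingCoeff‖ ≤ ∫ t : UnitAddCircle, Real.log ‖p.eval (ee t)‖ := by
  rw [integral_ee (fun z => Real.log ‖p.eval z‖)]
  have h1 := p.leadingCoeff_le_mahlerMeasure
  rw [p.mahlerMeasure_def_of_ne_zero hp] at h1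
  have h2 : 0 < ‖p.leadingCoeff‖ := norm_pos_iff.mpr (by simpa using hp)
  have h3 := Real.log_le_log h2 h1
  rw [Real.log_exp] at h3
  exact h3

/-- the point of the torus -/
noncomputable def et {σ : Type} (θ : σ → UnitAddCircle) : σ → ℂ := fun i => ee (θ i)

theorem continuous_eval {σ : Type} [Fintype σ] (P : MvPolynomial σ ℂ) :
    Continuous fun θ : σ → UnitAddCircle => MvPolynomial.eval (et θ) P := by
  have h1 : Continuous fun θ : σ → UnitAddCircle => et θ := by
    apply continuous_pi
    intro i
    exact continuous_ee.comp (continuous_apply i)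
  exact (MvPolynomial.continuous_eval P).comp h1

theorem measurable_log_eval {σ : Type} [Fintype σ] (P : MvPolynomial σ ℂ) :
    Measurable fun θ : σ → UnitAddCircle => Real.log ‖MvPolynomial.eval (et θ) P‖ :=
  Real.measurable_log.comp (continuous_eval P).norm.measurable

/-- **Integrability.** -/
theorem integrable_fin : ∀ (n : ℕ) (P : MvPolynomial (Fin n) ℂ), P ≠ 0 →
    (∀ᵐ θ : Fin n → UnitAddCircle, MvPolynomial.eval (et θ) P ≠ 0) ∧
    Integrable fun θ : Fin n → UnitAddCircle => Real.log ‖MvPolynomial.eval (et θ) P‖ := by
  have hprob : IsProbabilityMeasure (volume : Measure UnitAddCircle) :=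
    ⟨by rw [UnitAddCircle.measure_univ]⟩
  have hprobn : ∀ n : ℕ, IsProbabilityMeasure (volume : Measure (Fin n → UnitAddCircle)) :=
    fun n => Measure.pi.instIsProbabilityMeasure _
  intro n
  induction n with
  | zero =>
    intro P hP
    have h1 : ∀ θ : Fin 0 → UnitAddCircle, MvPolynomial.eval (et θ) P =
        MvPolynomial.eval (fun i => i.elim0) P := by
      intro θ
      congr 2
      funext i
      exact i.elim0
    obtain ⟨c, hc⟩ := MvPolynomial.C_surjective (R := ℂ) (Fin 0) P
    have h2 : MvPolynomial.eval (fun i : Fin 0 => (i.elim0 : ℂ)) P ≠ 0 := by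
      rw [← hc, MvPolynomial.eval_C]
      intro h0
      apply hP
      rw [← hc, h0, map_zero]
    simp only [h1]
    exact ⟨Filter.Eventually.of_forall fun _ => h2, integrable_const _⟩
  | succ n ih =>
    intro P hP
    set Q := MvPolynomial.finSuccEquiv ℂ n P with hQ
    have hQ0 : Q ≠ 0 := by
      intro h0
      apply hP
      exact (MvPolynomial.finSuccEquiv ℂ n).injective (by rw [map_zero]; exact h0)
    set q := Q.leadingCoeff with hq
    have hq0 : q ≠ 0 := Polynomial.leadingCoeff_ne_zero.mpr hQ0
    obtain ⟨ih1, ih2⟩ := ih q hq0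
    -- the fibres
    set p : (Fin n → UnitAddCircle) → Polynomial ℂ := fun θ => Q.map (MvPolynomial.eval (et θ)) with hp
    have hlead : ∀ θ, MvPolynomial.eval (et θ) q ≠ 0 →
        (p θ).leadingCoeff = MvPolynomial.eval (et θ) q := by
      intro θ hθ
      exact Polynomial.leadingCoeff_map_of_leadingCoeff_ne_zero _ hθ
    have hp0 : ∀ θ, MvPolynomial.eval (et θ) q ≠ 0 → p θ ≠ 0 := by
      intro θ hθ h0
      have := hlead θ hθ
      rw [h0, Polynomial.leadingCoeff_zero] at this
      exact hθ this.symm
    have heval : ∀ (t : UnitAddCircle) (θ : Fin n → UnitAddCircle),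
        MvPolynomial.eval (et (Fin.cons t θ : Fin (n + 1) → UnitAddCircle)) P =
          (p θ).eval (ee t) := by
      intro t θ
      have h1 : et (Fin.cons t θ : Fin (n + 1) → UnitAddCircle) = Fin.cons (ee t) (et θ) := by
        funext i
        refine Fin.cases ?_ (fun j => ?_) i
        · simp [et]
        · simp [et]
      rw [h1, MvPolynomial.eval_eq_eval_mv_eval']
    -- upper bound
    obtain ⟨C, hC1, hC⟩ : ∃ C : ℝ, 1 ≤ C ∧ ∀ θ : Fin (n + 1) → UnitAddCircle,
        ‖MvPolynomial.eval (et θ) P‖ ≤ C := by
      obtain ⟨C, hC⟩ := isCompact_univ.exists_bound_of_continuousOn (continuous_eval P).continuousOn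
      exact ⟨max 1 C, le_max_left _ _, fun θ => (hC θ (Set.mem_univ _)).trans (le_max_right _ _)⟩
    -- the measurable equivalence
    set e := MeasurableEquiv.piFinSuccAbove (fun _ : Fin (n + 1) => UnitAddCircle) 0 with he
    have hmp : MeasurePreserving e volume volume :=
      volume_preserving_piFinSuccAbove (fun _ : Fin (n + 1) => UnitAddCircle) 0
    have hsymm : ∀ z : UnitAddCircle × (Fin n → UnitAddCircle), e.symm z = Fin.cons z.1 z.2 := by
      intro z
      rw [he]
      simp [MeasurableEquiv.piFinSuccAbove, Fin.insertNthEquiv]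
    set F : UnitAddCircle × (Fin n → UnitAddCircle) → ℝ := fun z => Real.log ‖(p z.2).eval (ee z.1)‖
      with hF
    have hFe : ∀ θ : Fin (n + 1) → UnitAddCircle, Real.log ‖MvPolynomial.eval (et θ) P‖ = F (e θ) := by
      intro θ
      have h1 : θ = Fin.cons (e θ).1 (e θ).2 := by
        rw [← hsymm, MeasurableEquiv.symm_apply_apply]
      rw [hF]
      simp only
      rw [← heval, ← h1]
    have hFm : Measurable F := by
      have h1 : F = (fun θ : Fin (n + 1) → UnitAddCircle => Real.log ‖MvPolynomial.eval (et θ) P‖) ∘
          e.symm := by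
        funext z
        rw [Function.comp, hFe, MeasurableEquiv.apply_symm_apply]
      rw [h1]
      exact (measurable_log_eval P).comp e.symm.measurable
    have hFint : Integrable F (volume.prod volume) := by
      rw [integrable_prod_iff' hFm.aestronglyMeasurable]
      refine ⟨Filter.Eventually.of_forall fun θ => integrable_poly (p θ), ?_⟩
      have hbound : ∀ᵐ θ : Fin n → UnitAddCircle, ‖∫ t : UnitAddCircle, ‖F (t, θ)‖‖ ≤
          2 * Real.log C + ‖Real.log ‖MvPolynomial.eval (et θ) q‖‖ := by
        filter_upwards [ih1] with θ hθ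
        rw [Real.norm_of_nonneg (integral_nonneg fun t => norm_nonneg _)]
        have hi : Integrable fun t : UnitAddCircle => Real.log ‖(p θ).eval (ee t)‖ :=
          integrable_poly (p θ)
        have h1 : ∀ t : UnitAddCircle, ‖F (t, θ)‖ ≤ 2 * Real.log C - F (t, θ) := by
          intro t
          have h2 : F (t, θ) ≤ Real.log C := by
            rw [hF]
            simp only
            rw [← heval]
            rcases (norm_nonneg (MvPolynomial.eval (et (Fin.cons t θ : Fin (n + 1) → UnitAddCircle))
              P)).eq_or_lt with h0 | h0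
            · rw [← h0, Real.log_zero]
              exact Real.log_nonneg hC1
            · exact Real.log_le_log h0 (hC _)
          have h3 : 0 ≤ Real.log C := Real.log_nonneg hC1
          rw [Real.norm_eq_abs, abs_le]
          constructor <;> linarith
        have h2 : ∫ t : UnitAddCircle, ‖F (t, θ)‖ ≤ ∫ t : UnitAddCircle, (2 * Real.log C - F (t, θ)) :=
          integral_mono hi.norm ((integrable_const _).sub hi) h1
        have h3 : ∫ t : UnitAddCircle, (2 * Real.log C - F (t, θ)) =
            2 * Real.log C - ∫ t : UnitAddCircle, Real.log ‖(p θ).eval (ee t)‖ := by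
          have : (fun t : UnitAddCircle => 2 * Real.log C - F (t, θ)) =
              fun t => 2 * Real.log C - Real.log ‖(p θ).eval (ee t)‖ := rfl
          rw [this, integral_sub (integrable_const _) hi, integral_const]
          simp
        have h4 := integral_poly_ge (hp0 θ hθ)
        rw [hlead θ hθ] at h4
        have h5 : -Real.log ‖MvPolynomial.eval (et θ) q‖ ≤
            ‖Real.log ‖MvPolynomial.eval (et θ) q‖‖ := by
          rw [Real.norm_eq_abs]
          exact neg_le_abs _
        linarith
      refine Integrable.mono' ((integrable_const (2 * Real.log C)).add ih2.norm) ?_ hbound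
      have := hFm.norm.stronglyMeasurable.integral_prod_left' (μ := (volume : Measure UnitAddCircle))
      exact this.aestronglyMeasurable
    constructor
    · have h1 : ∀ᵐ z ∂(volume.prod volume : Measure (UnitAddCircle × (Fin n → UnitAddCircle))),
          (p z.2).eval (ee z.1) ≠ 0 := by
        have hms : MeasurableSet {z : UnitAddCircle × (Fin n → UnitAddCircle) |
            ¬ (p z.2).eval (ee z.1) ≠ 0} := by
          have h2 : {z : UnitAddCircle × (Fin n → UnitAddCircle) | ¬ (p z.2).eval (ee z.1) ≠ 0} =
              e.symm ⁻¹' {θ | MvPolynomial.eval (et θ) P = 0} := by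
            ext z
            simp only [Set.mem_ofPred_eq, Set.mem_preimage, not_not]
            rw [hsymm, heval]
          rw [h2]
          exact e.symm.measurable (isClosed_singleton.preimage (continuous_eval P)).measurableSet
        rw [ae_iff, Measure.prod_apply_symm hms,
          lintegral_eq_zero_iff (measurable_measure_prodMk_right hms)]
        filter_upwards [ih1] with θ hθ
        have h3 : volume {t : UnitAddCircle | ¬ (p θ).eval (ee t) ≠ 0} = 0 :=
          ae_iff.mp (ae_poly (hp0 θ hθ))
        exact h3
      have h2 := hmp.quasiMeasurePreserving.ae h1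
      filter_upwards [h2] with θ hθ
      have h3 : θ = Fin.cons (e θ).1 (e θ).2 := by
        rw [← hsymm, MeasurableEquiv.symm_apply_apply]
      rw [h3, heval]
      exact hθ
    · have h1 : (fun θ : Fin (n + 1) → UnitAddCircle => Real.log ‖MvPolynomial.eval (et θ) P‖) =
          F ∘ e := by
        funext θ
        exact hFe θ
      rw [h1]
      exact (hmp.integrable_comp_emb e.measurableEmbedding).mpr hFint

end Pool.Agent.Lib.MP_9701dc_gt.FDA
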