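import Pool.Agent.Lib.MP_9701dc_gt.FD.WMinor

set_option autoImplicit false

/-!
# A large minor, weighted logarithmic form
-/

namespace Pool.Agent.Lib.MP_9701dc_gt.FD

open Finset

theorem exists_minor_weighted {ι κ : Type} [Fintype ι] [DecidableEq ι] [Fintype κ] [DecidableEq κ]
    (A : Matrix ι κ ℝ) (w : κ → ℝ) (hw : ∀ j, 0 < w j)
    (hA : 0 < (A * Matrix.diagonal w * A.transpose).det) {z : ℝ} (hz : 0 < z) :
    ∃ c : ι → κ, (A.submatrix id c).det ≠ 0 ∧
      Real.log (A * Matrix.diagonal w * A.transpose).det ≤ -(Fintype.card ι : ℝ) * Real.log z +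
        ∑ j, Real.log (1 + z * w j) + Real.log ((A.submatrix id c).det ^ 2) := by
  obtain ⟨c, -, hc⟩ := FDA.exists_minor_weighted A w (fun j => (hw j).le) hA hz
  have h1 : ∀ j, 0 < 1 + z * w j := fun j => by
    have := mul_pos hz (hw j)
    linarith
  have hP : 0 < ∏ j, (1 + z * w j) := prod_pos fun j _ => h1 j
  have hz' : 0 < z ^ Fintype.card ι := pow_pos hz _
  have hx : 0 < (A.submatrix id c).det ^ 2 :=
    (pos_iff_pos_of_mul_pos (lt_of_lt_of_le (mul_pos hz' hA) hc)).mp hP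
  refine ⟨c, fun h0 => by rw [h0] at hx; simp at hx, ?_⟩
  have h2 := Real.log_le_log (mul_pos hz' hA) hc
  rw [Real.log_mul hz'.ne' hA.ne', Real.log_mul hP.ne' hx.ne', Real.log_pow,
    Real.log_prod fun j _ => (h1 j).ne'] at h2
  linarith

end Pool.Agent.Lib.MP_9701dc_gt.FD
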