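import Pool.Agent.Lib.MP_9701dc_gt.GR.Reduced

set_option autoImplicit false
set_option linter.unusedSectionVars false

/-!
# The weighted reduced Laplacian

If the faces `f i` avoid the vertex `v` and no two of them have a common ridge, then giving them
the weight `1 + t` (and all other faces the weight `1`) multiplies the determinant of the reduced
Laplacian of the complete complex by `(1 + t (d+1) / n) ^ |ι|`.
-/

namespace Pool.Agent.Lib.MP_9701dc_gt.FDA

open Finset Pool.Agent.Lib.MP_9701dc_gt Pool.Agent.Lib.MP_9701dc_gt.GR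

variable {n d : ℕ} {ι : Type} [Fintype ι] [DecidableEq ι]

/-- the columns of the special faces -/
def B0 (v : Fin n) (f : ι → Face n d) : Matrix (Row n d v) ι ℝ := fun σ i => (inc σ.1 (f i).1 : ℝ)

/-- the weights -/
noncomputable def wt (f : ι → Face n d) (t : ℝ) (τ : Face n d) : ℝ :=
  1 + ∑ i, if f i = τ then t else 0

theorem sum_rows_inc {v : Fin n} {τ : Face n d} (hv : v ∉ τ.1) (F : Finset (Fin n) → ℤ) :
    ∑ σ : Row n d v, F σ.1 * inc σ.1 τ.1 = ∑ σ : Finset (Fin n), F σ * inc σ τ.1 := by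
  have h1 : ∑ σ : Row n d v, F σ.1 * inc σ.1 τ.1 = ∑ σ ∈ rows n d v, F σ * inc σ τ.1 :=
    sum_coe_sort (rows n d v) fun σ => F σ * inc σ τ.1
  rw [h1]
  refine sum_subset (subset_univ _) fun σ _ hσ => ?_
  have : inc σ τ.1 = 0 := by
    by_contra hne
    obtain ⟨u, hu, hue⟩ := inc_ne_zero hne
    apply hσ
    rw [mem_rows]
    constructor
    · have := τ.2
      rw [hue, card_insert_of_notMem hu] at this
      omega
    · intro h
      apply hv
      rw [hue]
      exact mem_insert_of_mem h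
  rw [this, mul_zero]

theorem Brr_mul_B0 {v : Fin n} {f : ι → Face n d} (hv : ∀ i, v ∉ (f i).1) :
    Brr n d v * B0 v f = 0 := by
  ext ρ i
  rw [Matrix.mul_apply, Matrix.zero_apply]
  have h1 := sum_rows_inc (hv i) fun σ => inc ρ σ
  rw [inc_comp] at h1
  have h2 : (∑ σ : Row n d v, (inc ρ σ.1 : ℝ) * (inc σ.1 (f i).1 : ℝ)) = 0 := by
    exact_mod_cast h1
  exact h2

theorem M_mul_B0 {v : Fin n} {f : ι → Face n d} (hv : ∀ i, v ∉ (f i).1) :
    Arr n d v * (Arr n d v).transpose * B0 v f = (n : ℝ) • B0 v f := by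
  rw [mul_transpose_eq, Matrix.sub_mul, Matrix.smul_mul, Matrix.one_mul, Matrix.mul_assoc,
    Brr_mul_B0 hv, Matrix.mul_zero, sub_zero]

theorem B0_gram {v : Fin n} {f : ι → Face n d} (hv : ∀ i, v ∉ (f i).1)
    (hg : ∀ i j, gram (f i).1 (f j).1 = if i = j then (d : ℤ) + 1 else 0) :
    (B0 v f).transpose * B0 v f = ((d : ℝ) + 1) • (1 : Matrix ι ι ℝ) := by
  ext i j
  rw [Matrix.mul_apply, Matrix.smul_apply, Matrix.one_apply]
  have h1 := sum_rows_inc (hv j) fun σ => inc σ (f i).1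
  have h2 : ∑ σ : Row n d v, (inc σ.1 (f i).1 : ℝ) * (inc σ.1 (f j).1 : ℝ) =
      ((gram (f i).1 (f j).1 : ℤ) : ℝ) := by
    unfold gram
    rw [← h1]
    push_cast
    rfl
  change ∑ σ : Row n d v, (inc σ.1 (f i).1 : ℝ) * (inc σ.1 (f j).1 : ℝ) = _
  rw [h2, hg]
  split_ifs <;> simp

theorem weighted_eq (v : Fin n) (f : ι → Face n d) (t : ℝ) :
    Arr n d v * Matrix.diagonal (wt f t) * (Arr n d v).transpose =
      Arr n d v * (Arr n d v).transpose + t • (B0 v f * (B0 v f).transpose) := by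
  ext σ σ'
  rw [Matrix.mul_apply, Matrix.add_apply, Matrix.mul_apply, Matrix.smul_apply, Matrix.mul_apply]
  simp only [Matrix.mul_diagonal, Matrix.transpose_apply, smul_eq_mul, wt]
  have h1 : ∀ τ : Face n d, Arr n d v σ τ * (1 + ∑ i, if f i = τ then t else 0) * Arr n d v σ' τ =
      Arr n d v σ τ * Arr n d v σ' τ +
        ∑ i, if f i = τ then t * (Arr n d v σ τ * Arr n d v σ' τ) else 0 := by
    intro τ
    have h2 : (∑ i, if f i = τ then t * (Arr n d v σ τ * Arr n d v σ' τ) else 0) =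
        (∑ i, if f i = τ then t else 0) * (Arr n d v σ τ * Arr n d v σ' τ) := by
      rw [sum_mul]
      refine sum_congr rfl fun i _ => ?_
      split_ifs <;> simp
    rw [h2]; ring
  rw [sum_congr rfl fun τ _ => h1 τ, sum_add_distrib]
  congr 1
  rw [sum_comm, mul_sum]
  refine sum_congr rfl fun i _ => ?_
  rw [sum_eq_single (f i)]
  · rw [if_pos rfl]; rfl
  · intro τ _ hτ
    rw [if_neg fun h => hτ h.symm]
  · intro h; exact absurd (mem_univ _) h

theorem det_weighted (hn : 2 ≤ n) {v : Fin n} {f : ι → Face n d} (hv : ∀ i, v ∉ (f i).1)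
    (hg : ∀ i j, gram (f i).1 (f j).1 = if i = j then (d : ℤ) + 1 else 0) {t : ℝ} (ht : 0 ≤ t) :
    0 < (Arr n d v * Matrix.diagonal (wt f t) * (Arr n d v).transpose).det ∧
    Real.log (Arr n d v * Matrix.diagonal (wt f t) * (Arr n d v).transpose).det =
      (Fintype.card (Row n d v) : ℝ) * ((n : ℝ) - d - 1) / ((n : ℝ) - 1) * Real.log n +
        (Fintype.card ι : ℝ) * Real.log (1 + t * (d + 1) / n) := by
  obtain ⟨h1, h2⟩ := det_reduced (d := d) hn v
  have hn0 : (0 : ℝ) < n := by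
    have : 0 < n := by omega
    exact_mod_cast this
  have h3 : Arr n d v * (Arr n d v).transpose + t • (B0 v f * (B0 v f).transpose) =
      Arr n d v * (Arr n d v).transpose * (1 + ((t / n) • B0 v f) * (B0 v f).transpose) := by
    rw [Matrix.mul_add, Matrix.mul_one, ← Matrix.mul_assoc, Matrix.mul_smul, M_mul_B0 hv, smul_smul,
      div_mul_cancel₀ _ hn0.ne', Matrix.smul_mul]
  have h4 : (Arr n d v * Matrix.diagonal (wt f t) * (Arr n d v).transpose).det =
      (Arr n d v * (Arr n d v).transpose).det * (1 + t * (d + 1) / n) ^ Fintype.card ι := by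
    rw [weighted_eq, h3, Matrix.det_mul, Matrix.det_one_add_mul_comm, Matrix.mul_smul, B0_gram hv hg,
      smul_smul]
    have h5 : (1 : Matrix ι ι ℝ) + (t / n * ((d : ℝ) + 1)) • (1 : Matrix ι ι ℝ) =
        (1 + t * (d + 1) / n) • (1 : Matrix ι ι ℝ) := by
      rw [add_smul, one_smul]
      congr 2
      ring
    rw [h5, Matrix.det_smul, Matrix.det_one, mul_one]
  have h6 : (0 : ℝ) < 1 + t * (d + 1) / n := by positivity
  rw [h4]
  refine ⟨mul_pos h1 (pow_pos h6 _), ?_⟩
  rw [Real.log_mul h1.ne' (pow_pos h6 _).ne', Real.log_pow, h2]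

end Pool.Agent.Lib.MP_9701dc_gt.FDA
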