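import Pool.Agent.Lib.MP_9701dc_gt.FD.K1a
import Pool.Agent.Lib.MP_9701dc_gt.FD.K1b
import Pool.Agent.Lib.MP_9701dc_gt.FD.Completion
import Pool.Agent.Lib.MP_9701dc_gt.FD.Count

set_option autoImplicit false
set_option linter.unusedSectionVars false

/-!
# An explicit lower bound for every dimension

`2 (d+1)! λ_d ≥ d (log d - 1) + log (d+1)`: the faces of the partial Steiner system
`{x : ∑ x = 0 mod n}` get a large weight, all other faces the weight one.
-/

namespace Pool.Agent.Lib.MP_9701dc_gt.FDA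

open Finset Filter Topology
open Pool.Agent.Results.MP_9701dc_gt.TorsionBound Pool.Agent.Lib.MP_9701dc_gt
open Pool.Agent.Lib.MP_9701dc_gt.GR

theorem tors_of_faces {N d : ℕ} (hd : 2 ≤ d) (v : Fin N) (hne : Nonempty (Row N d v))
    (c : Row N d v → Face N d) (hdet : ((Arr N d v).submatrix id c).det ≠ 0) :
    Real.log (((Arr N d v).submatrix id c).det ^ 2) ≤ 2 * Real.log (Tmax N d) := by
  obtain ⟨m, rfl⟩ : ∃ m, d = m + 1 := ⟨d - 1, by omega⟩
  set A : Matrix (Row N (m + 1) v) (Row N (m + 1) v) ℤ :=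
    Matrix.of fun i σ : Row N (m + 1) v => inc σ.1 (c i).1 with hA
  have hAe : ∀ i σ, A i σ = inc σ.1 (c i).1 := fun i σ => rfl
  have hdetA : ((Arr N (m + 1) v).submatrix id c).det = (A.det : ℝ) := by
    rw [← Matrix.det_transpose]
    have h1 : ((Arr N (m + 1) v).submatrix id c).transpose = A.map (Int.cast : ℤ → ℝ) := by
      ext i σ
      simp [Arr, hA]
    rw [h1]
    exact ((Int.castRingHom ℝ).map_det _).symm
  rw [hdetA] at hdet ⊢
  clear_value A
  have hdet' : A.det ≠ 0 := by exact_mod_cast hdet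
  obtain ⟨S, hS⟩ : ∃ S : Finset (Finset (Fin N)),
      S = univ.image fun i : Row N (m + 1) v => (c i).1 := ⟨_, rfl⟩
  have hfac : ∀ σ ∈ S, σ.card = m + 1 + 1 := by
    intro σ hσ
    rw [hS] at hσ
    obtain ⟨i, _, rfl⟩ := mem_image.mp hσ
    exact (c i).2
  have hmemS : ∃ σ ∈ S, σ.card = m + 1 + 1 := by
    obtain ⟨i⟩ := hne
    refine ⟨(c i).1, ?_, (c i).2⟩
    rw [hS]
    exact mem_image.mpr ⟨i, mem_univ _, rfl⟩
  have h1 : A.det.natAbs ≤ tors (skel (m + 1) S) m := by
    rw [hS]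
    exact tors_skel (by omega) v (fun i => (c i).1) (fun i => (c i).2) A hAe hdet'
  have hXc : IsComplex (skel (m + 1) S) := isComplex_skel (by omega) hfac
  have hXd : IsDim (m + 1) (skel (m + 1) S) := by
    obtain ⟨σ, hσ, hσc⟩ := hmemS
    exact ⟨⟨σ, mem_skel.mpr (Or.inr hσ), hσc⟩, fun σ hσ => card_le_of_mem_skel hfac hσ⟩
  have h2' := le_Tmax hXc hXd
  rw [Nat.add_sub_cancel] at h2'
  have h2 : A.det.natAbs ≤ Tmax N (m + 1) := h1.trans h2'
  rw [Real.log_pow]
  have h4 : |(A.det : ℝ)| ≤ (Tmax N (m + 1) : ℝ) := by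
    rw [← Int.cast_abs, Int.abs_eq_natAbs]
    exact_mod_cast h2
  have h5 : (0 : ℝ) < |(A.det : ℝ)| := by
    rw [abs_pos]
    exact_mod_cast hdet
  have h6 := Real.log_le_log h5 h4
  rw [Real.log_abs] at h6
  rw [Nat.cast_ofNat]
  linarith

variable {n d : ℕ}

/-- the special faces -/
def sf (a : Blk n d) : Face (n + 1) d :=
  ⟨fc (a.1.trans (emb n)), card_fc _⟩

theorem last_notMem_sf (a : Blk n d) : Fin.last n ∉ (sf a).1 := by
  intro h
  obtain ⟨i, hi⟩ := mem_fc.mp h
  exact (Fin.castSucc_lt_last (a.1 i)).ne hi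

theorem erase_sf (a : Fin (d + 1) ↪o Fin n) (i : Fin (d + 1)) :
    (fc (a.trans (emb n))).erase ((a.trans (emb n)) i) =
      ((fc a).erase (a i)).map (emb n).toEmbedding := by
  ext v
  rw [mem_erase_fc, Finset.mem_map]
  constructor
  · rintro ⟨l, hl, rfl⟩
    exact ⟨a l, mem_erase_fc.mpr ⟨l, hl, rfl⟩, rfl⟩
  · rintro ⟨u, hu, rfl⟩
    obtain ⟨l, hl, rfl⟩ := mem_erase_fc.mp hu
    exact ⟨l, hl, rfl⟩

theorem gram_sf (a b : Blk n d) :
    gram (sf a).1 (sf b).1 = if a = b then (d : ℤ) + 1 else 0 := by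
  have key : ∀ i j, (fc (a.1.trans (emb n))).erase ((a.1.trans (emb n)) i) =
      (fc (b.1.trans (emb n))).erase ((b.1.trans (emb n)) j) → a.1 = b.1 ∧ i = j := by
    intro i j h
    rw [erase_sf, erase_sf] at h
    exact blk_unique a.2 b.2 (map_injective _ h)
  have h1 : gram (sf a).1 (sf b).1 = ∑ i : Fin (d + 1),
      if (fc (a.1.trans (emb n))).erase ((a.1.trans (emb n)) i) =
        (fc (b.1.trans (emb n))).erase ((b.1.trans (emb n)) i) then 1 else 0 :=
    gram_fc_aligned _ _ fun i j h => (key i j h).2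
  rw [h1]
  by_cases hab : a = b
  · subst hab
    rw [if_pos rfl]
    simp
  · rw [if_neg hab]
    refine sum_eq_zero fun i _ => if_neg fun h => hab (Subtype.ext (key i i h).1)

theorem sf_injective : Function.Injective (sf (n := n) (d := d)) := by
  intro a b h
  by_contra hne
  have h1 := gram_sf a b
  rw [if_neg hne, h, gram_sf b b, if_pos rfl] at h1
  have h2 : (0 : ℤ) < (d : ℤ) + 1 := by positivity
  omega

theorem card_row (n d : ℕ) : Fintype.card (Row (n + 1) d (Fin.last n)) = n.choose d := by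
  rw [← Fintype.card_congr (rowEquiv n d)]
  refine (Fintype.card_finset_len d).trans ?_
  rw [Fintype.card_fin]

theorem card_face (n d : ℕ) : Fintype.card (Face (n + 1) d) = (n + 1).choose (d + 1) := by
  refine (Fintype.card_finset_len (d + 1)).trans ?_
  rw [Fintype.card_fin]

/-- the finite bound -/
theorem finite_K1 (hd : 2 ≤ d) (hn : d + 1 ≤ n) :
    (n.choose d : ℝ) * (Real.log d - d / (d + 1) - d * Real.log (n + 1) / n) +
      (Fintype.card (Blk n d) : ℝ) *
        Real.log ((1 + (d + 1) * ((n : ℝ) + 1)) / (1 + d / ((n : ℝ) + 1) + d * ((n : ℝ) + 1))) ≤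
      2 * Real.log (Tmax (n + 1) d) := by
  classical
  have hn0 : (0 : ℝ) < n := by
    have : 0 < n := by omega
    exact_mod_cast this
  have hd0 : (0 : ℝ) < d := by
    have : 0 < d := by omega
    exact_mod_cast this
  have hN0 : (0 : ℝ) < (n : ℝ) + 1 := by positivity
  set v : Fin (n + 1) := Fin.last n with hv
  set f : Blk n d → Face (n + 1) d := sf with hf
  set t : ℝ := ((n : ℝ) + 1) ^ 2 with ht
  set z : ℝ := d / ((n : ℝ) + 1) with hz
  have ht0 : 0 ≤ t := by positivity
  have hz0 : 0 < z := by positivity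
  obtain ⟨h1, h2⟩ := det_weighted (n := n + 1) (d := d) (by omega) (v := v) (f := f)
    (fun a => last_notMem_sf a) (fun a b => gram_sf a b) ht0
  have hw : ∀ τ, 0 < wt f t τ := by
    intro τ
    unfold wt
    have : 0 ≤ ∑ i, if f i = τ then t else 0 := sum_nonneg fun i _ => by split_ifs <;> positivity
    linarith
  obtain ⟨c, hc, hle⟩ := FD.exists_minor_weighted (Arr (n + 1) d v) (wt f t) hw h1 hz0
  have hne : Nonempty (Row (n + 1) d v) := by
    rw [← Fintype.card_pos_iff, card_row]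
    exact Nat.choose_pos (by omega)
  have h3 := tors_of_faces hd v hne c hc
  -- the sum over the faces
  have h4 : ∑ τ, Real.log (1 + z * wt f t τ) ≤ (Fintype.card (Face (n + 1) d) : ℝ) * z +
      (Fintype.card (Blk n d) : ℝ) * Real.log (1 + z * (1 + t)) := by
    have h5 : ∀ τ : Face (n + 1) d, Real.log (1 + z * wt f t τ) ≤
        z + ∑ i, if f i = τ then Real.log (1 + z * (1 + t)) else 0 := by
      intro τ
      by_cases hτ : ∃ i, f i = τ
      · obtain ⟨i, hi⟩ := hτ
        have e1 : ∀ x : ℝ, (∑ j, if f j = τ then x else 0) = x := by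
          intro x
          rw [sum_eq_single i]
          · rw [if_pos hi]
          · intro j _ hj
            rw [if_neg fun h => hj (sf_injective (h.trans hi.symm))]
          · intro h; exact absurd (mem_univ _) h
        rw [e1]
        unfold wt
        rw [e1]
        linarith
      · have e1 : ∀ x : ℝ, (∑ j, if f j = τ then x else 0) = 0 := by
          intro x
          exact sum_eq_zero fun j _ => if_neg fun h => hτ ⟨j, h⟩
        rw [e1]
        unfold wt
        rw [e1, add_zero, add_zero, mul_one]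
        have := Real.log_le_sub_one_of_pos (show (0 : ℝ) < 1 + z by positivity)
        linarith
    refine (sum_le_sum fun τ _ => h5 τ).trans ?_
    rw [sum_add_distrib, sum_const, card_univ, nsmul_eq_mul, sum_comm]
    have h6 : ∀ i, (∑ τ, if f i = τ then Real.log (1 + z * (1 + t)) else 0) =
        Real.log (1 + z * (1 + t)) := by
      intro i
      rw [sum_ite_eq univ (f i), if_pos (mem_univ _)]
    rw [sum_congr rfl fun i _ => h6 i, sum_const, card_univ, nsmul_eq_mul]
  have hFz : (Fintype.card (Face (n + 1) d) : ℝ) * z = (n.choose d : ℝ) * (d / (d + 1)) := by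
    have h5 : (n + 1) * n.choose d = (n + 1).choose (d + 1) * (d + 1) :=
      Nat.add_one_mul_choose_eq n d
    have h6 : ((n : ℝ) + 1) * (n.choose d : ℝ) = ((n + 1).choose (d + 1) : ℝ) * ((d : ℝ) + 1) := by
      exact_mod_cast h5
    rw [card_face, hz]
    field_simp
    linarith
  rw [card_row] at h2 hle
  have e1 : Real.log z = Real.log d - Real.log ((n : ℝ) + 1) := by
    rw [hz, Real.log_div hd0.ne' hN0.ne']
  have e2 : 1 + z * (1 + t) = 1 + d / ((n : ℝ) + 1) + d * ((n : ℝ) + 1) := by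
    rw [hz, ht]
    field_simp
    ring
  have e3 : 1 + t * ((d : ℝ) + 1) / ((n + 1 : ℕ) : ℝ) = 1 + (d + 1) * ((n : ℝ) + 1) := by
    rw [ht]
    push_cast
    field_simp
  have e4 : (n.choose d : ℝ) * (((n + 1 : ℕ) : ℝ) - d - 1) / (((n + 1 : ℕ) : ℝ) - 1) *
      Real.log ((n + 1 : ℕ) : ℝ) =
      (n.choose d : ℝ) * (Real.log ((n : ℝ) + 1) - d * Real.log ((n : ℝ) + 1) / n) := by
    push_cast
    rw [add_sub_cancel_right, show (n : ℝ) + 1 - d - 1 = n - d by ring]
    field_simp
  have e5 : Real.log ((1 + (d + 1) * ((n : ℝ) + 1)) / (1 + d / ((n : ℝ) + 1) + d * ((n : ℝ) + 1))) =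
      Real.log (1 + (d + 1) * ((n : ℝ) + 1)) -
        Real.log (1 + d / ((n : ℝ) + 1) + d * ((n : ℝ) + 1)) :=
    Real.log_div (by positivity) (by positivity)
  rw [e3, e4] at h2
  rw [h2, e1] at hle
  rw [e2, hFz] at h4
  rw [e5]
  nlinarith [hle, h4, h3]

theorem tendsto_log_div : Tendsto (fun n : ℕ => Real.log ((n : ℝ) + 1) / n) atTop (𝓝 0) := by
  have h1 : Tendsto (fun x : ℝ => Real.log x / x) atTop (𝓝 0) := by
    have := Real.isLittleO_log_id_atTop.tendsto_div_nhds_zero
    simpa using this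
  have h2 : Tendsto (fun n : ℕ => ((n : ℝ) + 1)) atTop atTop :=
    tendsto_atTop_add_const_right _ _ tendsto_natCast_atTop_atTop
  have h3 := h1.comp h2
  have h4 : Tendsto (fun n : ℕ => ((n : ℝ) + 1) / n) atTop (𝓝 1) := by
    have h5 : Tendsto (fun n : ℕ => (1 : ℝ) + 1 / (n : ℝ)) atTop (𝓝 (1 + 0)) :=
      tendsto_const_nhds.add tendsto_one_div_atTop_nhds_zero_nat
    rw [add_zero] at h5
    refine h5.congr' ?_
    filter_upwards [eventually_ge_atTop 1] with n hn
    have : (0 : ℝ) < n := by exact_mod_cast hn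
    field_simp
  have h6 := h3.mul h4
  rw [zero_mul] at h6
  refine h6.congr' ?_
  filter_upwards [eventually_ge_atTop 1] with n hn
  have : (0 : ℝ) < n := by exact_mod_cast hn
  simp only [Function.comp]
  field_simp

/-- **The explicit lower bound.** -/
theorem K1_bound (hd : 2 ≤ d) {lam : ℝ}
    (hlam : ∀ n : ℕ, Real.log (Tmax n d) ≤ lam * (n : ℝ) ^ d) :
    (d * (Real.log d - 1) + Real.log (d + 1)) / (2 * (d + 1).factorial) ≤ lam := by
  have hd0 : (0 : ℝ) < d := by
    have : 0 < d := by omega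
    exact_mod_cast this
  -- limits
  have hr : Tendsto (fun n : ℕ => (n : ℝ) / ((n : ℝ) + 1)) atTop (𝓝 1) :=
    tendsto_natCast_div_add_atTop 1
  have hinv : Tendsto (fun n : ℕ => 1 / ((n : ℝ) + 1)) atTop (𝓝 0) :=
    tendsto_one_div_add_atTop_nhds_zero_nat
  have hA : Tendsto (fun n : ℕ => (n.choose d : ℝ) / ((n : ℝ) + 1) ^ d) atTop
      (𝓝 (1 / d.factorial)) := by
    have h1 := (isEquivalent_choose d)
    have h2 : Tendsto (fun n : ℕ => (n.choose d : ℝ) / ((n : ℝ) ^ d / d.factorial)) atTop (𝓝 1) := by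
      rw [Asymptotics.isEquivalent_iff_tendsto_one] at h1
      · exact h1
      · filter_upwards [eventually_ge_atTop 1] with n hn
        have : (0 : ℝ) < n := by exact_mod_cast hn
        positivity
    have h3 := h2.mul ((hr.pow d).mul_const (1 / (d.factorial : ℝ)))
    rw [one_pow, one_mul, one_mul] at h3
    refine h3.congr' ?_
    filter_upwards [eventually_ge_atTop 1] with n hn
    have : (0 : ℝ) < n := by exact_mod_cast hn
    rw [div_pow]
    field_simp
  have hB : Tendsto (fun n : ℕ => ((n : ℝ) ^ d - (d + 1) ^ 2 * (n : ℝ) ^ (d - 1)) /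
      (((d + 1).factorial : ℝ) * ((n : ℝ) + 1) ^ d)) atTop (𝓝 (1 / ((d + 1).factorial : ℝ))) := by
    have h1 : Tendsto (fun n : ℕ => (1 / ((d + 1).factorial : ℝ)) * (((n : ℝ) / ((n : ℝ) + 1)) ^ d -
        ((d : ℝ) + 1) ^ 2 * (((n : ℝ) / ((n : ℝ) + 1)) ^ (d - 1) * (1 / ((n : ℝ) + 1))))) atTop
        (𝓝 ((1 / ((d + 1).factorial : ℝ)) * ((1 : ℝ) ^ d - ((d : ℝ) + 1) ^ 2 *
          ((1 : ℝ) ^ (d - 1) * 0)))) :=
      ((hr.pow d).sub (((hr.pow (d - 1)).mul hinv).const_mul _)).const_mul _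
    rw [mul_zero, mul_zero, sub_zero, one_pow, mul_one] at h1
    refine h1.congr fun n => ?_
    have h2 : ((n : ℝ) + 1) ^ d = ((n : ℝ) + 1) ^ (d - 1) * ((n : ℝ) + 1) := by
      rw [← pow_succ]; congr 1; omega
    have h3 : (0 : ℝ) < (n : ℝ) + 1 := by positivity
    rw [div_pow, div_pow, h2]
    field_simp
  have hC : Tendsto (fun n : ℕ => Real.log ((1 + (d + 1) * ((n : ℝ) + 1)) /
      (1 + d / ((n : ℝ) + 1) + d * ((n : ℝ) + 1)))) atTop (𝓝 (Real.log (((d : ℝ) + 1) / d))) := by
    have h1 : Tendsto (fun n : ℕ => (1 / ((n : ℝ) + 1) + ((d : ℝ) + 1)) /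
        (1 / ((n : ℝ) + 1) + d * (1 / ((n : ℝ) + 1)) * (1 / ((n : ℝ) + 1)) + d)) atTop
        (𝓝 ((0 + ((d : ℝ) + 1)) / (0 + d * 0 * 0 + d))) :=
      (hinv.add_const _).div ((hinv.add ((hinv.const_mul _).mul hinv)).add_const _)
        (by simp only [mul_zero, add_zero, zero_add]; exact hd0.ne')
    simp only [mul_zero, add_zero, zero_add] at h1
    have h2 := (Real.continuousAt_log (x := ((d : ℝ) + 1) / d) (by positivity)).tendsto.comp h1
    refine h2.congr fun n => ?_
    simp only [Function.comp]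
    congr 1
    have h3 : (0 : ℝ) < (n : ℝ) + 1 := by positivity
    field_simp
  have hpos : 0 < Real.log (((d : ℝ) + 1) / d) := by
    apply Real.log_pos
    rw [one_lt_div hd0]
    linarith
  have hlim : Tendsto (fun n : ℕ => (n.choose d : ℝ) / ((n : ℝ) + 1) ^ d *
      (Real.log d - d / (d + 1) - d * (Real.log ((n : ℝ) + 1) / n)) +
      ((n : ℝ) ^ d - (d + 1) ^ 2 * (n : ℝ) ^ (d - 1)) / ((d + 1).factorial * ((n : ℝ) + 1) ^ d) *
        Real.log ((1 + (d + 1) * ((n : ℝ) + 1)) / (1 + d / ((n : ℝ) + 1) + d * ((n : ℝ) + 1))))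
      atTop (𝓝 (1 / d.factorial * (Real.log d - d / (d + 1) - d * 0) +
        1 / (d + 1).factorial * Real.log (((d : ℝ) + 1) / d))) :=
    (hA.mul (tendsto_const_nhds.sub (tendsto_log_div.const_mul _))).add (hB.mul hC)
  have hval : 1 / (d.factorial : ℝ) * (Real.log d - d / (d + 1) - d * 0) +
      1 / ((d + 1).factorial : ℝ) * Real.log (((d : ℝ) + 1) / d) =
      2 * ((d * (Real.log d - 1) + Real.log (d + 1)) / (2 * (d + 1).factorial)) := by
    rw [Real.log_div (by positivity) hd0.ne', Nat.factorial_succ]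
    push_cast
    field_simp
    ring
  rw [hval] at hlim
  have hfin : 2 * ((d * (Real.log d - 1) + Real.log (d + 1)) / (2 * (d + 1).factorial)) ≤
      2 * lam := by
    refine le_of_tendsto hlim ?_
    have hCpos := (tendsto_order.mp hC).1 0 hpos
    filter_upwards [hCpos, eventually_ge_atTop (d + 1)] with n hn1 hn
    have hn0 : (0 : ℝ) < n := by
      have : 0 < n := by omega
      exact_mod_cast this
    have hN : (0 : ℝ) < ((n : ℝ) + 1) ^ d := by positivity
    have h1 := finite_K1 hd hn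
    have h2 := hlam (n + 1)
    push_cast at h2
    have h3 := card_blk (P := n) (d := d) (by omega) hd
    have h4 : ((n : ℝ) ^ d - (d + 1) ^ 2 * (n : ℝ) ^ (d - 1)) / ((d + 1).factorial : ℝ) ≤
        (Fintype.card (Blk n d) : ℝ) := by
      rw [div_le_iff₀ (by positivity)]
      exact h3
    have h5 := mul_le_mul_of_nonneg_right h4 hn1.le
    have h6 : (n.choose d : ℝ) / ((n : ℝ) + 1) ^ d *
      (Real.log d - d / (d + 1) - d * (Real.log ((n : ℝ) + 1) / n)) +
      ((n : ℝ) ^ d - (d + 1) ^ 2 * (n : ℝ) ^ (d - 1)) / ((d + 1).factorial * ((n : ℝ) + 1) ^ d) *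
        Real.log ((1 + (d + 1) * ((n : ℝ) + 1)) / (1 + d / ((n : ℝ) + 1) + d * ((n : ℝ) + 1))) =
      ((n.choose d : ℝ) * (Real.log d - d / (d + 1) - d * Real.log ((n : ℝ) + 1) / n) +
        ((n : ℝ) ^ d - (d + 1) ^ 2 * (n : ℝ) ^ (d - 1)) / ((d + 1).factorial : ℝ) *
          Real.log ((1 + (d + 1) * ((n : ℝ) + 1)) /
            (1 + d / ((n : ℝ) + 1) + d * ((n : ℝ) + 1)))) / ((n : ℝ) + 1) ^ d := by
      rw [mul_div_assoc (d : ℝ)]
      field_simp
    rw [h6, div_le_iff₀ hN]
    linarith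
  exact le_of_mul_le_mul_left hfin (by norm_num)

end Pool.Agent.Lib.MP_9701dc_gt.FDA
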