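import Pool.Agent.Lib.MP_9701dc_gt.FD.Jensen
import Pool.Agent.Lib.MP_9701dc_gt.FD.Bound

set_option autoImplicit false
set_option linter.unusedSectionVars false

/-!
# The mean of `log |det (u_ij - 1)|`
-/

namespace Pool.Agent.Lib.MP_9701dc_gt.FDA

open MeasureTheory Matrix Finset Pool.Agent.Lib.MP_9701dc_gt Pool.Agent.Lib.MP_9701dc_gt.GR

theorem integrable_fintype {σ : Type} [Fintype σ] (P : MvPolynomial σ ℂ) (hP : P ≠ 0) :
    (∀ᵐ θ : σ → UnitAddCircle, MvPolynomial.eval (et θ) P ≠ 0) ∧
    Integrable fun θ : σ → UnitAddCircle => Real.log ‖MvPolynomial.eval (et θ) P‖ := by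
  classical
  set e := Fintype.equivFin σ with he
  set Q := MvPolynomial.rename e P with hQ
  have hQ0 : Q ≠ 0 := by
    intro h0
    exact hP (MvPolynomial.rename_injective e e.injective (by rw [map_zero]; exact h0))
  obtain ⟨h1, h2⟩ := integrable_fin _ Q hQ0
  have hmp := volume_measurePreserving_piCongrLeft (fun _ : Fin (Fintype.card σ) => UnitAddCircle) e
  set E := MeasurableEquiv.piCongrLeft (fun _ : Fin (Fintype.card σ) => UnitAddCircle) e with hE
  have hEa : ∀ (θ : σ → UnitAddCircle) (i : σ), E θ (e i) = θ i := by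
    intro θ i
    exact Equiv.piCongrLeft_apply_apply (fun _ : Fin (Fintype.card σ) => UnitAddCircle) e θ i
  have hev : ∀ θ : σ → UnitAddCircle, MvPolynomial.eval (et (E θ)) Q = MvPolynomial.eval (et θ) P := by
    intro θ
    rw [hQ, MvPolynomial.eval_rename]
    congr 2
    funext i
    simp only [Function.comp, et]
    rw [hEa]
  constructor
  · have h3 := hmp.quasiMeasurePreserving.ae h1
    filter_upwards [h3] with θ hθ
    rw [← hev]
    exact hθ
  · have h3 := (hmp.integrable_comp_emb E.measurableEmbedding).mpr h2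
    refine h3.congr (Filter.Eventually.of_forall fun θ => ?_)
    simp only [Function.comp]
    rw [hev]

/-- the matrix `(e(θ_ij) - 1)` -/
noncomputable def Mx (d : ℕ) (θ : Fin d × Fin d → UnitAddCircle) : Matrix (Fin d) (Fin d) ℂ :=
  of fun i j => (AddCircle.toCircle (θ (i, j)) : ℂ) - 1

theorem logdet (d : ℕ) :
    (∀ᵐ θ : Fin d × Fin d → UnitAddCircle, (Mx d θ).det ≠ 0) ∧
    Integrable fun θ : Fin d × Fin d → UnitAddCircle => Real.log ‖(Mx d θ).det‖ := by
  set P : MvPolynomial (Fin d × Fin d) ℂ :=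
    (of fun i j : Fin d => (MvPolynomial.X (i, j) - 1 : MvPolynomial (Fin d × Fin d) ℂ)).det with hP
  have hev : ∀ v : Fin d × Fin d → ℂ, MvPolynomial.eval v P = (of fun i j : Fin d => v (i, j) - 1).det := by
    intro v
    rw [hP, RingHom.map_det]
    congr 1
    ext i j
    simp
  have hP0 : P ≠ 0 := by
    intro h0
    have h1 := hev fun ij => 1 + if ij.1 = ij.2 then 1 else 0
    rw [h0, map_zero] at h1
    have h2 : (of fun i j : Fin d => (1 + (if i = j then 1 else 0) : ℂ) - 1) = 1 := by
      ext i j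
      rw [of_apply, one_apply]
      ring
    rw [h2, det_one] at h1
    exact zero_ne_one h1
  have h := integrable_fintype P hP0
  have hM : ∀ θ, MvPolynomial.eval (et θ) P = (Mx d θ).det := fun θ => hev (et θ)
  simp only [hM] at h
  exact h

theorem ch_neg_single {d : ℕ} (θ : Fin d × Fin d → UnitAddCircle) (i j : Fin d) :
    ch θ (mon d (some i) (some j)) = star (AddCircle.toCircle (θ (i, j)) : ℂ) := by
  unfold ch
  rw [prod_eq_single (i, j)]
  · have : mon d (some i) (some j) (i, j) = -1 := by simp [mon]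
    rw [this, fourier_neg, fourier_one]
    rfl
  · intro b _ hb
    have : mon d (some i) (some j) b = 0 := by
      unfold mon
      rw [if_neg]
      rintro ⟨h1, h2⟩
      exact hb (Prod.ext (Option.some.inj h1).symm (Option.some.inj h2).symm)
    rw [this, fourier_zero]
  · intro h; exact absurd (mem_univ _) h

theorem ch_none {d : ℕ} (θ : Fin d × Fin d → UnitAddCircle) (r κ : Option (Fin d))
    (h : r = none ∨ κ = none) : ch θ (mon d r κ) = 1 := by
  have : mon d r κ = 0 := by
    funext ij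
    unfold mon
    rw [if_neg]
    · rfl
    · rintro ⟨h1, h2⟩
      rcases h with h | h
      · rw [h] at h1; exact absurd h1 (by simp)
      · rw [h] at h2; exact absurd h2 (by simp)
  rw [this, ch_zero_right]

theorem det_U (d : ℕ) (θ : Fin d × Fin d → UnitAddCircle) :
    (U (mon d) θ).det = star (Mx d θ).det := by
  set e : Unit ⊕ Fin d ≃ Option (Fin d) := (Equiv.sumComm _ _).trans (Equiv.optionEquivSumPUnit (Fin d)).symm
    with he
  have he1 : e (Sum.inl ()) = none := rfl
  have he2 : ∀ i, e (Sum.inr i) = some i := fun i => rfl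
  rw [← det_submatrix_equiv_self e]
  have h1 : (U (mon d) θ).submatrix e e = fromBlocks 1 (of fun _ _ => (1 : ℂ)) (of fun _ _ => (1 : ℂ))
      (of fun i j : Fin d => star (AddCircle.toCircle (θ (i, j)) : ℂ)) := by
    ext a b
    rw [submatrix_apply]
    rcases a with a | i <;> rcases b with b | j
    · rw [fromBlocks_apply₁₁]
      simp only [U, of_apply]
      rw [ch_none θ _ _ (Or.inl he1)]
      simp
    · rw [fromBlocks_apply₁₂]
      simp only [U, of_apply]
      rw [ch_none θ _ _ (Or.inl he1)]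
    · rw [fromBlocks_apply₂₁]
      simp only [U, of_apply]
      rw [ch_none θ _ _ (Or.inr he1)]
    · rw [fromBlocks_apply₂₂]
      simp only [U, of_apply]
      rw [he2, he2, ch_neg_single]
  rw [h1, det_fromBlocks_one₁₁]
  have h2 : (of fun i j : Fin d => star (AddCircle.toCircle (θ (i, j)) : ℂ)) -
      (of fun _ _ => (1 : ℂ) : Matrix (Fin d) Unit ℂ) * (of fun _ _ => (1 : ℂ) : Matrix Unit (Fin d) ℂ) =
      (Mx d θ).map (starRingEnd ℂ) := by
    ext i j
    simp [Mx, mul_apply]
  rw [h2]
  exact ((starRingEnd ℂ).map_det (Mx d θ)).symm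

theorem sym_det (d : ℕ) (θ : Fin d × Fin d → UnitAddCircle) :
    ‖(sym (mon d) θ).det‖ = ‖(Mx d θ).det‖ ^ 2 := by
  unfold sym
  rw [det_mul, det_conjTranspose, norm_mul, norm_star, det_U, norm_star, sq]

/-- **Part (A).** -/
theorem mu_le {d : ℕ} (hd : 2 ≤ d) {lam : ℝ}
    (hlam : ∀ n : ℕ, Real.log (Tmax n d) ≤ lam * (n : ℝ) ^ d) :
    (∫ θ : Fin d × Fin d → UnitAddCircle, Real.log ‖(Mx d θ).det‖) / (d + 1).factorial ≤ lam := by
  obtain ⟨h1, h2⟩ := logdet d
  have h3 : (fun θ : Fin d × Fin d → UnitAddCircle => Real.log ‖(sym (mon d) θ).det‖) =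
      fun θ => 2 * Real.log ‖(Mx d θ).det‖ := by
    funext θ
    rw [sym_det, Real.log_pow]
    norm_cast
  have h4 : Integrable fun θ : Fin d × Fin d → UnitAddCircle =>
      Real.log ‖(sym (mon d) θ).det‖ := by
    rw [h3]
    exact h2.const_mul 2
  have h5 : ∀ᵐ θ : Fin d × Fin d → UnitAddCircle, (sym (mon d) θ).det ≠ 0 := by
    filter_upwards [h1] with θ hθ
    rw [← norm_pos_iff, sym_det]
    exact pow_pos (norm_pos_iff.mpr hθ) 2
  have h6 := lower_bound hd h4 h5 hlam
  rw [h3, integral_const_mul] at h6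
  have h7 : 2 * (∫ θ : Fin d × Fin d → UnitAddCircle, Real.log ‖(Mx d θ).det‖) /
      ((d + 1).factorial : ℝ) = 2 * ((∫ θ : Fin d × Fin d → UnitAddCircle,
        Real.log ‖(Mx d θ).det‖) / ((d + 1).factorial : ℝ)) := by ring
  rw [h7] at h6
  linarith

end Pool.Agent.Lib.MP_9701dc_gt.FDA
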