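import Pool.Agent.Lib.MP_9701dc_gt.FD.Defs

set_option autoImplicit false

/-!
# The integral of `(π - a) g(a)` and the value of zeta at 3

`integral_gg`: for Lobachevsky's function `Lob` and `gg x = x log (2 sin x) + Lob x` the integral
of `(π - a) gg a` over `[0, π]` is `(3 π / 4) ζ(3)`.
-/

namespace Pool.Agent.Lib.MP_9701dc_gt.FD

open MeasureTheory intervalIntegral Set Real

/-- the integrand of Lobachevsky's function -/
noncomputable def lsf (t : ℝ) : ℝ := Real.log (2 * Real.sin t)

theorem lsf_eq {t : ℝ} (h : t ∈ Ioo (0:ℝ) π) : lsf t = Real.log 2 + Real.log (sin t) := by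
  unfold lsf
  rw [Real.log_mul (by norm_num) (Real.sin_pos_of_mem_Ioo h).ne']

theorem zt_ae_Ioo {p : ℝ → Prop} (h : ∀ t ∈ Ioo (0:ℝ) π, p t) :
    ∀ᵐ t ∂(volume.restrict (uIoc (0:ℝ) π)), p t := by
  rw [uIoc_of_le Real.pi_pos.le,
    ← Measure.restrict_congr_set (Ioo_ae_eq_Ioc (a := (0:ℝ)) (b := π) (μ := volume))]
  exact (ae_restrict_iff' measurableSet_Ioo).2 (Filter.Eventually.of_forall h)

theorem lsf_int : IntervalIntegrable lsf volume 0 π := by
  have h1 : IntervalIntegrable (fun t => Real.log 2 + Real.log (sin t)) volume 0 π :=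
    (_root_.intervalIntegrable_const).add intervalIntegrable_log_sin
  refine h1.congr_ae ?_
  exact zt_ae_Ioo (fun t ht => (lsf_eq ht).symm)

theorem lsf_zero : ∫ t in (0:ℝ)..π, lsf t = 0 := by
  have h1 : ∫ t in (0:ℝ)..π, lsf t = ∫ t in (0:ℝ)..π, (Real.log 2 + Real.log (sin t)) := by
    apply integral_congr_ae_restrict
    exact zt_ae_Ioo (fun t ht => lsf_eq ht)
  have h2 : IntervalIntegrable (fun t => Real.log (sin t)) volume 0 π := intervalIntegrable_log_sin
  rw [h1, intervalIntegral.integral_add _root_.intervalIntegrable_const h2,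
    integral_log_sin_zero_pi]
  simp
  ring

theorem lsf_symm (t : ℝ) : lsf (π - t) = lsf t := by
  unfold lsf
  rw [Real.sin_pi_sub]

theorem zt_cont_mul {g : ℝ → ℝ} (hg : Continuous g) :
    IntervalIntegrable (fun t => g t * lsf t) volume 0 π :=
  lsf_int.continuousOn_mul hg.continuousOn

theorem lsf_refl {g : ℝ → ℝ} :
    ∫ t in (0:ℝ)..π, g (π - t) * lsf t = ∫ t in (0:ℝ)..π, g t * lsf t := by
  have h := intervalIntegral.integral_comp_sub_left (a := 0) (b := π)
    (fun t => g t * lsf t) π
  simp only [lsf_symm, sub_self, sub_zero] at h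
  exact h

theorem lsf_one : ∫ t in (0:ℝ)..π, t * lsf t = 0 := by
  have h := lsf_refl (g := fun t => t)
  have h2 : ∫ t in (0:ℝ)..π, (π - t) * lsf t
      = π * (∫ t in (0:ℝ)..π, lsf t) - ∫ t in (0:ℝ)..π, t * lsf t := by
    rw [← intervalIntegral.integral_const_mul, ← intervalIntegral.integral_sub]
    · congr 1
      ext t
      ring
    · exact lsf_int.const_mul _
    · exact zt_cont_mul continuous_id
  rw [h2, lsf_zero] at h
  linarith

/-- the quotient `sin (2 k x) / sin x` -/
noncomputable def ek (k : ℕ) (x : ℝ) : ℝ := ∑ j ∈ Finset.range k, 2 * cos ((2 * j + 1) * x)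

theorem ek_sin (k : ℕ) (x : ℝ) : ek k x * sin x = sin (2 * k * x) := by
  unfold ek
  induction k with
  | zero => simp
  | succ n ih =>
    rw [Finset.sum_range_succ, add_mul, ih]
    have h : 2 * cos ((2 * n + 1) * x) * sin x
        = sin (2 * (n + 1) * x) - sin (2 * n * x) := by
      have h1 : (2 * (n + 1) * x : ℝ) = (2 * n + 1) * x + x := by ring
      have h2 : (2 * n * x : ℝ) = (2 * n + 1) * x - x := by ring
      rw [h1, h2, Real.sin_add, Real.sin_sub]
      ring
    rw [h]
    push_cast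
    ring

theorem ek_cont (k : ℕ) : Continuous (ek k) := by
  unfold ek
  fun_prop

theorem zt_int_cos (m : ℕ) (hm : 1 ≤ m) : ∫ x in (0:ℝ)..π, cos (2 * m * x) = 0 := by
  have h0 : (2 * m : ℝ) ≠ 0 := by positivity
  rw [intervalIntegral.integral_comp_mul_left (fun x => cos x) h0]
  have : (2 * m * π : ℝ) = (2 * m : ℕ) * π := by push_cast; ring
  rw [integral_cos, this, Real.sin_nat_mul_pi]
  simp

theorem zt_int_ek (k : ℕ) (hk : 1 ≤ k) : ∫ x in (0:ℝ)..π, ek k x * cos x = π := by
  have h1 : ∀ x, ek k x * cos x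
      = ∑ j ∈ Finset.range k, (cos (2 * (j + 1 : ℕ) * x) + cos (2 * j * x)) := by
    intro x
    unfold ek
    rw [Finset.sum_mul]
    refine Finset.sum_congr rfl (fun j _ => ?_)
    have h1 : (2 * (j + 1 : ℕ) * x : ℝ) = (2 * j + 1) * x + x := by push_cast; ring
    have h2 : (2 * j * x : ℝ) = (2 * j + 1) * x - x := by ring
    rw [h1, h2, Real.cos_add, Real.cos_sub]
    ring
  simp_rw [h1]
  rw [intervalIntegral.integral_finsetSum]
  · have h2 : ∀ j ∈ Finset.range k, ∫ x in (0:ℝ)..π, (cos (2 * (j + 1 : ℕ) * x) + cos (2 * j * x))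
        = if j = 0 then π else 0 := by
      intro j _
      rw [intervalIntegral.integral_add, zt_int_cos (j + 1) (by omega)]
      · by_cases hj : j = 0
        · subst hj
          simp
        · rw [zt_int_cos j (by omega)]
          simp [hj]
      · exact Continuous.intervalIntegrable (by fun_prop) _ _
      · exact Continuous.intervalIntegrable (by fun_prop) _ _
    rw [Finset.sum_congr rfl h2, Finset.sum_ite_eq']
    simp [show 0 < k from hk]
  · intro j _
    exact Continuous.intervalIntegrable (by fun_prop) _ _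

theorem int_cos_lsf (k : ℕ) (hk : 1 ≤ k) :
    ∫ x in (0:ℝ)..π, cos (2 * k * x) * lsf x = -(π / (2 * k)) := by
  have hk0 : (k : ℝ) ≠ 0 := by positivity
  have hc : Continuous fun x => 1 / (2 * k) * ek k x * (1 / 2 * ((2 * sin x) * log (2 * sin x))) := by
    have h1 : Continuous fun x => (2 * sin x) * log (2 * sin x) :=
      Real.continuous_mul_log.comp (by fun_prop : Continuous fun x => 2 * sin x)
    have h2 := ek_cont k
    fun_prop
  have hd : ∀ x ∈ Ioo (0:ℝ) π, HasDerivAt
      (fun x => 1 / (2 * k) * ek k x * (1 / 2 * ((2 * sin x) * log (2 * sin x))))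
      (cos (2 * k * x) * lsf x + 1 / (2 * k) * (ek k x * cos x)) x := by
    intro x hx
    have hs := Real.sin_pos_of_mem_Ioo hx
    have he : (fun x => 1 / (2 * k) * ek k x * (1 / 2 * ((2 * sin x) * log (2 * sin x))))
        = fun x => 1 / (2 * k) * (sin (2 * k * x) * lsf x) := by
      ext y
      rw [← ek_sin]
      unfold lsf
      ring
    rw [he]
    have h1 : HasDerivAt (fun x => sin (2 * k * x)) (cos (2 * k * x) * (2 * k)) x := by
      have := (hasDerivAt_id x).const_mul (2 * k : ℝ)
      simpa using this.sin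
    have h2 : HasDerivAt lsf (cos x / sin x) x := by
      have h3 : HasDerivAt (fun x => 2 * sin x) (2 * cos x) x := (hasDerivAt_sin x).const_mul 2
      have h4 := h3.log (by positivity)
      have h5 : 2 * cos x / (2 * sin x) = cos x / sin x := by
        field_simp
      rw [h5] at h4
      exact h4
    have h6 := (h1.mul h2).const_mul (1 / (2 * k) : ℝ)
    have h7 : 1 / (2 * k) * (cos (2 * k * x) * (2 * k) * lsf x + sin (2 * k * x) * (cos x / sin x))
        = cos (2 * k * x) * lsf x + 1 / (2 * k) * (ek k x * cos x) := by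
      rw [← ek_sin]
      field_simp
    rw [h7] at h6
    exact h6
  have hi1 : IntervalIntegrable (fun x => cos (2 * k * x) * lsf x) volume 0 π :=
    zt_cont_mul (by fun_prop)
  have hi2 : IntervalIntegrable (fun x => 1 / (2 * k) * (ek k x * cos x)) volume 0 π := by
    have h2 := ek_cont k
    exact Continuous.intervalIntegrable (by fun_prop) _ _
  have h := intervalIntegral.integral_eq_sub_of_hasDerivAt_of_le Real.pi_pos.le hc.continuousOn hd
    (hi1.add hi2)
  rw [intervalIntegral.integral_add hi1 hi2, intervalIntegral.integral_const_mul, zt_int_ek k hk] at h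
  simp at h
  have h8 : (π / (2 * k) : ℝ) = (k : ℝ)⁻¹ * 2⁻¹ * π := by
    field_simp
  rw [h8]
  linarith

theorem zt_bern (x : ℝ) (hx : x ∈ Icc (0:ℝ) π) :
    HasSum (fun n : ℕ => 1 / (n : ℝ) ^ 2 * cos (2 * n * x)) (x ^ 2 - π * x + π ^ 2 / 6) := by
  have hpi := Real.pi_pos
  have h := hasSum_one_div_nat_pow_mul_cos (k := 1) one_ne_zero (x := x / π)
    ⟨div_nonneg hx.1 hpi.le, (div_le_one hpi).2 hx.2⟩
  have he : (fun n : ℕ => 1 / (n : ℝ) ^ (2 * 1) * cos (2 * π * n * (x / π)))
      = fun n : ℕ => 1 / (n : ℝ) ^ 2 * cos (2 * n * x) := by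
    ext n
    have : 2 * π * n * (x / π) = 2 * n * x := by field_simp
    rw [this]
  rw [he] at h
  convert h using 1
  have hb : Polynomial.eval (x / π) (Polynomial.map (algebraMap ℚ ℝ) (Polynomial.bernoulli (2 * 1)))
      = (x / π) ^ 2 - (x / π) + 1 / 6 := by
    simp [Polynomial.bernoulli_def, Finset.sum_range_succ, Polynomial.eval_add, bernoulli_two,
      bernoulli_one, bernoulli_zero]
    ring
  rw [hb]
  simp [Nat.factorial]
  field_simp

theorem lsf_two : ∫ t in (0:ℝ)..π, t ^ 2 * lsf t = -(π / 2) * ∑' n : ℕ, 1 / ((n : ℝ) + 1) ^ 3 := by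
  have hsum2 : Summable fun n : ℕ => 1 / (n : ℝ) ^ 2 :=
    Real.summable_one_div_nat_pow.2 (by norm_num)
  have h := intervalIntegral.hasSum_integral_of_dominated_convergence
    (a := 0) (b := π) (μ := volume)
    (F := fun (n : ℕ) (x : ℝ) => 1 / (n : ℝ) ^ 2 * cos (2 * n * x) * lsf x)
    (f := fun x => (x ^ 2 - π * x + π ^ 2 / 6) * lsf x)
    (fun (n : ℕ) (x : ℝ) => 1 / (n : ℝ) ^ 2 * |lsf x|)
    (fun n => by
      have h1 : IntervalIntegrable (fun x => 1 / (n : ℝ) ^ 2 * cos (2 * n * x) * lsf x)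
          volume 0 π := zt_cont_mul (by fun_prop)
      exact h1.def'.aestronglyMeasurable)
    (fun n => Filter.Eventually.of_forall fun x _ => by
      rw [norm_mul, norm_mul, Real.norm_eq_abs, Real.norm_eq_abs, Real.norm_eq_abs]
      have h1 : |1 / (n : ℝ) ^ 2| = 1 / (n : ℝ) ^ 2 := abs_of_nonneg (by positivity)
      rw [h1]
      have h2 := Real.abs_cos_le_one (2 * n * x)
      have h3 : 0 ≤ 1 / (n : ℝ) ^ 2 := by positivity
      have h4 := abs_nonneg (lsf x)
      calc 1 / (n : ℝ) ^ 2 * |cos (2 * n * x)| * |lsf x|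
          ≤ 1 / (n : ℝ) ^ 2 * 1 * |lsf x| := by gcongr
        _ = 1 / (n : ℝ) ^ 2 * |lsf x| := by ring)
    (Filter.Eventually.of_forall fun x _ => hsum2.mul_right _)
    (by
      have h1 : (fun x => ∑' n : ℕ, 1 / (n : ℝ) ^ 2 * |lsf x|)
          = fun x => (∑' n : ℕ, 1 / (n : ℝ) ^ 2) * |lsf x| := by
        ext x
        rw [tsum_mul_right]
      rw [h1]
      exact lsf_int.abs.const_mul _)
    (Filter.Eventually.of_forall fun x hx => by
      rw [uIoc_of_le Real.pi_pos.le] at hx
      exact (zt_bern x ⟨hx.1.le, hx.2⟩).mul_right _)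
  have hR : ∫ x in (0:ℝ)..π, (x ^ 2 - π * x + π ^ 2 / 6) * lsf x = ∫ t in (0:ℝ)..π, t ^ 2 * lsf t := by
    have e1 : (fun x => (x ^ 2 - π * x + π ^ 2 / 6) * lsf x)
        = fun x => (x ^ 2 * lsf x - π * (x * lsf x)) + π ^ 2 / 6 * lsf x := by
      ext x
      ring
    have i1 : IntervalIntegrable (fun x => x ^ 2 * lsf x) volume 0 π :=
      zt_cont_mul (g := fun x => x ^ 2) (by fun_prop)
    have i2 : IntervalIntegrable (fun x => π * (x * lsf x)) volume 0 π :=
      (zt_cont_mul (g := fun x => x) continuous_id).const_mul _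
    have i3 : IntervalIntegrable (fun x => π ^ 2 / 6 * lsf x) volume 0 π := lsf_int.const_mul _
    rw [e1, intervalIntegral.integral_add (i1.sub i2) i3, intervalIntegral.integral_sub i1 i2,
      intervalIntegral.integral_const_mul, intervalIntegral.integral_const_mul, lsf_one, lsf_zero]
    ring
  rw [hR] at h
  have hJ : (fun n : ℕ => ∫ x in (0:ℝ)..π, 1 / (n : ℝ) ^ 2 * cos (2 * n * x) * lsf x)
      = fun n : ℕ => -(π / 2) * (1 / (n : ℝ) ^ 3) := by
    ext n
    rcases Nat.eq_zero_or_pos n with hn | hn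
    · subst hn
      simp
    · have e : (fun x => 1 / (n : ℝ) ^ 2 * cos (2 * n * x) * lsf x)
          = fun x => 1 / (n : ℝ) ^ 2 * (cos (2 * n * x) * lsf x) := by
        ext x
        ring
      rw [e, intervalIntegral.integral_const_mul, int_cos_lsf n hn]
      field_simp
  rw [hJ] at h
  have h2 := h.tsum_eq
  rw [tsum_mul_left] at h2
  rw [← h2]
  congr 1
  have hsum3 : Summable fun n : ℕ => 1 / (n : ℝ) ^ 3 :=
    Real.summable_one_div_nat_pow.2 (by norm_num)
  rw [hsum3.tsum_eq_zero_add]
  simp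

theorem lob_cont : ContinuousOn Lob (Icc 0 π) := by
  have h := intervalIntegral.continuousOn_primitive_interval (a := 0) (b := π) (μ := volume)
    (f := lsf) (by
      have := lsf_int
      rw [intervalIntegrable_iff'] at this
      exact this)
  rw [uIcc_of_le Real.pi_pos.le] at h
  exact h.neg

theorem lob_deriv (x : ℝ) (hx : x ∈ Ioo (0:ℝ) π) : HasDerivAt Lob (-lsf x) x := by
  have hs := Real.sin_pos_of_mem_Ioo hx
  have hc : ContinuousAt lsf x := by
    unfold lsf
    exact ContinuousAt.log (by fun_prop) (by positivity)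
  have hi : IntervalIntegrable lsf volume 0 x := by
    refine lsf_int.mono_set ?_
    rw [uIcc_of_le hx.1.le, uIcc_of_le Real.pi_pos.le]
    exact Icc_subset_Icc_right hx.2.le
  have hm : StronglyMeasurableAtFilter lsf (nhds x) volume := by
    have : Measurable lsf := by
      unfold lsf
      fun_prop
    exact this.stronglyMeasurable.stronglyMeasurableAtFilter
  exact (intervalIntegral.integral_hasDerivAt_right hi hm hc).neg

theorem integral_gg : ∫ a in (0 : ℝ)..Real.pi, (Real.pi - a) * gg a =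
    3 * Real.pi / 4 * ∑' n : ℕ, 1 / ((n : ℝ) + 1) ^ 3 := by
  have hpi := Real.pi_pos
  have iLob : IntervalIntegrable (fun a => (π - a) * Lob a) volume 0 π := by
    refine ContinuousOn.intervalIntegrable ?_
    rw [uIcc_of_le hpi.le]
    exact ContinuousOn.mul (by fun_prop) lob_cont
  have i1 : IntervalIntegrable (fun a => (π - a) * a * lsf a) volume 0 π :=
    zt_cont_mul (g := fun a => (π - a) * a) (by fun_prop)
  have i2 : IntervalIntegrable (fun a => (π - a) ^ 2 / 2 * lsf a) volume 0 π :=
    zt_cont_mul (g := fun a => (π - a) ^ 2 / 2) (by fun_prop)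
  have e1 : (fun a => (π - a) * gg a) = fun a => (π - a) * a * lsf a + (π - a) * Lob a := by
    ext a
    unfold gg lsf
    ring
  rw [e1, intervalIntegral.integral_add i1 iLob]
  -- first part
  have hA : ∫ a in (0:ℝ)..π, (π - a) * a * lsf a = -∫ t in (0:ℝ)..π, t ^ 2 * lsf t := by
    have e2 : (fun a => (π - a) * a * lsf a) = fun a => π * (a * lsf a) - a ^ 2 * lsf a := by
      ext a
      ring
    have j1 : IntervalIntegrable (fun x => x ^ 2 * lsf x) volume 0 π :=
      zt_cont_mul (g := fun x => x ^ 2) (by fun_prop)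
    have j2 : IntervalIntegrable (fun x => π * (x * lsf x)) volume 0 π :=
      (zt_cont_mul (g := fun x => x) continuous_id).const_mul _
    rw [e2, intervalIntegral.integral_sub j2 j1, intervalIntegral.integral_const_mul, lsf_one]
    ring
  -- second part
  have hB : ∫ a in (0:ℝ)..π, (π - a) * Lob a = -(1 / 2) * ∫ t in (0:ℝ)..π, t ^ 2 * lsf t := by
    have hc : ContinuousOn (fun a => -((π - a) ^ 2 / 2) * Lob a) (Icc 0 π) :=
      ContinuousOn.mul (by fun_prop) lob_cont
    have hd : ∀ x ∈ Ioo (0:ℝ) π, HasDerivAt (fun a => -((π - a) ^ 2 / 2) * Lob a)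
        ((π - x) * Lob x + (π - x) ^ 2 / 2 * lsf x) x := by
      intro x hx
      have h0 : HasDerivAt (fun a : ℝ => π - a) (-1) x := (hasDerivAt_id x).const_sub π
      have h1 : HasDerivAt (fun a : ℝ => -((π - a) ^ 2 / 2))
          (-((2 : ℕ) * (π - x) ^ (2 - 1) * -1 / 2)) x := ((h0.pow 2).div_const 2).neg
      have h3 : HasDerivAt (fun a => -((π - a) ^ 2 / 2) * Lob a)
          (-((2 : ℕ) * (π - x) ^ (2 - 1) * -1 / 2) * Lob x + -((π - x) ^ 2 / 2) * (-lsf x)) x :=
        h1.mul (lob_deriv x hx)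
      refine h3.congr_deriv ?_
      push_cast
      ring
    have h := intervalIntegral.integral_eq_sub_of_hasDerivAt_of_le hpi.le hc hd (iLob.add i2)
    rw [intervalIntegral.integral_add iLob i2] at h
    have h0 : Lob 0 = 0 := by
      unfold Lob
      simp
    rw [h0] at h
    simp only [sub_self, mul_zero] at h
    have h4 : ∫ a in (0:ℝ)..π, (π - a) ^ 2 / 2 * lsf a
        = 1 / 2 * ∫ t in (0:ℝ)..π, t ^ 2 * lsf t := by
      have h5 := lsf_refl (g := fun t => t ^ 2 / 2)
      rw [h5, ← intervalIntegral.integral_const_mul]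
      congr 1
      ext t
      ring
    rw [h4] at h
    norm_num at h
    linarith
  rw [hA, hB, lsf_two]
  ring

end Pool.Agent.Lib.MP_9701dc_gt.FD
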