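import Pool.Agent.Lib.MP_9701dc_gt.FD.Reduce
import Pool.Agent.Lib.MP_9701dc_gt.FD.Angle
import Pool.Agent.Lib.MP_9701dc_gt.FD.Average
import Pool.Agent.Lib.MP_9701dc_gt.FD.Zeta

set_option autoImplicit false

/-!
# The closed form of `mu 3`
-/

namespace Pool.Agent.Lib.MP_9701dc_gt.FD

open Finset MeasureTheory Filter Topology

/-- the double integral of `m3` over the angle triangle -/
theorem Mu3_double : ∫ a in (0 : ℝ)..Real.pi, ∫ b in (0 : ℝ)..(Real.pi - a),
      m3 (2 * Real.sin a) (2 * Real.sin b) (2 * Real.sin (a + b)) =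
    9 / 4 * ∑' n : ℕ, 1 / ((n : ℝ) + 1) ^ 3 := by
  have hpi := Real.pi_pos
  have h1 : ∫ a in (0 : ℝ)..Real.pi, ∫ b in (0 : ℝ)..(Real.pi - a),
      m3 (2 * Real.sin a) (2 * Real.sin b) (2 * Real.sin (a + b)) =
      ∫ a in (0 : ℝ)..Real.pi, (∫ b in (0 : ℝ)..(Real.pi - a),
        (gg a + gg b + gg (Real.pi - a - b))) / Real.pi := by
    apply intervalIntegral.integral_congr_ae
    filter_upwards with a ha
    rw [Set.uIoc_of_le hpi.le, Set.mem_Ioc] at ha
    rw [← intervalIntegral.integral_div]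
    apply intervalIntegral.integral_congr_ae
    filter_upwards [compl_mem_ae_iff.2 (measure_singleton (Real.pi - a))] with b hb hmem
    rw [Set.uIoc_of_le (by linarith), Set.mem_Ioc] at hmem
    have hne : b ≠ Real.pi - a := hb
    have hlt : b < Real.pi - a := lt_of_le_of_ne hmem.2 hne
    exact m3_eq ha.1 hmem.1 (by linarith)
  rw [h1, intervalIntegral.integral_div, average_gg, integral_gg]
  field_simp
  ring

/-- the closed form, `d × d` version -/
theorem Mx_two : ∫ θ : Fin 2 × Fin 2 → UnitAddCircle, Real.log ‖(FDA.Mx 2 θ).det‖ =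
    9 / (2 * Real.pi ^ 2) * ∑' n : ℕ, 1 / ((n : ℝ) + 1) ^ 3 := by
  rw [Mx_two_eq, Mu3_double]
  ring

/-- the closed form, `(d + 1) × (d + 1)` version -/
theorem mu_three : mu 3 = 9 / (2 * Real.pi ^ 2) * ∑' n : ℕ, 1 / ((n : ℝ) + 1) ^ 3 := by
  rw [mu_three_eq, Mu3_double]
  ring

end Pool.Agent.Lib.MP_9701dc_gt.FD
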