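import Pool.Agent.Lib.MP_9701dc_gt.Incidence

set_option autoImplicit false
set_option linter.unusedSectionVars false

/-!
# Faces given by increasing sequences of vertices
-/

namespace Pool.Agent.Lib.MP_9701dc_gt.FDA

open Finset Pool.Agent.Lib.MP_9701dc_gt

variable {n k : ℕ}

/-- the face with vertices `f 0 < f 1 < ...` -/
def fc (f : Fin k ↪o Fin n) : Finset (Fin n) := univ.map f.toEmbedding

theorem card_fc (f : Fin k ↪o Fin n) : (fc f).card = k := by
  rw [fc, card_map, card_univ, Fintype.card_fin]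

theorem mem_fc {f : Fin k ↪o Fin n} {v : Fin n} : v ∈ fc f ↔ ∃ i, f i = v := by
  simp [fc]

theorem inc_fc (f : Fin k ↪o Fin n) (σ : Finset (Fin n)) :
    inc σ (fc f) = ∑ i : Fin k, if (fc f).erase (f i) = σ then (-1) ^ (i : ℕ) else 0 := by
  unfold inc
  conv_lhs => rw [fc, sum_map]
  refine sum_congr rfl fun i _ => ?_
  have h1 : ((univ.map f.toEmbedding).filter (· < f.toEmbedding i)).card = (i : ℕ) := by
    rw [filter_map, card_map]
    have : (univ.filter ((fun x => x < f.toEmbedding i) ∘ f.toEmbedding)) = Finset.Iio i := by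
      ext x
      simp
    rw [this, Fin.card_Iio]
  rw [h1]
  rfl

theorem gram_fc (f g : Fin k ↪o Fin n) :
    gram (fc f) (fc g) = ∑ i : Fin k, ∑ j : Fin k,
      if (fc f).erase (f i) = (fc g).erase (g j) then (-1) ^ (i : ℕ) * (-1) ^ (j : ℕ) else 0 := by
  unfold gram
  have h1 : ∀ σ : Finset (Fin n), inc σ (fc f) * inc σ (fc g) =
      ∑ i : Fin k, ∑ j : Fin k, (if (fc f).erase (f i) = σ then
        (if (fc g).erase (g j) = σ then (-1) ^ (i : ℕ) * (-1) ^ (j : ℕ) else 0) else 0 : ℤ) := by
    intro σ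
    rw [inc_fc, inc_fc, sum_mul_sum]
    refine sum_congr rfl fun i _ => sum_congr rfl fun j _ => ?_
    split_ifs <;> simp
  simp only [h1]
  rw [sum_comm]
  refine sum_congr rfl fun i _ => ?_
  rw [sum_comm]
  refine sum_congr rfl fun j _ => ?_
  rw [sum_ite_eq univ ((fc f).erase (f i)), if_pos (mem_univ _)]
  by_cases h : (fc f).erase (f i) = (fc g).erase (g j)
  · rw [if_pos h, if_pos h.symm]
  · rw [if_neg h, if_neg (Ne.symm h)]

/-- a structure of parts on the vertices: if different positions are in different parts, and two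
faces with a common ridge are aligned, then the Gram entry counts the common ridges -/
theorem gram_fc_aligned (f g : Fin k ↪o Fin n)
    (h : ∀ i j, (fc f).erase (f i) = (fc g).erase (g j) → i = j) :
    gram (fc f) (fc g) = ∑ i : Fin k, if (fc f).erase (f i) = (fc g).erase (g i) then 1 else 0 := by
  rw [gram_fc]
  refine sum_congr rfl fun i _ => ?_
  rw [sum_eq_single i]
  · by_cases hi : (fc f).erase (f i) = (fc g).erase (g i)
    · rw [if_pos hi, if_pos hi, ← pow_add, ← two_mul, pow_mul]
      norm_num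
    · rw [if_neg hi, if_neg hi]
  · intro j _ hj
    exact if_neg fun hc => hj (h i j hc).symm
  · intro h; exact absurd (mem_univ _) h

theorem mem_erase_fc {f : Fin k ↪o Fin n} {i : Fin k} {v : Fin n} :
    v ∈ (fc f).erase (f i) ↔ ∃ l, l ≠ i ∧ f l = v := by
  rw [mem_erase, mem_fc]
  constructor
  · rintro ⟨h1, l, rfl⟩
    exact ⟨l, fun h => h1 (by rw [h]), rfl⟩
  · rintro ⟨l, hl, rfl⟩
    exact ⟨fun h => hl (f.injective h), l, rfl⟩

end Pool.Agent.Lib.MP_9701dc_gt.FDA
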