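import Pool.Agent.Lib.MP_9701dc_gt.FD.Defs

set_option autoImplicit false

/-! The placement of the vertices of the complete partite complex on the colours of a block. -/

namespace Pool.Agent.Lib.MP_9701dc_gt.FD

open Finset
open Pool.Agent.Lib.MP_9701dc_gt

theorem pl_lt {N m : ℕ} {G : Type} (e : G ≃ Fin m) {b b' : Fin N} (g g' : G) (h : b < b') :
    pl e b g < pl e b' g' := by
  have h1 := (e g).2
  have h2 : b.val + 1 ≤ b'.val := h
  have h3 : (b.val + 1) * m ≤ b'.val * m := Nat.mul_le_mul_right _ h2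
  rw [Fin.lt_def]
  simp only [pl]
  nlinarith

theorem pl_inj {N m : ℕ} {G : Type} (e : G ≃ Fin m) {b b' : Fin N} {g g' : G}
    (h : pl e b g = pl e b' g') : b = b' ∧ g = g' := by
  have hb : b = b' := by
    rcases lt_trichotomy b b' with hlt | heq | hgt
    · exact absurd h (ne_of_lt (pl_lt e g g' hlt))
    · exact heq
    · exact absurd h (ne_of_gt (pl_lt e g' g hgt))
  subst hb
  refine ⟨rfl, ?_⟩
  have h1 := congrArg Fin.val h
  simp only [pl] at h1
  exact e.injective (Fin.ext (by omega))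

theorem pl_ne_last {N m : ℕ} {G : Type} (e : G ≃ Fin m) (b : Fin N) (g : G) :
    pl e b g ≠ Fin.last (N * m) := by
  intro h
  have h1 := (e g).2
  have h2 : b.val + 1 ≤ N := b.2
  have h3 : (b.val + 1) * m ≤ N * m := Nat.mul_le_mul_right _ h2
  have h4 := congrArg Fin.val h
  simp only [pl, Fin.val_last] at h4
  nlinarith

theorem card_rowSet {N m d : ℕ} {G : Type} (e : G ≃ Fin m) (b : Fin (d + 1) ↪o Fin N)
    (r : Fin (d + 1) × (Fin (d + 1) → G)) :
    (rowSet e b r).card = d ∧ Fin.last (N * m) ∉ rowSet e b r := by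
  constructor
  · unfold rowSet
    rw [card_image_of_injOn]
    · rw [filter_ne' univ r.1, card_erase_of_mem (mem_univ _), card_univ, Fintype.card_fin]
      simp
    · intro l _ l' _ h
      exact b.injective (pl_inj e h).1
  · unfold rowSet
    intro h
    obtain ⟨l, _, hl⟩ := mem_image.mp h
    exact pl_ne_last e _ _ hl

theorem card_facSet {N m d : ℕ} {G : Type} (e : G ≃ Fin m) (b : Fin (d + 1) ↪o Fin N)
    (g : Fin (d + 1) → G) : (facSet e b g).card = d + 1 := by
  unfold facSet
  rw [card_image_of_injective, card_univ, Fintype.card_fin]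
  intro l l' h
  exact b.injective (pl_inj e h).1

theorem inc_same {N m d : ℕ} {G : Type} [DecidableEq G] (e : G ≃ Fin m) (b : Fin (d + 1) ↪o Fin N)
    (r : Fin (d + 1) × (Fin (d + 1) → G)) (g : Fin (d + 1) → G) :
    inc (rowSet e b r) (facSet e b g) = (-1) ^ (r.1 : ℕ) * pinc r g := by
  unfold pinc
  split_ifs with h
  · have hins : facSet e b g = insert (pl e (b r.1) (g r.1)) (rowSet e b r) := by
      unfold facSet rowSet
      have hu : (univ : Finset (Fin (d + 1))) = insert r.1 (univ.filter fun l => l ≠ r.1) := by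
        ext l
        simp only [mem_univ, mem_insert, mem_filter, true_and, true_iff]
        exact em _
      rw [hu, image_insert]
      congr 1
      rw [← hu]
      apply image_congr
      intro l hl
      have hl' : l ≠ r.1 := by simpa using hl
      simp only
      rw [h l hl']
    have hni : pl e (b r.1) (g r.1) ∉ rowSet e b r := by
      intro hc
      obtain ⟨l, hl, hle⟩ := mem_image.mp hc
      exact (mem_filter.mp hl).2 (b.injective (pl_inj e hle).1)
    rw [hins, inc_insert hni, mul_one]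
    unfold sg
    congr 1
    have hf : (rowSet e b r).filter (· < pl e (b r.1) (g r.1)) =
        (univ.filter fun l => l < r.1).image fun l => pl e (b l) (r.2 l) := by
      unfold rowSet
      ext x
      simp only [mem_filter, mem_image, mem_univ, true_and]
      constructor
      · rintro ⟨⟨l, hl, rfl⟩, hx⟩
        refine ⟨l, ?_, rfl⟩
        rcases lt_or_gt_of_ne hl with h1 | h1
        · exact h1
        · exact absurd hx (not_lt_of_gt (pl_lt e _ _ (b.strictMono h1)))
      · rintro ⟨l, hl, rfl⟩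
        exact ⟨⟨l, ne_of_lt hl, rfl⟩, pl_lt e _ _ (b.strictMono hl)⟩
    rw [hf, card_image_of_injective]
    · have : (univ.filter fun l : Fin (d + 1) => l < r.1) = Iio r.1 := by
        ext l; simp
      rw [this, Fin.card_Iio]
    · intro l l' hl
      exact b.injective (pl_inj e hl).1
  · rw [mul_zero]
    by_contra hc
    obtain ⟨v, hv, hf⟩ := inc_ne_zero hc
    apply h
    intro l hl
    have h1 : pl e (b l) (r.2 l) ∈ rowSet e b r :=
      mem_image.mpr ⟨l, mem_filter.mpr ⟨mem_univ _, hl⟩, rfl⟩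
    have h2 : pl e (b l) (r.2 l) ∈ facSet e b g := by
      rw [hf]; exact mem_insert_of_mem h1
    obtain ⟨l', _, hl'⟩ := mem_image.mp h2
    obtain ⟨h3, h4⟩ := pl_inj e hl'
    have h5 := b.injective h3
    subst h5
    exact h4

theorem inc_diff {N m d : ℕ} {G : Type} (e : G ≃ Fin m)
    {B B' : Finset (Fin N)} (hB : B.card = d + 1) (hB' : B'.card = d + 1)
    (h : N ∣ ∑ b ∈ B, (b : ℕ)) (h' : N ∣ ∑ b ∈ B', (b : ℕ)) (hne : B ≠ B')
    (r : Fin (d + 1) × (Fin (d + 1) → G)) (g : Fin (d + 1) → G) :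
    inc (rowSet e (B.orderEmbOfFin hB) r) (facSet e (B'.orderEmbOfFin hB') g) = 0 := by
  by_contra hc
  obtain ⟨v, hv, hf⟩ := inc_ne_zero hc
  set y := B.orderEmbOfFin hB r.1 with hy
  have hyB : y ∈ B := B.orderEmbOfFin_mem hB r.1
  have hsub : B.erase y ⊆ B' := by
    intro z hz
    obtain ⟨hz1, hz2⟩ := mem_erase.mp hz
    have hz3 : z ∈ Set.range (B.orderEmbOfFin hB) := by
      rw [range_orderEmbOfFin]; exact hz2
    obtain ⟨l, hl⟩ := hz3
    have hlne : l ≠ r.1 := by
      rintro rfl
      exact hz1 hl.symm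
    have h1 : pl e (B.orderEmbOfFin hB l) (r.2 l) ∈ rowSet e (B.orderEmbOfFin hB) r :=
      mem_image.mpr ⟨l, mem_filter.mpr ⟨mem_univ _, hlne⟩, rfl⟩
    have h2 : pl e (B.orderEmbOfFin hB l) (r.2 l) ∈ facSet e (B'.orderEmbOfFin hB') g := by
      rw [hf]; exact mem_insert_of_mem h1
    obtain ⟨l', _, hl'⟩ := mem_image.mp h2
    have h3 := (pl_inj e hl').1
    rw [← hl, ← h3]
    exact B'.orderEmbOfFin_mem hB' l'
  have hcard : (B.erase y).card = d := by rw [card_erase_of_mem hyB, hB]; rfl
  obtain ⟨x, hx⟩ : ∃ x, B' \ B.erase y = {x} := by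
    apply card_eq_one.mp
    rw [card_sdiff_of_subset hsub, hB', hcard]
    omega
  have hxm : x ∈ B' \ B.erase y := by rw [hx]; exact mem_singleton_self x
  obtain ⟨hxB', hxe⟩ := mem_sdiff.mp hxm
  have hB'e : B' = insert x (B.erase y) := by
    ext z
    constructor
    · intro hz
      by_cases hz1 : z ∈ B.erase y
      · exact mem_insert_of_mem hz1
      · have : z ∈ B' \ B.erase y := mem_sdiff.mpr ⟨hz, hz1⟩
        rw [hx] at this
        rw [mem_singleton.mp this]
        exact mem_insert_self _ _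
    · intro hz
      rcases mem_insert.mp hz with rfl | hz1
      · exact hxB'
      · exact hsub hz1
  have hs1 : ∑ b ∈ B, (b : ℕ) = y.val + ∑ b ∈ B.erase y, (b : ℕ) :=
    (add_sum_erase B (fun b => (b : ℕ)) hyB).symm
  have hs2 : ∑ b ∈ B', (b : ℕ) = x.val + ∑ b ∈ B.erase y, (b : ℕ) := by
    rw [hB'e, sum_insert hxe]
  rw [hs1] at h
  rw [hs2] at h'
  have hxy : x = y := by
    have h3 : (N : ℤ) ∣ (x.val : ℤ) - (y.val : ℤ) := by
      have h4 : (N : ℤ) ∣ ((x.val + ∑ b ∈ B.erase y, (b : ℕ) : ℕ) : ℤ) := by exact_mod_cast h'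
      have h5 : (N : ℤ) ∣ ((y.val + ∑ b ∈ B.erase y, (b : ℕ) : ℕ) : ℤ) := by exact_mod_cast h
      have h6 := dvd_sub h4 h5
      have h7 : ((x.val + ∑ b ∈ B.erase y, (b : ℕ) : ℕ) : ℤ) -
          ((y.val + ∑ b ∈ B.erase y, (b : ℕ) : ℕ) : ℤ) = (x.val : ℤ) - (y.val : ℤ) := by
        push_cast; ring
      rwa [h7] at h6
    have hx2 : (x.val : ℤ) < N := by exact_mod_cast x.2
    have hy2 : (y.val : ℤ) < N := by exact_mod_cast y.2
    have habs : |(x.val : ℤ) - (y.val : ℤ)| < N := by
      rw [abs_lt]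
      constructor <;> omega
    have h0 := Int.eq_zero_of_abs_lt_dvd h3 habs
    exact Fin.ext (by omega)
  apply hne
  rw [hB'e, hxy, insert_erase hyB]

end Pool.Agent.Lib.MP_9701dc_gt.FD
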