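import Pool.Agent.Lib.MP_9701dc_gt.FD.Circle
import Pool.Agent.Lib.MP_9701dc_gt.FD.Haar
import Pool.Agent.Lib.MP_9701dc_gt.FD.Defs
import Pool.Agent.Lib.MP_9701dc_gt.FD.LogDet

set_option autoImplicit false

/-!
# The mean of `log |det|` for `d = 2` as an integral over the angles of a triangle
-/

namespace Pool.Agent.Lib.MP_9701dc_gt.FD

open MeasureTheory Real


theorem exists_polar (P : ℂ) : ∃ s : UnitAddCircle, P = ‖P‖ * ((AddCircle.toCircle ((s) : UnitAddCircle) : Circle) : ℂ) := by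
  refine ⟨((Complex.arg P / (2 * π) : ℝ) : UnitAddCircle), ?_⟩
  rw [toCircle_mk]
  have h3 := Complex.norm_mul_exp_arg_mul_I P
  conv_lhs => rw [← h3]
  congr 2
  push_cast
  have : (π : ℂ) ≠ 0 := by exact_mod_cast Real.pi_ne_zero
  field_simp

theorem norm_planar (p q x : ℝ) :
    ‖(p : ℂ) + q * ((AddCircle.toCircle (((x : UnitAddCircle)) : UnitAddCircle) : Circle) : ℂ)‖ = rr p q (2 * π * x) := by
  rw [toCircle_mk, rr, Complex.norm_eq_sqrt_sq_add_sq]
  have h1 : Complex.exp (2 * π * x * Complex.I) =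
      (Real.cos (2 * π * x) : ℂ) + (Real.sin (2 * π * x) : ℂ) * Complex.I := by
    rw [Complex.ofReal_cos, Complex.ofReal_sin]
    push_cast
    exact Complex.exp_mul_I _
  rw [h1]
  congr 1
  have hre : ((p : ℂ) + q * ((Real.cos (2 * π * x) : ℂ) +
      (Real.sin (2 * π * x) : ℂ) * Complex.I)).re = p + q * Real.cos (2 * π * x) := by
    simp [-Complex.ofReal_cos, -Complex.ofReal_sin]
  have him : ((p : ℂ) + q * ((Real.cos (2 * π * x) : ℂ) +
      (Real.sin (2 * π * x) : ℂ) * Complex.I)).im = q * Real.sin (2 * π * x) := by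
    simp [-Complex.ofReal_cos, -Complex.ofReal_sin]
  rw [hre, him]
  have := Real.sin_sq_add_cos_sq (2 * π * x)
  linear_combination q ^ 2 * this

theorem rr_two_pi_sub (p q φ : ℝ) : rr p q (2 * π - φ) = rr p q φ := by
  unfold rr
  rw [Real.cos_two_pi_sub]

theorem rr_comm (p q φ : ℝ) : rr p q φ = rr q p φ := by
  unfold rr
  ring_nf

theorem continuous_rr (p q : ℝ) : Continuous fun φ => rr p q φ := by
  unfold rr
  fun_prop

theorem rr_eq_norm (p q φ : ℝ) : rr p q φ = ‖circleMap (p : ℂ) q φ - 0‖ := by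
  have h := norm_planar p q (φ / (2 * π))
  rw [toCircle_mk] at h
  have h1 : 2 * π * (φ / (2 * π)) = φ := by field_simp
  rw [h1] at h
  rw [← h, sub_zero, circleMap]
  congr 4
  push_cast
  have : (π : ℂ) ≠ 0 := by exact_mod_cast Real.pi_ne_zero
  field_simp

theorem rr_nonneg (p q φ : ℝ) : 0 ≤ rr p q φ := Real.sqrt_nonneg _

theorem intervalIntegrable_log_rr (p q a b : ℝ) :
    IntervalIntegrable (fun φ => Real.log (rr p q φ)) volume a b := by
  have h1 : IntervalIntegrable (fun φ => Real.log (rr p q φ)) volume 0 (2 * π) := by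
    have h2 : CircleIntegrable (fun z => Real.log ‖z - 0‖) (p : ℂ) q :=
      circleIntegrable_log_norm_sub_const q
    simp_rw [rr_eq_norm]
    exact h2
  apply Function.Periodic.intervalIntegrable₀ _ Real.two_pi_pos.ne' h1
  intro φ
  simp only [rr, Real.cos_add_two_pi]

theorem intervalIntegrable_log_max (p q r a b : ℝ) :
    IntervalIntegrable (fun φ => Real.log (max r (rr p q φ))) volume a b := by
  rcases le_or_gt r 0 with hr | hr
  · have : (fun φ => Real.log (max r (rr p q φ))) = fun φ => Real.log (rr p q φ) := by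
      funext φ
      rw [max_eq_right (hr.trans (rr_nonneg _ _ _))]
    rw [this]
    exact intervalIntegrable_log_rr p q a b
  · apply Continuous.intervalIntegrable
    apply Continuous.log
    · exact continuous_const.max (continuous_rr p q)
    · intro φ
      exact (lt_of_lt_of_le hr (le_max_left _ _)).ne'

/-- planar mean -/
theorem planar (P Q : ℂ) (r : ℝ) :
    ∫ t : UnitAddCircle, Real.log (max r ‖P + Q * ((AddCircle.toCircle ((t) : UnitAddCircle) : Circle) : ℂ)‖) = m3 ‖P‖ ‖Q‖ r := by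
  obtain ⟨s1, hs1⟩ := exists_polar P
  obtain ⟨s2, hs2⟩ := exists_polar Q
  have h1 : ∀ t : UnitAddCircle, ‖P + Q * ((AddCircle.toCircle ((t) : UnitAddCircle) : Circle) : ℂ)‖ = ‖(‖P‖ : ℂ) + ‖Q‖ * ((AddCircle.toCircle ((t + (s2 - s1)) : UnitAddCircle) : Circle) : ℂ)‖ := by
    intro t
    have h2 : P + Q * ((AddCircle.toCircle ((t) : UnitAddCircle) : Circle) : ℂ) = ((AddCircle.toCircle ((s1) : UnitAddCircle) : Circle) : ℂ) * ((‖P‖ : ℂ) + ‖Q‖ * ((AddCircle.toCircle ((t + (s2 - s1)) : UnitAddCircle) : Circle) : ℂ)) := by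
      conv_lhs => rw [hs1, hs2]
      have h3 : ((AddCircle.toCircle ((s1) : UnitAddCircle) : Circle) : ℂ) * ((AddCircle.toCircle ((t + (s2 - s1)) : UnitAddCircle) : Circle) : ℂ) = ((AddCircle.toCircle ((s2) : UnitAddCircle) : Circle) : ℂ) * ((AddCircle.toCircle ((t) : UnitAddCircle) : Circle) : ℂ) := by
        rw [← Circle.coe_mul, ← Circle.coe_mul, ← AddCircle.toCircle_add,
          ← AddCircle.toCircle_add]
        congr 2
        abel
      linear_combination -(‖Q‖ : ℂ) * h3
    rw [h2, norm_mul, Circle.norm_coe, one_mul]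
  simp_rw [h1]
  rw [integral_add_right_eq_self
    (fun t : UnitAddCircle => Real.log (max r ‖(‖P‖ : ℂ) + ‖Q‖ * ((AddCircle.toCircle ((t) : UnitAddCircle) : Circle) : ℂ)‖)) (s2 - s1)]
  rw [← UnitAddCircle.intervalIntegral_preimage 0]
  simp_rw [norm_planar]
  set p := ‖P‖
  set q := ‖Q‖
  set F : ℝ → ℝ := fun φ => Real.log (max r (rr p q φ)) with hF
  have h2π : (2 * π) ≠ 0 := by positivity
  change ∫ a in (0 : ℝ)..0 + 1, F (2 * π * a) = _
  rw [intervalIntegral.integral_comp_mul_left F h2π, mul_zero, zero_add, mul_one]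
  have h3 : ∫ φ in (0 : ℝ)..2 * π, F φ = 2 * ∫ φ in (0 : ℝ)..π, F φ := by
    rw [← intervalIntegral.integral_add_adjacent_intervals
      (intervalIntegrable_log_max p q r 0 π) (intervalIntegrable_log_max p q r π (2 * π))]
    have h4 : ∫ φ in π..2 * π, F φ = ∫ φ in (0 : ℝ)..π, F φ := by
      have h5 := intervalIntegral.integral_comp_sub_left (a := 0) (b := π) F (2 * π)
      rw [sub_zero, show 2 * π - π = π by ring] at h5
      rw [← h5]
      congr 1
      funext φ
      simp only [hF, rr_two_pi_sub]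
    rw [h4]
    ring
  rw [h3, m3, smul_eq_mul]
  field_simp
  rfl

/-- the inner two integrations -/
theorem inner_two (s t : UnitAddCircle) :
    ∫ c : UnitAddCircle, ∫ d : UnitAddCircle,
      Real.log ‖(((AddCircle.toCircle ((s) : UnitAddCircle) : Circle) : ℂ) - 1) * (((AddCircle.toCircle ((d) : UnitAddCircle) : Circle) : ℂ) - 1) - (((AddCircle.toCircle ((t) : UnitAddCircle) : Circle) : ℂ) - 1) * (((AddCircle.toCircle ((c) : UnitAddCircle) : Circle) : ℂ) - 1)‖ =
      m3 ‖((AddCircle.toCircle ((t) : UnitAddCircle) : Circle) : ℂ) - ((AddCircle.toCircle ((s) : UnitAddCircle) : Circle) : ℂ)‖ ‖((AddCircle.toCircle ((t) : UnitAddCircle) : Circle) : ℂ) - 1‖ ‖((AddCircle.toCircle ((s) : UnitAddCircle) : Circle) : ℂ) - 1‖ := by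
  have h1 : ∀ c d : UnitAddCircle, (((AddCircle.toCircle ((s) : UnitAddCircle) : Circle) : ℂ) - 1) * (((AddCircle.toCircle ((d) : UnitAddCircle) : Circle) : ℂ) - 1) - (((AddCircle.toCircle ((t) : UnitAddCircle) : Circle) : ℂ) - 1) * (((AddCircle.toCircle ((c) : UnitAddCircle) : Circle) : ℂ) - 1) =
      (((AddCircle.toCircle ((s) : UnitAddCircle) : Circle) : ℂ) - 1) * ((AddCircle.toCircle ((d) : UnitAddCircle) : Circle) : ℂ) + ((((AddCircle.toCircle ((t) : UnitAddCircle) : Circle) : ℂ) - ((AddCircle.toCircle ((s) : UnitAddCircle) : Circle) : ℂ)) + -(((AddCircle.toCircle ((t) : UnitAddCircle) : Circle) : ℂ) - 1) * ((AddCircle.toCircle ((c) : UnitAddCircle) : Circle) : ℂ)) := by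
    intro c d
    ring
  simp_rw [h1, (circle_integral _ _).2]
  rw [planar, norm_neg]

/-- coordinates on the torus -/
def coords : ((UnitAddCircle × UnitAddCircle) × (UnitAddCircle × UnitAddCircle)) →+
    (Fin 2 × Fin 2 → UnitAddCircle) where
  toFun z := fun q => if q.1 = 0 then (if q.2 = 0 then z.1.1 + z.1.2 else z.1.1)
    else (if q.2 = 0 then z.2.1 else z.2.2)
  map_zero' := by
    funext q
    simp
  map_add' z w := by
    funext q
    simp only [Pi.add_apply, Prod.fst_add, Prod.snd_add]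
    split_ifs <;> abel

theorem coords_apply (z : (UnitAddCircle × UnitAddCircle) × (UnitAddCircle × UnitAddCircle))
    (q : Fin 2 × Fin 2) : coords z q = if q.1 = 0 then (if q.2 = 0 then z.1.1 + z.1.2 else z.1.1)
    else (if q.2 = 0 then z.2.1 else z.2.2) := rfl

theorem continuous_coords : Continuous coords := by
  apply continuous_pi
  intro q
  simp only [coords_apply]
  split_ifs <;> fun_prop

theorem surjective_coords : Function.Surjective coords := by
  intro φ
  refine ⟨((φ (0, 1), φ (0, 0) - φ (0, 1)), (φ (1, 0), φ (1, 1))), ?_⟩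
  funext q
  obtain ⟨i, j⟩ := q
  fin_cases i <;> fin_cases j <;> simp [coords_apply]

theorem measurePreserving_coords : MeasurePreserving coords volume volume := by
  have h1 := haar_four
  have h2 := haar_torus (Fin 2 × Fin 2)
  have h3 := prob_four
  have h4 := prob_torus (Fin 2 × Fin 2)
  exact AddMonoidHom.measurePreserving continuous_coords surjective_coords
    (by rw [measure_univ, measure_univ])

/-- the `2 × 2` determinant -/
theorem det_coords (z : (UnitAddCircle × UnitAddCircle) × (UnitAddCircle × UnitAddCircle)) :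
    (Matrix.of fun i j : Fin 2 => ((AddCircle.toCircle ((coords z (i, j)) : UnitAddCircle) : Circle) : ℂ) - 1).det =
      (((AddCircle.toCircle ((z.1.1 + z.1.2) : UnitAddCircle) : Circle) : ℂ) - 1) * (((AddCircle.toCircle ((z.2.2) : UnitAddCircle) : Circle) : ℂ) - 1) - (((AddCircle.toCircle ((z.1.1) : UnitAddCircle) : Circle) : ℂ) - 1) * (((AddCircle.toCircle ((z.2.1) : UnitAddCircle) : Circle) : ℂ) - 1) := by
  rw [Matrix.det_fin_two]
  simp [coords_apply]

/-- reduction to a function of two angles -/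
theorem reduce_two (hint : Integrable fun θ : Fin 2 × Fin 2 → UnitAddCircle =>
      Real.log ‖(Matrix.of fun i j : Fin 2 => ((AddCircle.toCircle ((θ (i, j)) : UnitAddCircle) : Circle) : ℂ) - 1).det‖) :
    Integrable (fun z : UnitAddCircle × UnitAddCircle =>
      m3 ‖((AddCircle.toCircle ((z.2) : UnitAddCircle) : Circle) : ℂ) - 1‖ ‖((AddCircle.toCircle ((z.1) : UnitAddCircle) : Circle) : ℂ) - 1‖ ‖((AddCircle.toCircle ((z.1 + z.2) : UnitAddCircle) : Circle) : ℂ) - 1‖) ∧
    ∫ θ : Fin 2 × Fin 2 → UnitAddCircle,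
      Real.log ‖(Matrix.of fun i j : Fin 2 => ((AddCircle.toCircle ((θ (i, j)) : UnitAddCircle) : Circle) : ℂ) - 1).det‖ =
    ∫ z : UnitAddCircle × UnitAddCircle, m3 ‖((AddCircle.toCircle ((z.2) : UnitAddCircle) : Circle) : ℂ) - 1‖ ‖((AddCircle.toCircle ((z.1) : UnitAddCircle) : Circle) : ℂ) - 1‖ ‖((AddCircle.toCircle ((z.1 + z.2) : UnitAddCircle) : Circle) : ℂ) - 1‖ := by
  have hpc := prob_circle
  have h1 : Integrable (fun z : (UnitAddCircle × UnitAddCircle) × (UnitAddCircle × UnitAddCircle) =>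
      Real.log ‖(((AddCircle.toCircle ((z.1.1 + z.1.2) : UnitAddCircle) : Circle) : ℂ) - 1) * (((AddCircle.toCircle ((z.2.2) : UnitAddCircle) : Circle) : ℂ) - 1) - (((AddCircle.toCircle ((z.1.1) : UnitAddCircle) : Circle) : ℂ) - 1) * (((AddCircle.toCircle ((z.2.1) : UnitAddCircle) : Circle) : ℂ) - 1)‖) := by
    have := measurePreserving_coords.integrable_comp_of_integrable hint
    simpa only [Function.comp_def, det_coords] using this
  have h2 : ∫ θ : Fin 2 × Fin 2 → UnitAddCircle,
      Real.log ‖(Matrix.of fun i j : Fin 2 => ((AddCircle.toCircle ((θ (i, j)) : UnitAddCircle) : Circle) : ℂ) - 1).det‖ =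
      ∫ z : (UnitAddCircle × UnitAddCircle) × (UnitAddCircle × UnitAddCircle),
      Real.log ‖(((AddCircle.toCircle ((z.1.1 + z.1.2) : UnitAddCircle) : Circle) : ℂ) - 1) * (((AddCircle.toCircle ((z.2.2) : UnitAddCircle) : Circle) : ℂ) - 1) - (((AddCircle.toCircle ((z.1.1) : UnitAddCircle) : Circle) : ℂ) - 1) * (((AddCircle.toCircle ((z.2.1) : UnitAddCircle) : Circle) : ℂ) - 1)‖ := by
    rw [← measurePreserving_coords.map_eq, integral_map
      measurePreserving_coords.measurable.aemeasurable]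
    · simp only [det_coords]
    · rw [measurePreserving_coords.map_eq]
      exact hint.aestronglyMeasurable
  have h3 : ∀ z : UnitAddCircle × UnitAddCircle,
      m3 ‖((AddCircle.toCircle ((z.2) : UnitAddCircle) : Circle) : ℂ) - 1‖ ‖((AddCircle.toCircle ((z.1) : UnitAddCircle) : Circle) : ℂ) - 1‖ ‖((AddCircle.toCircle ((z.1 + z.2) : UnitAddCircle) : Circle) : ℂ) - 1‖ =
      ∫ c : UnitAddCircle, ∫ d : UnitAddCircle,
      Real.log ‖(((AddCircle.toCircle ((z.1 + z.2) : UnitAddCircle) : Circle) : ℂ) - 1) * (((AddCircle.toCircle ((d) : UnitAddCircle) : Circle) : ℂ) - 1) - (((AddCircle.toCircle ((z.1) : UnitAddCircle) : Circle) : ℂ) - 1) * (((AddCircle.toCircle ((c) : UnitAddCircle) : Circle) : ℂ) - 1)‖ := by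
    intro z
    rw [inner_two]
    congr 1
    rw [AddCircle.toCircle_add, Circle.coe_mul]
    have : ((AddCircle.toCircle ((z.1) : UnitAddCircle) : Circle) : ℂ) - ((AddCircle.toCircle ((z.1) : UnitAddCircle) : Circle) : ℂ) * ((AddCircle.toCircle ((z.2) : UnitAddCircle) : Circle) : ℂ) = -((AddCircle.toCircle ((z.1) : UnitAddCircle) : Circle) : ℂ) * (((AddCircle.toCircle ((z.2) : UnitAddCircle) : Circle) : ℂ) - 1) := by ring
    rw [this, norm_mul, norm_neg, Circle.norm_coe, one_mul]
  have h4 : ∀ᵐ z : UnitAddCircle × UnitAddCircle,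
      m3 ‖((AddCircle.toCircle ((z.2) : UnitAddCircle) : Circle) : ℂ) - 1‖ ‖((AddCircle.toCircle ((z.1) : UnitAddCircle) : Circle) : ℂ) - 1‖ ‖((AddCircle.toCircle ((z.1 + z.2) : UnitAddCircle) : Circle) : ℂ) - 1‖ =
      ∫ w : UnitAddCircle × UnitAddCircle,
      Real.log ‖(((AddCircle.toCircle ((z.1 + z.2) : UnitAddCircle) : Circle) : ℂ) - 1) * (((AddCircle.toCircle ((w.2) : UnitAddCircle) : Circle) : ℂ) - 1) - (((AddCircle.toCircle ((z.1) : UnitAddCircle) : Circle) : ℂ) - 1) * (((AddCircle.toCircle ((w.1) : UnitAddCircle) : Circle) : ℂ) - 1)‖ := by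
    filter_upwards [h1.prod_right_ae] with z hz
    rw [h3]
    exact (integral_prod _ hz).symm
  constructor
  · exact (h1.integral_prod_left).congr (h4.mono fun z hz => hz.symm)
  · rw [h2]
    refine (integral_prod _ h1).trans ?_
    exact integral_congr_ae (h4.mono fun z hz => hz.symm)

theorem norm_e_sub_one (x : ℝ) : ‖((AddCircle.toCircle (((x : UnitAddCircle)) : UnitAddCircle) : Circle) : ℂ) - 1‖ = 2 * |Real.sin (π * x)| := by
  have h := Complex.norm_exp_I_mul_ofReal_sub_one (2 * π * x)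
  rw [toCircle_mk]
  have h1 : Complex.exp (2 * π * x * Complex.I) = Complex.exp (Complex.I * (2 * π * x : ℝ)) := by
    push_cast
    ring_nf
  rw [h1, h, Real.norm_eq_abs, abs_mul, abs_two]
  congr 3
  ring

theorem m3_comm (p q r : ℝ) : m3 p q r = m3 q p r := by
  unfold m3
  simp_rw [rr_comm p q]

/-- the function of two angles -/
noncomputable def hh (a b : ℝ) : ℝ :=
  m3 (2 * |Real.sin a|) (2 * |Real.sin b|) (2 * |Real.sin (a + b)|)

/-- folding the square -/
theorem fold_square (g : ℝ → ℝ → ℝ)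
    (hg : Integrable (fun p : ℝ × ℝ => g p.1 p.2)
      ((volume.restrict (Set.Ioc (0 : ℝ) 1)).prod (volume.restrict (Set.Ioc (0 : ℝ) 1))))
    (hs : ∀ x y, g (1 - x) (1 - y) = g x y) :
    ∫ x in (0 : ℝ)..1, ∫ y in (0 : ℝ)..1, g x y =
      2 * ∫ x in (0 : ℝ)..1, ∫ y in (0 : ℝ)..(1 - x), g x y := by
  set A : ℝ → ℝ := fun x => ∫ y in (0 : ℝ)..(1 - x), g x y with hA
  set B : ℝ → ℝ := fun x => ∫ y in (0 : ℝ)..1, g x y with hB
  set C : ℝ → ℝ := fun x => ∫ y in (1 - x)..1, g x y with hC
  have hBi : IntervalIntegrable B volume 0 1 := by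
    rw [intervalIntegrable_iff_integrableOn_Ioc_of_le zero_le_one]
    have h := hg.integral_prod_left
    refine h.congr ?_
    refine Filter.Eventually.of_forall fun x => ?_
    simp only [hB]
    rw [intervalIntegral.integral_of_le zero_le_one]
  have hAi : IntervalIntegrable A volume 0 1 := by
    rw [intervalIntegrable_iff_integrableOn_Ioc_of_le zero_le_one]
    have hmeas : MeasurableSet {p : ℝ × ℝ | p.2 ≤ 1 - p.1} :=
      measurableSet_le measurable_snd (measurable_const.sub measurable_fst)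
    have h := (hg.indicator hmeas).integral_prod_left
    refine h.congr ?_
    refine (ae_restrict_iff' measurableSet_Ioc).2 (Filter.Eventually.of_forall fun x hx => ?_)
    simp only [hA]
    rw [intervalIntegral.integral_of_le (by linarith [hx.2])]
    have h1 : ∀ y, Set.indicator {p : ℝ × ℝ | p.2 ≤ 1 - p.1} (fun p : ℝ × ℝ => g p.1 p.2) (x, y) =
        Set.indicator (Set.Iic (1 - x)) (fun y => g x y) y := by
      intro y
      simp only [Set.indicator, Set.mem_ofPred_eq, Set.mem_Iic]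
    simp_rw [h1]
    rw [integral_indicator measurableSet_Iic, Measure.restrict_restrict measurableSet_Iic]
    congr 2
    ext y
    simp only [Set.mem_inter_iff, Set.mem_Iic, Set.mem_Ioc]
    constructor
    · rintro ⟨h1, h2, h3⟩
      exact ⟨h2, h1⟩
    · rintro ⟨h1, h2⟩
      exact ⟨h2, h1, by linarith [hx.1]⟩
  have hABC : ∀ᵐ x ∂volume.restrict (Set.Ioc (0 : ℝ) 1), B x = A x + C x := by
    filter_upwards [hg.prod_right_ae, ae_restrict_mem measurableSet_Ioc] with x hx hx1
    have h1 : IntervalIntegrable (fun y => g x y) volume 0 1 := by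
      rw [intervalIntegrable_iff_integrableOn_Ioc_of_le zero_le_one]
      exact hx
    simp only [hA, hB, hC]
    rw [intervalIntegral.integral_add_adjacent_intervals]
    · apply h1.mono_set
      rw [Set.uIcc_of_le (by linarith [hx1.2]), Set.uIcc_of_le zero_le_one]
      exact Set.Icc_subset_Icc le_rfl (by linarith [hx1.1])
    · apply h1.mono_set
      rw [Set.uIcc_of_le (by linarith [hx1.1]), Set.uIcc_of_le zero_le_one]
      exact Set.Icc_subset_Icc (by linarith [hx1.2]) le_rfl
  have h1 : ∫ x in (0 : ℝ)..1, B x = (∫ x in (0 : ℝ)..1, A x) + ∫ x in (0 : ℝ)..1, C x := by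
    have h2 : ∫ x in (0 : ℝ)..1, C x = ∫ x in (0 : ℝ)..1, (B x - A x) := by
      rw [intervalIntegral.integral_of_le zero_le_one, intervalIntegral.integral_of_le zero_le_one]
      refine integral_congr_ae ?_
      filter_upwards [hABC] with x hx
      rw [hx]
      ring
    rw [h2, intervalIntegral.integral_sub hBi hAi]
    ring
  have h2 : ∫ x in (0 : ℝ)..1, C x = ∫ x in (0 : ℝ)..1, A x := by
    set K : ℝ → ℝ := fun x => ∫ y in (0 : ℝ)..x, g x (1 - y) with hK
    have h3 : C = K := by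
      funext x
      simp only [hC, hK]
      have := intervalIntegral.integral_comp_sub_left (a := 0) (b := x) (fun y => g x y) 1
      rw [this, sub_zero]
    have h4 : ∀ x, K (1 - x) = A x := by
      intro x
      simp only [hK, hA, hs]
    have h5 := intervalIntegral.integral_comp_sub_left (a := 0) (b := 1) K 1
    rw [sub_self, sub_zero] at h5
    rw [h3, ← h5]
    simp_rw [h4]
  rw [h1, h2]
  ring

theorem hh_fold (x y : ℝ) : hh (π * (1 - x)) (π * (1 - y)) = hh (π * x) (π * y) := by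
  unfold hh
  have h1 : ∀ z : ℝ, |Real.sin (π * (1 - z))| = |Real.sin (π * z)| := by
    intro z
    rw [show π * (1 - z) = π - π * z by ring, Real.sin_pi_sub]
  have h2 : |Real.sin (π * (1 - x) + π * (1 - y))| = |Real.sin (π * x + π * y)| := by
    rw [show π * (1 - x) + π * (1 - y) = 2 * π - (π * x + π * y) by ring, Real.sin_two_pi_sub,
      abs_neg]
  rw [h1, h1, h2]

/-- **The mean for `d = 2` as an integral over the angles of a triangle.** -/
theorem reduce_main (hint : Integrable fun θ : Fin 2 × Fin 2 → UnitAddCircle =>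
      Real.log ‖(Matrix.of fun i j : Fin 2 => ((AddCircle.toCircle ((θ (i, j)) : UnitAddCircle) : Circle) : ℂ) - 1).det‖) :
    ∫ θ : Fin 2 × Fin 2 → UnitAddCircle,
      Real.log ‖(Matrix.of fun i j : Fin 2 => ((AddCircle.toCircle ((θ (i, j)) : UnitAddCircle) : Circle) : ℂ) - 1).det‖ =
    2 / π ^ 2 * ∫ a in (0 : ℝ)..π, ∫ b in (0 : ℝ)..(π - a),
      m3 (2 * Real.sin a) (2 * Real.sin b) (2 * Real.sin (a + b)) := by
  have hpc := prob_circle
  obtain ⟨h1, h2⟩ := reduce_two hint
  rw [h2]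
  have h3 : ∀ x y : ℝ, m3 ‖((AddCircle.toCircle (((y : UnitAddCircle)) : UnitAddCircle) : Circle) : ℂ) - 1‖ ‖((AddCircle.toCircle (((x : UnitAddCircle)) : UnitAddCircle) : Circle) : ℂ) - 1‖
      ‖((AddCircle.toCircle (((x : UnitAddCircle) + (y : UnitAddCircle)) : UnitAddCircle) : Circle) : ℂ) - 1‖ = hh (π * x) (π * y) := by
    intro x y
    rw [m3_comm, ← AddCircle.coe_add, norm_e_sub_one, norm_e_sub_one, norm_e_sub_one, hh, mul_add]
  have h4 : Integrable (fun p : ℝ × ℝ => hh (π * p.1) (π * p.2))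
      ((volume.restrict (Set.Ioc (0 : ℝ) 1)).prod (volume.restrict (Set.Ioc (0 : ℝ) 1))) := by
    have hmp : MeasurePreserving (Prod.map (fun x : ℝ => (x : UnitAddCircle))
        (fun x : ℝ => (x : UnitAddCircle)))
        ((volume.restrict (Set.Ioc (0 : ℝ) (0 + 1))).prod (volume.restrict (Set.Ioc (0 : ℝ) (0 + 1))))
        (volume : Measure (UnitAddCircle × UnitAddCircle)) :=
      (UnitAddCircle.measurePreserving_mk 0).prod (UnitAddCircle.measurePreserving_mk 0)
    have h5 := hmp.integrable_comp_of_integrable h1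
    simpa only [Function.comp_def, Prod.map, h3, zero_add] using h5
  have h5 : ∫ z : UnitAddCircle × UnitAddCircle,
      m3 ‖((AddCircle.toCircle ((z.2) : UnitAddCircle) : Circle) : ℂ) - 1‖ ‖((AddCircle.toCircle ((z.1) : UnitAddCircle) : Circle) : ℂ) - 1‖ ‖((AddCircle.toCircle ((z.1 + z.2) : UnitAddCircle) : Circle) : ℂ) - 1‖ =
      ∫ x in (0 : ℝ)..1, ∫ y in (0 : ℝ)..1, hh (π * x) (π * y) := by
    refine (integral_prod _ h1).trans ?_
    rw [← UnitAddCircle.intervalIntegral_preimage 0, zero_add]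
    congr 1
    funext x
    rw [← UnitAddCircle.intervalIntegral_preimage 0, zero_add]
    simp_rw [h3]
  rw [h5, fold_square (fun x y => hh (π * x) (π * y)) h4 (fun x y => hh_fold x y)]
  have hπ : π ≠ 0 := Real.pi_ne_zero
  have h6 : ∀ x : ℝ, ∫ y in (0 : ℝ)..(1 - x), hh (π * x) (π * y) =
      π⁻¹ * ∫ b in (0 : ℝ)..(π - π * x), hh (π * x) b := by
    intro x
    rw [intervalIntegral.integral_comp_mul_left (fun b => hh (π * x) b) hπ, mul_zero, mul_sub,
      mul_one, smul_eq_mul]
  simp_rw [h6]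
  rw [intervalIntegral.integral_const_mul]
  have h7 := intervalIntegral.integral_comp_mul_left (a := 0) (b := 1)
    (fun a => ∫ b in (0 : ℝ)..(π - a), hh a b) hπ
  rw [mul_zero, mul_one, smul_eq_mul] at h7
  rw [h7]
  have h8 : ∫ a in (0 : ℝ)..π, ∫ b in (0 : ℝ)..(π - a), hh a b =
      ∫ a in (0 : ℝ)..π, ∫ b in (0 : ℝ)..(π - a),
      m3 (2 * Real.sin a) (2 * Real.sin b) (2 * Real.sin (a + b)) := by
    apply intervalIntegral.integral_congr
    intro a ha
    rw [Set.uIcc_of_le Real.pi_pos.le] at ha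
    apply intervalIntegral.integral_congr
    intro b hb
    rw [Set.uIcc_of_le (by linarith [ha.2])] at hb
    simp only [hh]
    rw [abs_of_nonneg (Real.sin_nonneg_of_nonneg_of_le_pi ha.1 ha.2),
      abs_of_nonneg (Real.sin_nonneg_of_nonneg_of_le_pi hb.1 (by linarith [hb.2, ha.1])),
      abs_of_nonneg (Real.sin_nonneg_of_nonneg_of_le_pi (by linarith [ha.1, hb.1])
        (by linarith [hb.2]))]
  rw [h8]
  field_simp

/-- the bridge between the two forms of the mean -/
theorem mu_succ (k : ℕ) : mu (k + 1) = ∫ θ : Fin k × Fin k → UnitAddCircle,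
    Real.log ‖(Matrix.of fun i j : Fin k => ((AddCircle.toCircle ((θ (i, j)) : UnitAddCircle) : Circle) : ℂ) - 1).det‖ :=
  integral_nrm k

/-- the `d × d` form -/
theorem Mx_two_eq : ∫ θ : Fin 2 × Fin 2 → UnitAddCircle, Real.log ‖(FDA.Mx 2 θ).det‖ =
    2 / Real.pi ^ 2 * ∫ a in (0 : ℝ)..Real.pi, ∫ b in (0 : ℝ)..(Real.pi - a),
      m3 (2 * Real.sin a) (2 * Real.sin b) (2 * Real.sin (a + b)) :=
  reduce_main (FDA.logdet 2).2

/-- the `(d + 1) × (d + 1)` form -/
theorem mu_three_eq : mu 3 = 2 / Real.pi ^ 2 * ∫ a in (0 : ℝ)..Real.pi,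
    ∫ b in (0 : ℝ)..(Real.pi - a),
      m3 (2 * Real.sin a) (2 * Real.sin b) (2 * Real.sin (a + b)) :=
  (mu_succ 2).trans Mx_two_eq

end Pool.Agent.Lib.MP_9701dc_gt.FD
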