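import Pool.Agent.Lib.MP_9701dc_gt.FD.Fischer

set_option autoImplicit false
set_option linter.unusedSectionVars false

/-!
# A one-sided Szegő inequality in several variables

`m r a` are monomials (`r` a type of rows, `a` a type of columns); `sym m θ = U(θ)ᴴ U(θ)` with
`U(θ)_{r a} = e(⟨θ, m r a⟩)`; `boxG m L` is the Gram matrix of the columns `(a, x)`, `x` in a box of
side `L`, of the matrix with a one in row `(r, x + m r a)` for each `r`. Then
`log det (boxG m L) ≥ L^s ∫ log det sym`.
-/

namespace Pool.Agent.Lib.MP_9701dc_gt.FDA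

open Finset Matrix
open scoped ComplexOrder

variable {s R S : Type} [Fintype s] [DecidableEq s] [Fintype R] [DecidableEq R] [Fintype S]
  [DecidableEq S]

/-- the character `z` of the torus -/
noncomputable def ch (θ : s → UnitAddCircle) (z : s → ℤ) : ℂ := ∏ j, fourier (z j) (θ j)

theorem ch_add_left (θ φ : s → UnitAddCircle) (z : s → ℤ) : ch (θ + φ) z = ch θ z * ch φ z := by
  unfold ch
  rw [← prod_mul_distrib]
  refine prod_congr rfl fun j _ => ?_
  rw [Pi.add_apply, fourier_apply, fourier_apply, fourier_apply, zsmul_add, AddCircle.toCircle_add,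
    Circle.coe_mul]

theorem ch_add_right (θ : s → UnitAddCircle) (z w : s → ℤ) : ch θ (z + w) = ch θ z * ch θ w := by
  unfold ch
  rw [← prod_mul_distrib]
  exact prod_congr rfl fun j _ => fourier_add

theorem ch_neg_right (θ : s → UnitAddCircle) (z : s → ℤ) : ch θ (-z) = star (ch θ z) := by
  unfold ch
  rw [star_prod]
  exact prod_congr rfl fun j _ => fourier_neg

theorem ch_zero_right (θ : s → UnitAddCircle) : ch θ 0 = 1 := by
  unfold ch
  exact prod_eq_one fun j _ => fourier_zero

theorem ch_zero_left (z : s → ℤ) : ch 0 z = 1 := by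
  unfold ch
  exact prod_eq_one fun j _ => fourier_eval_zero _

theorem norm_ch (θ : s → UnitAddCircle) (z : s → ℤ) : ‖ch θ z‖ = 1 := by
  unfold ch
  rw [norm_prod]
  refine prod_eq_one fun j _ => ?_
  rw [fourier_apply]
  exact Circle.norm_coe _

theorem star_ch_mul_ch (θ : s → UnitAddCircle) (z w : s → ℤ) :
    star (ch θ z) * ch θ w = ch θ (w - z) := by
  rw [← ch_neg_right, ← ch_add_right]
  congr 1
  ring

theorem continuous_ch (z : s → ℤ) : Continuous fun θ : s → UnitAddCircle => ch θ z := by
  unfold ch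
  exact continuous_finsetProd _ fun j _ => (map_continuous (fourier (z j))).comp (continuous_apply j)

/-- the symbol -/
noncomputable def U (m : R → S → s → ℤ) (θ : s → UnitAddCircle) : Matrix R S ℂ :=
  of fun r a => ch θ (m r a)

/-- the Gram matrix of the symbol -/
noncomputable def sym (m : R → S → s → ℤ) (θ : s → UnitAddCircle) : Matrix S S ℂ :=
  (U m θ)ᴴ * U m θ

theorem sym_posSemidef (m : R → S → s → ℤ) (θ : s → UnitAddCircle) : (sym m θ).PosSemidef :=
  posSemidef_conjTranspose_mul_self _

theorem add_posDef {ι : Type} [Fintype ι] [DecidableEq ι] {H : Matrix ι ι ℂ} (hH : H.PosSemidef) {ε : ℝ} (hε : 0 < ε) :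
    (H + (ε : ℂ) • (1 : Matrix ι ι ℂ)).PosDef := by
  apply PosDef.posSemidef_add hH
  exact PosDef.one.smul (by exact_mod_cast hε)

/-- the Gram matrix of a box -/
def boxG (m : R → S → s → ℤ) (L : ℕ) : Matrix (S × (s → Fin L)) (S × (s → Fin L)) ℝ :=
  of fun p q => ∑ r, if ∀ j, ((p.2 j : ℕ) : ℤ) + m r p.1 j = ((q.2 j : ℕ) : ℤ) + m r q.1 j then 1
    else 0

section periodic

variable (N : ℕ) [NeZero N]

/-- the characters of `(ℤ/N)^s` -/
noncomputable def E (k x : s → ZMod N) : ℂ := ∏ j, ZMod.stdAddChar (k j * x j)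

variable {N}

theorem E_add_right (k x y : s → ZMod N) : E N k (x + y) = E N k x * E N k y := by
  unfold E
  rw [← prod_mul_distrib]
  refine prod_congr rfl fun j _ => ?_
  rw [Pi.add_apply, mul_add, AddChar.map_add_eq_mul]

theorem E_add_left (k l x : s → ZMod N) : E N (k + l) x = E N k x * E N l x := by
  unfold E
  rw [← prod_mul_distrib]
  refine prod_congr rfl fun j _ => ?_
  rw [Pi.add_apply, add_mul, AddChar.map_add_eq_mul]

theorem star_E (k x : s → ZMod N) : star (E N k x) = E N (-k) x := by
  unfold E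
  rw [star_prod]
  refine prod_congr rfl fun j _ => ?_
  rw [Pi.neg_apply, neg_mul, AddChar.map_neg_eq_inv, ZMod.stdAddChar_apply,
    ← Circle.coe_inv, Circle.coe_inv_eq_conj]
  rfl

theorem sum_E (k : s → ZMod N) : ∑ x, E N k x = if k = 0 then (N : ℂ) ^ Fintype.card s else 0 := by
  unfold E
  have h1 : ∑ x : s → ZMod N, ∏ j, (ZMod.stdAddChar (k j * x j) : ℂ) =
      ∏ j, ∑ x : ZMod N, (ZMod.stdAddChar (k j * x) : ℂ) := by
    rw [prod_univ_sum]
    simp only [Fintype.piFinset_univ]
  rw [h1]
  have h2 : ∀ j, ∑ x : ZMod N, (ZMod.stdAddChar (k j * x) : ℂ) = if k j = 0 then (N : ℂ) else 0 := by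
    intro j
    have := AddChar.sum_mulShift (k j) (ZMod.isPrimitive_stdAddChar N)
    rw [ZMod.card] at this
    push_cast at this
    rw [← this]
    exact sum_congr rfl fun x _ => by rw [mul_comm]
  simp only [h2]
  by_cases h : k = 0
  · subst h
    simp
  · rw [if_neg h]
    obtain ⟨j, hj⟩ := Function.ne_iff.mp h
    exact prod_eq_zero (mem_univ j) (if_neg hj)

/-- the point `k / N` of the torus -/
noncomputable def pt (k : s → ZMod N) : s → UnitAddCircle := fun j => ZMod.toAddCircle (k j)

/-- reduction mod `N` -/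
def red (N : ℕ) (z : s → ℤ) : s → ZMod N := fun j => (z j : ZMod N)

theorem ch_pt (k : s → ZMod N) (z : s → ℤ) : ch (pt k) z = E N k (red N z) := by
  unfold ch E pt red
  refine prod_congr rfl fun j _ => ?_
  rw [fourier_apply, ← map_zsmul, zsmul_eq_mul, mul_comm]
  rfl

/-- the periodic matrix -/
noncomputable def perB (m : R → S → s → ℤ) (φ : s → UnitAddCircle) (N : ℕ) [NeZero N] :
    Matrix (R × (s → ZMod N)) (S × (s → ZMod N)) ℂ :=
  of fun z p => if z.2 = p.2 + red N (m z.1 p.1) then ch φ (m z.1 p.1) else 0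

/-- its Gram matrix -/
noncomputable def perG (m : R → S → s → ℤ) (φ : s → UnitAddCircle) (N : ℕ) [NeZero N] :
    Matrix (S × (s → ZMod N)) (S × (s → ZMod N)) ℂ := (perB m φ N)ᴴ * perB m φ N

theorem perG_apply (m : R → S → s → ℤ) (φ : s → UnitAddCircle) (p q : S × (s → ZMod N)) :
    perG m φ N p q = ∑ r, if p.2 + red N (m r p.1) = q.2 + red N (m r q.1) then
      star (ch φ (m r p.1)) * ch φ (m r q.1) else 0 := by
  unfold perG
  rw [mul_apply, Fintype.sum_prod_type]
  refine sum_congr rfl fun r _ => ?_
  rw [sum_eq_single (q.2 + red N (m r q.1))]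
  · rw [conjTranspose_apply]
    simp only [perB, of_apply, if_true]
    by_cases h : p.2 + red N (m r p.1) = q.2 + red N (m r q.1)
    · rw [if_pos h.symm, if_pos h]
    · rw [if_neg fun h' => h h'.symm, if_neg h, star_zero, zero_mul]
  · intro z _ hz
    rw [conjTranspose_apply]
    simp only [perB, of_apply]
    rw [if_neg hz, mul_zero]
  · intro h; exact absurd (mem_univ _) h

/-- the Fourier matrix -/
noncomputable def W (s S : Type) [Fintype s] [DecidableEq S] (N : ℕ) [NeZero N] :
    Matrix (S × (s → ZMod N)) (S × (s → ZMod N)) ℂ :=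
  of fun p q => if p.1 = q.1 then E N q.2 p.2 else 0

theorem perB_mul_W (m : R → S → s → ℤ) (φ : s → UnitAddCircle) :
    perB m φ N * W s S N = W s R N * blockDiagonal fun k : s → ZMod N => U m (φ - pt k) := by
  ext ⟨r, z⟩ ⟨b, k⟩
  rw [mul_apply, mul_apply, Fintype.sum_prod_type, Fintype.sum_prod_type]
  have h1 : ∀ (a : S) (x : s → ZMod N), perB m φ N (r, z) (a, x) * W s S N (a, x) (b, k) =
      if a = b then (if x = z - red N (m r a) then ch φ (m r a) * E N k x else 0) else 0 := by
    intro a x
    simp only [perB, W, of_apply]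
    by_cases hab : a = b
    · rw [if_pos hab, if_pos hab]
      by_cases hx : x = z - red N (m r a)
      · rw [if_pos hx, if_pos (by rw [hx]; abel)]
      · rw [if_neg hx, if_neg, zero_mul]
        intro h
        apply hx
        rw [h]
        abel
    · rw [if_neg hab, if_neg hab, mul_zero]
  have h2 : ∀ (r' : R) (l : s → ZMod N), W s R N (r, z) (r', l) *
      (blockDiagonal fun k : s → ZMod N => U m (φ - pt k)) (r', l) (b, k) =
      if r = r' then (if l = k then E N l z * U m (φ - pt k) r' b else 0) else 0 := by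
    intro r' l
    simp only [W, of_apply, blockDiagonal_apply]
    by_cases hr : r = r'
    · rw [if_pos hr, if_pos hr]
      by_cases hl : l = k
      · rw [if_pos hl, if_pos hl, hl]
      · rw [if_neg hl, if_neg hl, mul_zero]
    · rw [if_neg hr, if_neg hr, zero_mul]
  simp only [h1, h2]
  rw [sum_eq_single b, sum_eq_single r]
  · simp only [if_true]
    rw [sum_ite_eq' univ, sum_ite_eq' univ, if_pos (mem_univ _), if_pos (mem_univ _)]
    simp only [U, of_apply]
    rw [sub_eq_add_neg, sub_eq_add_neg, E_add_right, ch_add_left]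
    have h3 : ch (-pt k) (m r b) = E N k (-red N (m r b)) := by
      have e1 : (-pt k : s → UnitAddCircle) = pt (-k) := by
        funext j
        simp [pt]
      rw [e1, ch_pt]
      unfold E
      exact prod_congr rfl fun j _ => by simp
    rw [h3]
    ring
  · intro r' _ hr'
    exact sum_eq_zero fun l _ => if_neg (Ne.symm hr')
  · intro h; exact absurd (mem_univ _) h
  · intro a _ ha
    exact sum_eq_zero fun x _ => if_neg ha
  · intro h; exact absurd (mem_univ _) h

theorem perB_conj_mul_W (m : R → S → s → ℤ) (φ : s → UnitAddCircle) :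
    (perB m φ N)ᴴ * W s R N = W s S N * blockDiagonal fun k : s → ZMod N => (U m (φ - pt k))ᴴ := by
  ext ⟨a, x⟩ ⟨r, k⟩
  rw [mul_apply, mul_apply, Fintype.sum_prod_type, Fintype.sum_prod_type]
  have h1 : ∀ (r' : R) (z : s → ZMod N), (perB m φ N)ᴴ (a, x) (r', z) * W s R N (r', z) (r, k) =
      if r' = r then (if z = x + red N (m r' a) then star (ch φ (m r' a)) * E N k z else 0)
        else 0 := by
    intro r' z
    simp only [conjTranspose_apply, perB, W, of_apply]
    by_cases hr : r' = r
    · rw [if_pos hr, if_pos hr]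
      by_cases hz : z = x + red N (m r' a)
      · rw [if_pos hz, if_pos hz]
      · rw [if_neg hz, if_neg hz, star_zero, zero_mul]
    · rw [if_neg hr, if_neg hr, mul_zero]
  have h2 : ∀ (b : S) (l : s → ZMod N), W s S N (a, x) (b, l) *
      (blockDiagonal fun k : s → ZMod N => (U m (φ - pt k))ᴴ) (b, l) (r, k) =
      if a = b then (if l = k then E N l x * (U m (φ - pt k))ᴴ b r else 0) else 0 := by
    intro b l
    simp only [W, of_apply, blockDiagonal_apply]
    by_cases hr : a = b
    · rw [if_pos hr, if_pos hr]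
      by_cases hl : l = k
      · rw [if_pos hl, if_pos hl, hl]
      · rw [if_neg hl, if_neg hl, mul_zero]
    · rw [if_neg hr, if_neg hr, zero_mul]
  simp only [h1, h2]
  rw [sum_eq_single r, sum_eq_single a]
  · simp only [if_true]
    rw [sum_ite_eq' univ, sum_ite_eq' univ, if_pos (mem_univ _), if_pos (mem_univ _)]
    simp only [conjTranspose_apply, U, of_apply]
    rw [sub_eq_add_neg, E_add_right, ch_add_left, star_mul']
    have h3 : star (ch (-pt k) (m r a)) = E N k (red N (m r a)) := by
      have e1 : (-pt k : s → UnitAddCircle) = pt (-k) := by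
        funext j
        simp [pt]
      rw [e1, ch_pt, star_E, neg_neg]
    rw [h3]
    ring
  · intro b _ hb
    exact sum_eq_zero fun l _ => if_neg (Ne.symm hb)
  · intro h; exact absurd (mem_univ _) h
  · intro r' _ hr'
    exact sum_eq_zero fun z _ => if_neg hr'
  · intro h; exact absurd (mem_univ _) h

theorem perG_mul_W (m : R → S → s → ℤ) (φ : s → UnitAddCircle) :
    perG m φ N * W s S N = W s S N * blockDiagonal fun k : s → ZMod N => sym m (φ - pt k) := by
  unfold perG
  rw [Matrix.mul_assoc, perB_mul_W, ← Matrix.mul_assoc, perB_conj_mul_W, Matrix.mul_assoc,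
    ← blockDiagonal_mul]
  rfl

theorem W_conj_mul_W : (W s S N)ᴴ * W s S N = ((N : ℂ) ^ Fintype.card s) •
    (1 : Matrix (S × (s → ZMod N)) (S × (s → ZMod N)) ℂ) := by
  ext ⟨a, k⟩ ⟨b, l⟩
  rw [mul_apply, Fintype.sum_prod_type, Matrix.smul_apply, one_apply]
  have h1 : ∀ (c : S) (x : s → ZMod N), (W s S N)ᴴ (a, k) (c, x) * W s S N (c, x) (b, l) =
      if c = a then (if a = b then E N (l - k) x else 0) else 0 := by
    intro c x
    simp only [conjTranspose_apply, W, of_apply]
    by_cases hc : c = a
    · rw [if_pos hc, if_pos hc, hc]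
      by_cases hab : a = b
      · rw [if_pos hab, if_pos hab, star_E, sub_eq_add_neg, E_add_left]
        ring
      · rw [if_neg hab, if_neg hab, mul_zero]
    · rw [if_neg hc, if_neg hc, star_zero, zero_mul]
  simp only [h1]
  rw [sum_eq_single a]
  · simp only [if_true]
    by_cases hab : a = b
    · simp only [if_pos hab]
      rw [sum_E]
      by_cases hkl : k = l
      · subst hkl
        rw [sub_self, if_pos rfl, if_pos (by rw [hab])]
        simp
      · rw [if_neg (sub_ne_zero.mpr (Ne.symm hkl)), if_neg (fun h => hkl (congrArg Prod.snd h))]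
        simp
    · simp only [if_neg hab]
      rw [sum_const_zero, if_neg (fun h => hab (congrArg Prod.fst h))]
      simp
  · intro c _ hc
    exact sum_eq_zero fun x _ => if_neg hc
  · intro h; exact absurd (mem_univ _) h

theorem det_W_ne_zero : (W s S N).det ≠ 0 := by
  intro h0
  have h := congrArg Matrix.det (W_conj_mul_W (s := s) (S := S) (N := N))
  rw [det_mul, h0, mul_zero, det_smul, det_one, mul_one] at h
  have hN : (N : ℂ) ≠ 0 := by exact_mod_cast NeZero.ne N
  exact pow_ne_zero _ (pow_ne_zero _ hN) h.symm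

theorem det_perG (m : R → S → s → ℤ) (φ : s → UnitAddCircle) (ε : ℂ) :
    (perG m φ N + ε • (1 : Matrix (S × (s → ZMod N)) (S × (s → ZMod N)) ℂ)).det =
      ∏ k : s → ZMod N, (sym m (φ - pt k) + ε • (1 : Matrix S S ℂ)).det := by
  have h1 : (perG m φ N + ε • (1 : Matrix (S × (s → ZMod N)) (S × (s → ZMod N)) ℂ)) * W s S N =
      W s S N * blockDiagonal fun k : s → ZMod N => (sym m (φ - pt k) + ε • (1 : Matrix S S ℂ)) := by
    have e1 : (blockDiagonal fun k : s → ZMod N => (sym m (φ - pt k) + ε • (1 : Matrix S S ℂ))) =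
        (blockDiagonal fun k : s → ZMod N => sym m (φ - pt k)) +
          ε • (1 : Matrix (S × (s → ZMod N)) (S × (s → ZMod N)) ℂ) := by
      have e2 : (fun k : s → ZMod N => (sym m (φ - pt k) + ε • (1 : Matrix S S ℂ))) =
          (fun k => sym m (φ - pt k)) + ε • (1 : (s → ZMod N) → Matrix S S ℂ) := by
        funext k
        simp
      rw [e2, blockDiagonal_add, blockDiagonal_smul, blockDiagonal_one]
    rw [e1, Matrix.add_mul, Matrix.mul_add, perG_mul_W, Matrix.smul_mul, Matrix.mul_smul,
      Matrix.one_mul, Matrix.mul_one]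
  have h2 := congrArg Matrix.det h1
  rw [det_mul, det_mul, det_blockDiagonal, mul_comm] at h2
  exact mul_left_cancel₀ det_W_ne_zero h2

end periodic

end Pool.Agent.Lib.MP_9701dc_gt.FDA
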