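import Pool.Agent.Lib.MP_9701dc_gt.FD.Defs

set_option autoImplicit false

/-! Characters of the torus. -/

namespace Pool.Agent.Lib.MP_9701dc_gt.FD

open Finset MeasureTheory

theorem continuous_ee : Continuous ee :=
  continuous_induced_dom.comp AddCircle.continuous_toCircle

theorem norm_ee (t : UnitAddCircle) : ‖ee t‖ = 1 := Circle.norm_coe _

theorem ee_add (s t : UnitAddCircle) : ee (s + t) = ee s * ee t := by
  unfold ee
  rw [AddCircle.toCircle_add, Circle.coe_mul]

theorem ee_neg (t : UnitAddCircle) : ee (-t) = (starRingEnd ℂ) (ee t) := by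
  unfold ee
  rw [AddCircle.toCircle_neg, Circle.coe_inv_eq_conj]

theorem ee_zero : ee 0 = 1 := by
  unfold ee
  rw [AddCircle.toCircle_zero, Circle.coe_one]

theorem ee_zsmul (n : ℤ) (t : UnitAddCircle) : ee (n • t) = ee t ^ n := by
  unfold ee
  rw [AddCircle.toCircle_zsmul, Circle.coe_zpow]

theorem ee_coe (x : ℝ) : ee (x : UnitAddCircle) = Complex.exp (2 * Real.pi * Complex.I * x) := by
  unfold ee
  rw [AddCircle.toCircle_apply_mk, Circle.coe_exp]
  congr 1
  push_cast
  ring

theorem continuous_chi {K : Type} [Fintype K] (n : K → ℤ) : Continuous (chi n) := by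
  unfold chi
  exact continuous_ee.comp (continuous_finsetSum _ fun q _ => (continuous_apply q).zsmul (n q))

theorem norm_chi {K : Type} [Fintype K] (n : K → ℤ) (θ : K → UnitAddCircle) : ‖chi n θ‖ = 1 :=
  norm_ee _

theorem chi_add {K : Type} [Fintype K] (n m : K → ℤ) (θ : K → UnitAddCircle) :
    chi (n + m) θ = chi n θ * chi m θ := by
  unfold chi
  rw [← ee_add, ← sum_add_distrib]
  congr 1
  refine sum_congr rfl fun q _ => ?_
  rw [Pi.add_apply, add_zsmul]

theorem chi_neg {K : Type} [Fintype K] (n : K → ℤ) (θ : K → UnitAddCircle) :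
    chi (-n) θ = (starRingEnd ℂ) (chi n θ) := by
  unfold chi
  rw [← ee_neg, ← sum_neg_distrib]
  congr 1
  refine sum_congr rfl fun q _ => ?_
  rw [Pi.neg_apply, neg_zsmul]

theorem chi_zero {K : Type} [Fintype K] (θ : K → UnitAddCircle) : chi 0 θ = 1 := by
  unfold chi
  simp [ee_zero]

theorem chi_E1 {K : Type} [Fintype K] [DecidableEq K] (q : K) (θ : K → UnitAddCircle) :
    chi (E1 q) θ = ee (θ q) := by
  unfold chi E1
  congr 1
  rw [sum_eq_single q]
  · rw [Pi.single_eq_same, one_zsmul]
  · intro b _ hb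
    rw [Pi.single_eq_of_ne hb, zero_zsmul]
  · intro h
    exact absurd (mem_univ q) h

theorem chi_add_right {K : Type} [Fintype K] (n : K → ℤ) (θ φ : K → UnitAddCircle) :
    chi n (θ + φ) = chi n θ * chi n φ := by
  unfold chi
  rw [← ee_add, ← sum_add_distrib]
  congr 1
  refine sum_congr rfl fun q _ => ?_
  rw [Pi.add_apply, zsmul_add]

theorem chi_single {K : Type} [Fintype K] [DecidableEq K] (n : K → ℤ) (q : K)
    (t : UnitAddCircle) : chi n (Pi.single q t) = ee t ^ n q := by
  unfold chi
  rw [sum_eq_single q]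
  · rw [Pi.single_eq_same, ee_zsmul]
  · intro b _ hb
    rw [Pi.single_eq_of_ne hb, zsmul_zero]
  · intro h
    exact absurd (mem_univ q) h

theorem integral_chi {K : Type} [Fintype K] [DecidableEq K] (n : K → ℤ) :
    ∫ θ : K → UnitAddCircle, chi n θ = if n = 0 then 1 else 0 := by
  split_ifs with h
  · subst h
    simp only [chi_zero]
    rw [integral_const]
    have h1 : (volume : Measure (K → UnitAddCircle)) Set.univ = 1 := by
      rw [← Set.pi_univ Set.univ, volume_pi_pi]
      simp
    rw [measureReal_def, h1]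
    simp
  · obtain ⟨q, hq⟩ : ∃ q, n q ≠ 0 := by
      by_contra hc
      push Not at hc
      exact h (funext hc)
    have hq' : (n q : ℝ) ≠ 0 := by exact_mod_cast hq
    set φ : K → UnitAddCircle := Pi.single q (((1 / (2 * (n q : ℝ)) : ℝ)) : UnitAddCircle) with hφ
    have h1 : chi n φ = -1 := by
      rw [hφ, chi_single, ee_coe, ← Complex.exp_int_mul]
      have h2 : (n q : ℂ) * (2 * Real.pi * Complex.I * ((1 / (2 * (n q : ℝ)) : ℝ) : ℂ)) =
          Real.pi * Complex.I := by
        have h3 : (n q : ℂ) ≠ 0 := by exact_mod_cast hq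
        push_cast
        field_simp
      rw [h2, Complex.exp_pi_mul_I]
    have h4 : ∫ θ : K → UnitAddCircle, chi n (θ + φ) = ∫ θ : K → UnitAddCircle, chi n θ :=
      integral_add_right_eq_self (fun θ => chi n θ) φ
    simp only [chi_add_right, h1] at h4
    rw [integral_mul_const] at h4
    have h5 : (2 : ℂ) * ∫ θ : K → UnitAddCircle, chi n θ = 0 := by linear_combination -h4
    rcases mul_eq_zero.mp h5 with h6 | h6
    · norm_num at h6
    · exact h6

end Pool.Agent.Lib.MP_9701dc_gt.FD
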