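import Pool.Agent.Lib.MP_9701dc_gt.FD.Cone
import Pool.Agent.Lib.MP_9701dc_gt.FD.Place

set_option autoImplicit false

/-!
# Transfer: disjoint blocks of colours give a block diagonal minor
-/

namespace Pool.Agent.Lib.MP_9701dc_gt.FD

open Finset MeasureTheory Filter Topology
open Pool.Agent.Lib.MP_9701dc_gt Pool.Agent.Lib.MP_9701dc_gt.GR

theorem transfer {d N : ℕ} (hd : 2 ≤ d) (hN : d + 1 ≤ N) {G I : Type} [Fintype G] [DecidableEq G]
    [Nonempty G] [Fintype I] [DecidableEq I] (r : I → Fin (d + 1) × (Fin (d + 1) → G))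
    (c : I → Fin (d + 1) → G) (hdet : (PM r c).det ≠ 0) :
    (PM r c).det.natAbs ^ (zeroSum N d).card ≤ Tmax (N * Fintype.card G + 1) d := by
  classical
  set m := Fintype.card G with hm
  have hm1 : 1 ≤ m := Fintype.card_pos
  have e : G ≃ Fin m := Fintype.equivFin G
  have hn : d + 1 ≤ N * m + 1 := by
    have : N * 1 ≤ N * m := Nat.mul_le_mul_left _ hm1
    omega
  have hz : ∀ B : {B // B ∈ zeroSum N d}, B.1.card = d + 1 ∧ N ∣ ∑ b ∈ B.1, (b : ℕ) := by
    intro B
    have := B.2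
    unfold zeroSum at this
    exact (mem_filter.mp this).2
  let M : Matrix I I ℤ := Matrix.of fun a b => (-1) ^ ((r a).1 : ℕ) * PM r c a b
  have hMdet : M.det = (∏ a, (-1 : ℤ) ^ ((r a).1 : ℕ)) * (PM r c).det :=
    Matrix.det_mul_column (fun a => (-1 : ℤ) ^ ((r a).1 : ℕ)) (PM r c)
  let A : Matrix (I × {B // B ∈ zeroSum N d}) (I × {B // B ∈ zeroSum N d}) ℤ :=
    Matrix.blockDiagonal fun _ => M
  have hAdet : A.det = M.det ^ (zeroSum N d).card := by
    change (Matrix.blockDiagonal fun _ : {B // B ∈ zeroSum N d} => M).det = _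
    rw [Matrix.det_blockDiagonal, prod_const, card_univ, Fintype.card_coe]
  have hnat : A.det.natAbs = (PM r c).det.natAbs ^ (zeroSum N d).card := by
    rw [hAdet, Int.natAbs_pow, hMdet, Int.natAbs_mul]
    have h1 : (∏ a, (-1 : ℤ) ^ ((r a).1 : ℕ)).natAbs = 1 := by
      have h2 := map_prod Int.natAbsHom (fun a => (-1 : ℤ) ^ ((r a).1 : ℕ)) univ
      refine h2.trans (prod_eq_one fun a _ => ?_)
      change ((-1 : ℤ) ^ ((r a).1 : ℕ)).natAbs = 1
      rw [Int.natAbs_pow]
      simp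
    rw [h1, one_mul]
  have hne : A.det ≠ 0 := by
    intro h
    rw [h, Int.natAbs_zero] at hnat
    exact absurd hnat.symm (pow_ne_zero _ (Int.natAbs_ne_zero.mpr hdet))
  rw [← hnat]
  refine minor_le hd hn (Fin.last (N * m))
    (fun q => rowSet e (q.2.1.orderEmbOfFin (hz q.2).1) (r q.1))
    (fun q => card_rowSet e (q.2.1.orderEmbOfFin (hz q.2).1) (r q.1))
    (fun q => facSet e (q.2.1.orderEmbOfFin (hz q.2).1) (c q.1))
    (fun q => card_facSet e (q.2.1.orderEmbOfFin (hz q.2).1) (c q.1)) A ?_ hne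
  rintro ⟨a, B⟩ ⟨b, B'⟩
  change (Matrix.blockDiagonal fun _ : {B // B ∈ zeroSum N d} => M) (a, B) (b, B') = _
  rw [Matrix.blockDiagonal_apply]
  by_cases h : B = B'
  · subst h
    simp only [if_true]
    rw [inc_same]
    rfl
  · simp only [if_neg h]
    exact (inc_diff e (hz B).1 (hz B').1 (hz B).2 (hz B').2 (fun hB => h (Subtype.ext hB))
      (r a) (c b)).symm

end Pool.Agent.Lib.MP_9701dc_gt.FD
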