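import Pool.Agent.Lib.MP_9701dc_gt.GR.DetMax

set_option autoImplicit false
set_option linter.unusedSectionVars false

/-!
# A large minor, weighted form
-/

namespace Pool.Agent.Lib.MP_9701dc_gt.FDA

open Finset Matrix Pool.Agent.Lib.MP_9701dc_gt.GR

variable {ι κ : Type} [Fintype ι] [DecidableEq ι] [Fintype κ] [DecidableEq κ]

theorem card_fiber (S : Finset κ) (hS : S.card = Fintype.card ι) :
    (univ.filter fun c : ι ↪ κ => univ.map c = S).card ≤ (Fintype.card ι).factorial := by
  have h1 : Fintype.card (ι ↪ S) = (Fintype.card ι).factorial := by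
    rw [Fintype.card_embedding_eq, Fintype.card_coe, hS, Nat.descFactorial_self]
  rw [← h1, ← card_univ]
  have hmem : ∀ c ∈ (univ.filter fun c : ι ↪ κ => univ.map c = S), ∀ i, c i ∈ S := by
    intro c hc i
    rw [← (mem_filter.mp hc).2]
    exact mem_map_of_mem c (mem_univ i)
  refine card_le_card_of_injOn (fun c => if h : ∀ i, c i ∈ S then
    ⟨fun i => ⟨c i, h i⟩, fun i j hij => c.injective (congrArg Subtype.val hij)⟩ else
      (Equiv.embeddingCongr (Equiv.refl ι) (Equiv.refl S)) (Classical.choice (by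
        rw [← Fintype.card_pos_iff, h1]; exact Nat.factorial_pos _))) (fun c _ => mem_coe.mpr (mem_univ _)) ?_
  intro c hc c' hc' h
  have e1 := hmem c (mem_coe.mp hc)
  have e2 := hmem c' (mem_coe.mp hc')
  simp only [dif_pos e1, dif_pos e2] at h
  ext i
  have := congrArg (fun f : ι ↪ S => ((f i : S) : κ)) h
  exact this

theorem sum_embedding_le (w : κ → ℝ) (hw : ∀ k, 0 ≤ w k) {z : ℝ} (hz : 0 < z) :
    z ^ Fintype.card ι * ∑ c : ι ↪ κ, ∏ i, w (c i) ≤
      ((Fintype.card ι).factorial : ℝ) * ∏ k, (1 + z * w k) := by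
  have h1 : ∑ c : ι ↪ κ, ∏ i, w (c i) =
      ∑ S ∈ powersetCard (Fintype.card ι) univ,
        ∑ c ∈ univ.filter (fun c : ι ↪ κ => univ.map c = S), ∏ i, w (c i) := by
    symm
    refine sum_fiberwise_of_maps_to (fun c _ => ?_) _
    rw [mem_powersetCard]
    exact ⟨subset_univ _, by rw [card_map, card_univ]⟩
  have h2 : ∀ S ∈ powersetCard (Fintype.card ι) (univ : Finset κ),
      ∑ c ∈ univ.filter (fun c : ι ↪ κ => univ.map c = S), ∏ i, w (c i) ≤
        ((Fintype.card ι).factorial : ℝ) * ∏ k ∈ S, w k := by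
    intro S hS
    have h3 : ∀ c ∈ univ.filter (fun c : ι ↪ κ => univ.map c = S), ∏ i, w (c i) = ∏ k ∈ S, w k := by
      intro c hc
      rw [← (mem_filter.mp hc).2, prod_map]
    rw [sum_congr rfl h3, sum_const, nsmul_eq_mul]
    refine mul_le_mul_of_nonneg_right ?_ (prod_nonneg fun k _ => hw k)
    exact_mod_cast card_fiber S (mem_powersetCard.mp hS).2
  have h4 : ∏ k, (1 + z * w k) = ∑ S ∈ (univ : Finset κ).powerset, ∏ k ∈ S, (z * w k) :=
    prod_one_add univ
  calc z ^ Fintype.card ι * ∑ c : ι ↪ κ, ∏ i, w (c i) ≤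
      z ^ Fintype.card ι * ∑ S ∈ powersetCard (Fintype.card ι) univ,
        ((Fintype.card ι).factorial : ℝ) * ∏ k ∈ S, w k := by
        rw [h1]
        exact mul_le_mul_of_nonneg_left (sum_le_sum h2) (by positivity)
    _ = ((Fintype.card ι).factorial : ℝ) * ∑ S ∈ powersetCard (Fintype.card ι) (univ : Finset κ),
        ∏ k ∈ S, (z * w k) := by
        rw [mul_sum, mul_sum]
        refine sum_congr rfl fun S hS => ?_
        rw [prod_mul_distrib, prod_const, (mem_powersetCard.mp hS).2]
        ring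
    _ ≤ ((Fintype.card ι).factorial : ℝ) * ∑ S ∈ (univ : Finset κ).powerset,
        ∏ k ∈ S, (z * w k) := by
        refine mul_le_mul_of_nonneg_left ?_ (by positivity)
        refine sum_le_sum_of_subset_of_nonneg (fun S _ => mem_powerset.mpr (subset_univ _)) ?_
        intro S _ _
        exact prod_nonneg fun k _ => mul_nonneg hz.le (hw k)
    _ = _ := by rw [h4]

/-- **A large minor, weighted form.** -/
theorem exists_minor_weighted (A : Matrix ι κ ℝ) (w : κ → ℝ) (hw : ∀ k, 0 ≤ w k)
    (hA : 0 < (A * diagonal w * A.transpose).det) {z : ℝ} (hz : 0 < z) :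
    ∃ c : ι → κ, Function.Injective c ∧
      z ^ Fintype.card ι * (A * diagonal w * A.transpose).det ≤
        (∏ k, (1 + z * w k)) * (A.submatrix id c).det ^ 2 := by
  classical
  set B : Matrix ι κ ℝ := A * diagonal (fun k => √(w k)) with hB
  have hBB : B * B.transpose = A * diagonal w * A.transpose := by
    rw [hB, transpose_mul, diagonal_transpose, Matrix.mul_assoc, ← Matrix.mul_assoc (diagonal _),
      diagonal_mul_diagonal, ← Matrix.mul_assoc]
    congr 3
    funext k
    exact Real.mul_self_sqrt (hw k)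
  have h := factorial_mul_det B
  rw [hBB] at h
  have hdet : ∀ c : ι → κ, (B.submatrix id c).det ^ 2 =
      (A.submatrix id c).det ^ 2 * ∏ i, w (c i) := by
    intro c
    have h1 : B.submatrix id c = A.submatrix id c * diagonal (fun i => √(w (c i))) := by
      ext i j
      rw [submatrix_apply, hB, mul_diagonal, mul_diagonal, submatrix_apply]
    rw [h1, det_mul, det_diagonal, mul_pow, ← prod_pow]
    congr 1
    exact prod_congr rfl fun i _ => Real.sq_sqrt (hw _)
  have hnon : ∀ c : ι → κ, ¬ Function.Injective c → (A.submatrix id c).det ^ 2 * ∏ i, w (c i) = 0 := by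
    intro c hc
    have : ∃ i j, c i = c j ∧ i ≠ j := by
      by_contra hcon
      push Not at hcon
      exact hc fun i j hij => hcon i j hij
    obtain ⟨i, j, hij, hne⟩ := this
    have h0 : (A.submatrix id c).det = 0 := by
      apply Matrix.det_zero_of_column_eq hne
      intro k
      simp [Matrix.submatrix_apply, hij]
    rw [h0]; ring
  have h1 : ∑ c : ι → κ, (B.submatrix id c).det ^ 2 =
      ∑ c : ι ↪ κ, (A.submatrix id c).det ^ 2 * ∏ i, w (c i) := by
    rw [sum_congr rfl fun c _ => hdet c]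
    have e1 : ∑ c : ι → κ, (A.submatrix id c).det ^ 2 * ∏ i, w (c i) =
        ∑ c ∈ univ.filter (fun c : ι → κ => Function.Injective c),
          (A.submatrix id c).det ^ 2 * ∏ i, w (c i) := by
      symm
      refine sum_subset (filter_subset _ _) fun c _ hc => hnon c ?_
      simpa using hc
    rw [e1]
    refine sum_bij' (i := fun c hc => (⟨c, (mem_filter.mp hc).2⟩ : ι ↪ κ)) (j := fun c _ => (c : ι → κ))
      ?_ ?_ ?_ ?_ ?_
    · intro c hc; exact mem_univ _
    · intro c hc; simp [c.injective]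
    · intro c hc; rfl
    · intro c hc; rfl
    · intro c hc; rfl
  rw [h1] at h
  have hfac : (0 : ℝ) < ((Fintype.card ι).factorial : ℝ) := by positivity
  have hne : (univ : Finset (ι ↪ κ)).Nonempty := by
    by_contra hem
    rw [not_nonempty_iff_eq_empty] at hem
    rw [hem, sum_empty] at h
    have := mul_pos hfac hA
    linarith
  obtain ⟨c, _, hc⟩ := exists_max_image univ (fun c : ι ↪ κ => (A.submatrix id c).det ^ 2) hne
  refine ⟨c, c.injective, ?_⟩
  have h2 : ∑ c : ι ↪ κ, (A.submatrix id c).det ^ 2 * ∏ i, w (c i) ≤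
      (A.submatrix id c).det ^ 2 * ∑ c : ι ↪ κ, ∏ i, w (c i) := by
    rw [mul_sum]
    refine sum_le_sum fun c' _ => ?_
    exact mul_le_mul_of_nonneg_right (hc c' (mem_univ _)) (prod_nonneg fun i _ => hw _)
  have h3 := sum_embedding_le (ι := ι) w hw hz
  have h4 : 0 ≤ (A.submatrix id c).det ^ 2 := sq_nonneg _
  have h5 : ((Fintype.card ι).factorial : ℝ) * (z ^ Fintype.card ι *
      (A * diagonal w * A.transpose).det) ≤
      ((Fintype.card ι).factorial : ℝ) * ((∏ k, (1 + z * w k)) * (A.submatrix id c).det ^ 2) := by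
    calc ((Fintype.card ι).factorial : ℝ) * (z ^ Fintype.card ι *
        (A * diagonal w * A.transpose).det) =
        z ^ Fintype.card ι * (((Fintype.card ι).factorial : ℝ) *
          (A * diagonal w * A.transpose).det) := by ring
      _ ≤ z ^ Fintype.card ι * ((A.submatrix id c).det ^ 2 * ∑ c : ι ↪ κ, ∏ i, w (c i)) := by
          rw [h]
          exact mul_le_mul_of_nonneg_left h2 (by positivity)
      _ = (A.submatrix id c).det ^ 2 * (z ^ Fintype.card ι * ∑ c : ι ↪ κ, ∏ i, w (c i)) := by ring
      _ ≤ (A.submatrix id c).det ^ 2 * (((Fintype.card ι).factorial : ℝ) * ∏ k, (1 + z * w k)) :=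
          mul_le_mul_of_nonneg_left h3 h4
      _ = _ := by ring
  exact le_of_mul_le_mul_left h5 hfac

end Pool.Agent.Lib.MP_9701dc_gt.FDA
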